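import Pool.Agent.Lib.MP_4318ff_ag.Spec.X1

/-!
# Basic lemmas on power series with coefficients in a subring, and on automorphisms of `K[[X]]`
-/

set_option autoImplicit false

namespace Pool.Agent.Lib.MP_4318ff_ag

section pcs

variable {K : Type} [Field K]

theorem mem_pcs {A : Subring K} {s : PowerSeries K} : s ∈ pcs A ↔ ∀ n, PowerSeries.coeff n s ∈ A := Iff.rfl

theorem pcs_mono {A B : Subring K} (h : A ≤ B) : pcs A ≤ pcs B := fun _ hs n => h (hs n)

theorem C_mem_pcs {A : Subring K} {a : K} : PowerSeries.C a ∈ pcs A ↔ a ∈ A := by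
  constructor
  · intro h
    have h1 := h 0
    rwa [PowerSeries.coeff_zero_eq_constantCoeff, PowerSeries.constantCoeff_C] at h1
  · intro h n
    rw [PowerSeries.coeff_C]
    split_ifs
    · exact h
    · exact A.zero_mem

theorem X_mem_pcs (A : Subring K) : (PowerSeries.X : PowerSeries K) ∈ pcs A := by
  intro n
  rw [PowerSeries.coeff_X]
  split_ifs
  · exact A.one_mem
  · exact A.zero_mem

theorem X_mul_mem_pcs {A : Subring K} {s : PowerSeries K} : PowerSeries.X * s ∈ pcs A ↔ s ∈ pcs A := by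
  constructor
  · intro h n
    have h1 := h (n + 1)
    rwa [PowerSeries.coeff_succ_X_mul] at h1
  · intro h
    exact (pcs A).mul_mem (X_mem_pcs A) h

theorem cc_mem_of_pcs {A : Subring K} {s : PowerSeries K} (h : s ∈ pcs A) : PowerSeries.constantCoeff s ∈ A := by
  have h1 := h 0
  rwa [PowerSeries.coeff_zero_eq_constantCoeff] at h1

/-- The inverse of a power series whose constant coefficient is a unit of `A`. -/
theorem inv_mem_pcs {A : Subring K} {s : PowerSeries K} (h : s ∈ pcs A) (h1 : (PowerSeries.constantCoeff s)⁻¹ ∈ A) :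
    s⁻¹ ∈ pcs A := by
  intro n
  induction n using Nat.strong_induction_on with
  | _ n ih =>
    rw [PowerSeries.coeff_inv]
    split_ifs
    · exact h1
    · refine A.mul_mem (A.neg_mem h1) (A.sum_mem fun p _ => ?_)
      split_ifs with h2
      · exact A.mul_mem (h _) (ih _ h2)
      · exact A.zero_mem

theorem mul_inv_ps {s : PowerSeries K} (h : PowerSeries.constantCoeff s ≠ 0) : s * s⁻¹ = 1 :=
  PowerSeries.mul_inv_cancel s h

theorem inv_mul_ps {s : PowerSeries K} (h : PowerSeries.constantCoeff s ≠ 0) : s⁻¹ * s = 1 :=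
  PowerSeries.inv_mul_cancel s h

/-- Every power series is `C (cc s) + X s'`. -/
theorem ps_decomp (s : PowerSeries K) : ∃ s' : PowerSeries K,
    s = PowerSeries.C (PowerSeries.constantCoeff s) + PowerSeries.X * s' ∧
    ∀ n, PowerSeries.coeff n s' = PowerSeries.coeff (n + 1) s := by
  refine ⟨PowerSeries.mk fun n => PowerSeries.coeff (n + 1) s, ?_, fun n => PowerSeries.coeff_mk _ _⟩
  ext n
  cases n with
  | zero =>
    rw [map_add, PowerSeries.coeff_zero_X_mul, add_zero, PowerSeries.coeff_zero_eq_constantCoeff,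
      PowerSeries.constantCoeff_C]
  | succ n =>
    rw [map_add, PowerSeries.coeff_succ_X_mul, PowerSeries.coeff_mk, PowerSeries.coeff_C,
      if_neg (Nat.succ_ne_zero n), zero_add]

private theorem pow_eq_zero_iff_of_pos' {a : K} {m : ℕ} (h : a ^ m = 0) : a = 0 := by
  by_contra h1
  exact pow_ne_zero m h1 h

/-- Uniqueness of `n`-th roots. -/
theorem root_unique_ps [CharZero K] {n : ℕ} (hn : 0 < n) {a b : PowerSeries K} (h : a ^ n = b ^ n)
    (hc : PowerSeries.constantCoeff a = PowerSeries.constantCoeff b) (h0 : PowerSeries.constantCoeff b ≠ 0) :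
    a = b := by
  have h1 : (a - b) * ∑ i ∈ Finset.range n, a ^ i * b ^ (n - 1 - i) = 0 := by
    rw [(Commute.all a b).mul_geom_sum₂, h, sub_self]
  rcases mul_eq_zero.1 h1 with h2 | h2
  · exact sub_eq_zero.1 h2
  · exfalso
    have h3 := congrArg PowerSeries.constantCoeff h2
    rw [map_sum, map_zero] at h3
    have h4 : ∀ i ∈ Finset.range n, PowerSeries.constantCoeff (a ^ i * b ^ (n - 1 - i)) =
        PowerSeries.constantCoeff b ^ (n - 1) := by
      intro i hi
      rw [Finset.mem_range] at hi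
      rw [map_mul, map_pow, map_pow, hc, ← pow_add]
      congr 1
      omega
    rw [Finset.sum_congr rfl h4, Finset.sum_const, Finset.card_range, nsmul_eq_mul] at h3
    rcases mul_eq_zero.1 h3 with h5 | h5
    · rw [Nat.cast_eq_zero] at h5
      omega
    · exact h0 (pow_eq_zero_iff_of_pos' h5)

end pcs

section def_

variable {k K : Type} [Field k] [Field K] [Algebra k K]

theorem IsDef.X_pow {σ : PowerSeries K ≃ₐ[k] PowerSeries K} (h : IsDef σ) (m : ℕ) :
    σ (PowerSeries.X ^ m) = PowerSeries.X ^ m := by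
  rw [map_pow, h.1]

theorem IsDef.symm_X {σ : PowerSeries K ≃ₐ[k] PowerSeries K} (h : IsDef σ) : σ.symm PowerSeries.X = PowerSeries.X := by
  rw [AlgEquiv.symm_apply_eq, h.1]

theorem IsDef.symm_cc {σ : PowerSeries K ≃ₐ[k] PowerSeries K} (h : IsDef σ) (s : PowerSeries K) :
    PowerSeries.constantCoeff (σ.symm s) = PowerSeries.constantCoeff s := by
  have h1 := h.2 (σ.symm s)
  rw [AlgEquiv.apply_symm_apply] at h1
  exact h1.symm

theorem IsDef.inv {σ : PowerSeries K ≃ₐ[k] PowerSeries K} (h : IsDef σ) : IsDef σ⁻¹ := ⟨h.symm_X, h.symm_cc⟩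

theorem IsDef.mul {σ τ : PowerSeries K ≃ₐ[k] PowerSeries K} (h : IsDef σ) (h' : IsDef τ) : IsDef (σ * τ) := by
  refine ⟨?_, fun s => ?_⟩
  · rw [AlgEquiv.mul_apply, h'.1, h.1]
  · rw [AlgEquiv.mul_apply, h.2, h'.2]

theorem IsDef.const {σ : PowerSeries K ≃ₐ[k] PowerSeries K} (_h : IsDef σ) (a : k) :
    σ (PowerSeries.C (algebraMap k K a)) = PowerSeries.C (algebraMap k K a) := by
  have h1 : PowerSeries.C (algebraMap k K a) = algebraMap k (PowerSeries K) a := by
    rw [PowerSeries.algebraMap_apply]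
  rw [h1]
  exact σ.commutes a

/-- The order of vanishing is not decreased. -/
theorem IsDef.dvd {σ : PowerSeries K ≃ₐ[k] PowerSeries K} (h : IsDef σ) {m : ℕ} {s : PowerSeries K}
    (hs : PowerSeries.X ^ m ∣ s) : PowerSeries.X ^ m ∣ σ s := by
  obtain ⟨t, rfl⟩ := hs
  rw [map_mul, h.X_pow]
  exact Dvd.intro _ rfl

end def_

end Pool.Agent.Lib.MP_4318ff_ag
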