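import Pool.Agent.Lib.MP_4318ff_ag.Spec.X1
import Pool.Agent.Lib.MP_4318ff_ag.X.Pcs

/-!
# MP_4318ff_ag, module X/Apx: approximation
-/

set_option autoImplicit false

namespace Pool.Agent.Lib.MP_4318ff_ag

private theorem xapx_step {k K : Type} [Field k] [Field K] [Algebra k K] (W : Subring K)
    (θ θ' : PowerSeries K ≃ₐ[k] PowerSeries K) (h : IsDef θ) (h' : IsDef θ')
    (hl : ∀ w ∈ W, ∃ z : PowerSeries K, PowerSeries.constantCoeff z = w ∧ θ z ∈ pcs W ∧ θ' z ∈ pcs W) (N : ℕ) :
    ∀ s ∈ pcs W, ∀ n < N, PowerSeries.coeff n (θ' (θ.symm s)) ∈ W := by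
  induction N with
  | zero => intro s _ n hn; omega
  | succ N ih =>
    intro s hs n hn
    obtain ⟨z, hz, h1, h2⟩ := hl _ (cc_mem_of_pcs hs)
    have h3 : s - θ z ∈ pcs W := (pcs W).sub_mem hs h1
    obtain ⟨s', h4, h5⟩ := ps_decomp (s - θ z)
    have h6 : PowerSeries.constantCoeff (s - θ z) = 0 := by rw [map_sub, h.2, hz, sub_self]
    rw [h6, map_zero, zero_add] at h4
    have h7 : s' ∈ pcs W := by
      rw [h4] at h3
      exact X_mul_mem_pcs.1 h3
    have h8 : s = θ z + PowerSeries.X * s' := by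
      rw [← h4]
      ring
    have h9 : θ' (θ.symm s) = θ' z + PowerSeries.X * θ' (θ.symm s') := by
      rw [h8, map_add, map_mul, AlgEquiv.symm_apply_apply, h.symm_X, map_add, map_mul, h'.1]
    rw [h9, map_add]
    refine W.add_mem (h2 n) ?_
    cases n with
    | zero =>
      rw [PowerSeries.coeff_zero_X_mul]
      exact W.zero_mem
    | succ n =>
      rw [PowerSeries.coeff_succ_X_mul]
      exact ih s' h7 n (by omega)

theorem tApx : ApxStmt := by
  intro k K _ _ _ W θ θ' h h' hl s hs n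
  exact xapx_step W θ θ' h h' hl (n + 1) s hs n (Nat.lt_succ_self n)

end Pool.Agent.Lib.MP_4318ff_ag
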