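import Pool.Agent.Lib.MP_4318ff_ag.Spec.X1
import Pool.Agent.Lib.MP_4318ff_ag.X.Pcs

set_option autoImplicit false

namespace Pool.Agent.Lib.MP_4318ff_ag

theorem xcmp_coeff_one_mul {K : Type} [Field K] (s t : PowerSeries K) : PowerSeries.coeff 1 (s * t) =
    PowerSeries.constantCoeff s * PowerSeries.coeff 1 t + PowerSeries.coeff 1 s * PowerSeries.constantCoeff t := by
  rw [PowerSeries.coeff_mul]
  rw [Finset.Nat.antidiagonal_succ, Finset.sum_cons]
  simp [PowerSeries.coeff_zero_eq_constantCoeff]

theorem xcmp_coeff_one_X_mul {K : Type} [Field K] (s : PowerSeries K) : PowerSeries.coeff 1 (PowerSeries.X * s) =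
    PowerSeries.constantCoeff s := by
  have h := PowerSeries.coeff_succ_X_mul 0 s
  rw [zero_add, PowerSeries.coeff_zero_eq_constantCoeff] at h
  exact h

/-- Module X/Cmp: first order terms of automorphisms of `K[[X]]`. -/
theorem tCmp : CmpStmt := by
  intro k K _ _ _
  refine ⟨?_, fun σ τ h h' => h.mul h', fun σ h => h.inv⟩
  intro σ hσ
  have hcc : ∀ x : K, PowerSeries.constantCoeff (σ (PowerSeries.C x)) = x := by
    intro x
    rw [hσ.2, PowerSeries.constantCoeff_C]
  let L : K →ₗ[k] K :=
    { toFun := fun x => PowerSeries.coeff 1 (σ (PowerSeries.C x))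
      map_add' := by
        intro x y
        rw [map_add, map_add, map_add]
      map_smul' := by
        intro c x
        have h1 : PowerSeries.C (c • x) = c • (PowerSeries.C x : PowerSeries K) := by
          rw [Algebra.smul_def, map_mul, Algebra.smul_def, PowerSeries.algebraMap_apply]
        rw [h1, map_smul, RingHom.id_apply]
        rw [Algebra.smul_def, Algebra.smul_def, PowerSeries.algebraMap_apply, PowerSeries.coeff_C_mul] }
  have hL : ∀ x, L x = PowerSeries.coeff 1 (σ (PowerSeries.C x)) := fun x => rfl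
  let D : Derivation k K K := Derivation.mk' L (by
    intro a b
    rw [hL, hL, hL, map_mul, map_mul, xcmp_coeff_one_mul, hcc, hcc, smul_eq_mul, smul_eq_mul]
    ring)
  have hD : ∀ x, D x = PowerSeries.coeff 1 (σ (PowerSeries.C x)) := fun x => rfl
  refine ⟨D, hD, ?_⟩
  intro s
  obtain ⟨s', hs, hs'⟩ := ps_decomp s
  have h0 : PowerSeries.constantCoeff s' = PowerSeries.coeff 1 s := by
    have h1 := hs' 0
    rw [PowerSeries.coeff_zero_eq_constantCoeff, zero_add] at h1
    exact h1
  have h2 : σ s = σ (PowerSeries.C (PowerSeries.constantCoeff s)) + PowerSeries.X * σ s' := by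
    conv_lhs => rw [hs]
    rw [map_add, map_mul, hσ.1]
  rw [h2, map_add, xcmp_coeff_one_X_mul, hσ.2, h0, hD]

end Pool.Agent.Lib.MP_4318ff_ag
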