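import Pool.Agent.Lib.MP_4318ff_ag.Spec.X1
import Pool.Agent.Lib.MP_4318ff_ag.X.Pcs
import Pool.Agent.Lib.MP_4318ff_ag.A.G1

/-!
# MP_4318ff_ag, module X/Dvr: a derivation of `u.A K` is regular on `v_i/v_j`
-/

set_option autoImplicit false

namespace Pool.Agent.Lib.MP_4318ff_ag

private theorem xdvr_mem {k : Type} [Field k] {r : ℕ} {C : Config k r} (u : Chart C) (c : Fin 3 → k) :
    ev c / ev u.b ∈ u.R :=
  Algebra.subset_adjoin (Or.inl ⟨c, rfl⟩)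

theorem tDvr (h1 : EvStmt) : DvrStmt := by
  intro k _ r n C Z K _ _ _ _ v hn hv u O i j D hu hj hD
  have hz := (h1 k).2.2
  have hb : ev u.b ≠ 0 := fun h => u.b_ne ((hz _).1 h)
  have hlj : ev (C.ℓ j) ≠ 0 := fun h => hj.1 ((hz _).1 h)
  have hlo : ev (C.ℓ Z.o) ≠ 0 := fun h => (Z.li.ne_zero 0) ((hz _).1 h)
  obtain ⟨m, rfl⟩ : ∃ m, n = m + 1 := ⟨n - 1, by omega⟩
  have hvj : v j ≠ 0 := by
    intro h
    have h2 := hv.vn j
    rw [h, zero_pow hn.ne'] at h2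
    have h3 := (map_eq_zero (algebraMap (F k) K)).1 h2.symm
    exact div_ne_zero hlj hlo h3
  set q1 : K := v i * v j ^ m * algebraMap (F k) K (ev (C.ℓ Z.o) / ev u.b) with hq1
  set q2 : K := algebraMap (F k) K (ev (C.ℓ j) / ev u.b) with hq2
  have hq20 : q2 ≠ 0 := by
    rw [hq2, Ne, map_eq_zero]
    exact div_ne_zero hlj hb
  have hlo' : algebraMap (F k) K (ev (C.ℓ Z.o) / ev u.b) ≠ 0 := by
    rw [Ne, map_eq_zero]
    exact div_ne_zero hlo hb
  have hq2' : q2 = v j ^ (m + 1) * algebraMap (F k) K (ev (C.ℓ Z.o) / ev u.b) := by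
    rw [hv.vn j, ← map_mul, hq2]
    congr 1
    field_simp
  have hq : v i / v j * q2 = q1 := by
    rw [hq2', hq1, pow_succ]
    field_simp
  have hq2A : q2 ∈ u.A K := algebraMap_mem_ic K (xdvr_mem u _)
  have hpow : q1 ^ (m + 1) = algebraMap (F k) K (ev (C.ℓ i) / ev u.b * (ev (C.ℓ j) / ev u.b) ^ m) := by
    have h2 : q1 ^ (m + 1) = v i ^ (m + 1) * (v j ^ (m + 1)) ^ m *
        algebraMap (F k) K (ev (C.ℓ Z.o) / ev u.b) ^ (m + 1) := by
      rw [hq1, mul_pow, mul_pow, ← pow_mul, ← pow_mul, mul_comm m (m + 1)]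
    rw [h2, hv.vn i, hv.vn j, ← map_pow, ← map_pow, ← map_mul, ← map_mul]
    congr 1
    rw [pow_succ (ev (C.ℓ Z.o) / ev u.b) m]
    have h3 : (ev (C.ℓ j) / ev (C.ℓ Z.o)) ^ m * (ev (C.ℓ Z.o) / ev u.b) ^ m = (ev (C.ℓ j) / ev u.b) ^ m := by
      rw [← mul_pow]
      congr 1
      field_simp
    have h4 : ev (C.ℓ i) / ev (C.ℓ Z.o) * (ev (C.ℓ Z.o) / ev u.b) = ev (C.ℓ i) / ev u.b := by
      field_simp
    rw [← h3, ← h4]
    ring
  have hq1A : q1 ∈ u.A K := by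
    have h2 : q1 ^ (m + 1) ∈ u.A K := by
      rw [hpow]
      exact algebraMap_mem_ic K (u.R.mul_mem (xdvr_mem u _) (u.R.pow_mem (xdvr_mem u _) m))
    exact IsIntegral.of_pow (Nat.succ_pos m) h2
  have hAO : u.A K ≤ ic K O := ic_mono K hu
  have hinv : q2⁻¹ ∈ ic K O := by
    have h2 : q2⁻¹ = algebraMap (F k) K (ev u.b / ev (C.ℓ j)) := by
      rw [hq2, ← map_inv₀, inv_div]
    rw [h2]
    exact algebraMap_mem_ic K (hj.2 _)
  have ht : v i / v j = q1 * q2⁻¹ := by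
    rw [← hq, mul_assoc, mul_inv_cancel₀ hq20, mul_one]
  have htO : v i / v j ∈ ic K O := by
    rw [ht]
    exact (ic K O).mul_mem (hAO hq1A) hinv
  have hder : D (v i / v j) = q2⁻¹ * (D q1 - v i / v j * D q2) := by
    have h2 : D q1 = v i / v j * D q2 + q2 * D (v i / v j) := by
      rw [← hq, D.leibniz, smul_eq_mul, smul_eq_mul]
    rw [h2, add_sub_cancel_left, ← mul_assoc, inv_mul_cancel₀ hq20, one_mul]
  rw [hder]
  exact (ic K O).mul_mem hinv ((ic K O).sub_mem (hAO (hD _ hq1A)) ((ic K O).mul_mem htO (hAO (hD _ hq2A))))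

end Pool.Agent.Lib.MP_4318ff_ag
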