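import Pool.Agent.Lib.MP_4318ff_ag.Spec.X1
import Pool.Agent.Lib.MP_4318ff_ag.X.Pcs
import Pool.Agent.Lib.MP_4318ff_ag.A.G1
import Pool.Agent.Lib.MP_4318ff_ag.A.G2
import Pool.Agent.Lib.MP_4318ff_ag.A.RegLin

/-!
# X/Non: the deformation is not trivial
-/

set_option autoImplicit false

namespace Pool.Agent.Lib.MP_4318ff_ag

open scoped LinearAlgebra.Projectivization

theorem xnon_ev_sum {k : Type} [Field k] {ι : Type} (s : Finset ι) (g : ι → Fin 3 → k) :
    ev (∑ i ∈ s, g i) = ∑ i ∈ s, ev (g i) := by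
  classical
  induction s using Finset.induction_on with
  | empty => rw [Finset.sum_empty, Finset.sum_empty, ev_zero]
  | insert a s ha ih => rw [Finset.sum_insert ha, Finset.sum_insert ha, ev_add, ih]

section

variable {k : Type} [Field k] {r : ℕ} {C : Config k r} (Z : XData C) (n : ℕ) {K : Type} [Field K] [Algebra (F k) K]
  [Algebra k K] [IsScalarTower k (F k) K]

theorem xnon_o_ne : C.ℓ Z.o ≠ 0 := Z.li.ne_zero 0

theorem xnon_e_ne : C.ℓ Z.e ≠ 0 := Z.li.ne_zero 1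

include Z in
/-- There is a chart. -/
theorem xnon_chart : Nonempty (Chart C) :=
  ⟨{ b := C.ℓ Z.o, b_ne := xnon_o_ne Z, a := fun _ => C.ℓ Z.o, a_ne := fun _ _ => xnon_o_ne Z,
     a_through := fun P hP => (Z.pts P hP).1 }⟩

/-- Sums of `n`-th powers of the roots. -/
theorem xnon_sum {v : Fin r → K} (hR : XRoots Z n v) (d : Fin r → k) (a : Fin 3 → k) (ha : a = ∑ i, d i • C.ℓ i) :
    ∑ i, algebraMap k K (d i) * v i ^ n = algebraMap (F k) K (ev a / ev (C.ℓ Z.o)) := by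
  rw [ha, xnon_ev_sum, Finset.sum_div, map_sum]
  refine Finset.sum_congr rfl fun i _ => ?_
  rw [hR.vn, ev_smul, mul_div_assoc, map_mul, ← IsScalarTower.algebraMap_apply k (F k) K]

omit [Algebra k K] [IsScalarTower k (F k) K] in
theorem xnon_ne {v : Fin r → K} (hn : 0 < n) (hr : ∀ i, C.ℓ i ≠ 0) (hR : XRoots Z n v) (i : Fin r) : v i ≠ 0 := by
  intro h
  have h1 := hR.vn i
  rw [h, zero_pow hn.ne'] at h1
  have h2 : ev (C.ℓ i) / ev (C.ℓ Z.o) = 0 := by
    rw [← map_eq_zero (algebraMap (F k) K)]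
    exact h1.symm
  rcases div_eq_zero_iff.1 h2 with h3 | h3
  · exact hr i (ev_eq_zero h3)
  · exact xnon_o_ne Z (ev_eq_zero h3)

include Z in
/-- All forms are different from zero. -/
theorem xnon_l_ne (i : Fin r) : C.ℓ i ≠ 0 := by
  by_cases h : i = Z.o
  · rw [h]
    exact xnon_o_ne Z
  · exact reglin_ne C i Z.o h

omit [Algebra k K] [IsScalarTower k (F k) K] in
/-- `(v_i/v_j)^n = φ(ℓ_i/ℓ_j)`. -/
theorem xnon_quot {v : Fin r → K} (hR : XRoots Z n v) (i j : Fin r) :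
    (v i / v j) ^ n = algebraMap (F k) K (ev (C.ℓ i) / ev (C.ℓ j)) := by
  rw [div_pow, hR.vn, hR.vn, ← map_div₀]
  congr 1
  have h1 : ev (C.ℓ Z.o) ≠ 0 := ev_ne_zero (xnon_o_ne Z)
  by_cases hj : ev (C.ℓ j) = 0
  · rw [hj, zero_div, div_zero, div_zero]
  · field_simp

theorem xnon_coeff1 (a b : K) (x : PowerSeries K) :
    PowerSeries.coeff 1 (PowerSeries.C a * (1 + PowerSeries.C b * x)) = a * (b * PowerSeries.coeff 1 x) := by
  rw [PowerSeries.coeff_C_mul, map_add, PowerSeries.coeff_C_mul, PowerSeries.coeff_one]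
  simp

end

/-- The derivative of `v_p`. -/
theorem xnon_Dp {k : Type} [Field k] {r : ℕ} {C : Config k r} (Z : XData C) (n : ℕ) {K : Type} [Field K] [Algebra (F k) K]
    [Algebra k K] [IsScalarTower k (F k) K] [CharZero K] (v : Fin r → K) (hn : 0 < n) (hR : XRoots Z n v) (u : Chart C)
    (D : Derivation k K K) (ξ : K)
    (hξ : ξ = -((n : K)⁻¹ * (v Z.e ^ 2 * algebraMap (F k) K (ev (C.ℓ Z.o) / ev (Z.a u)))))
    (hD : ∀ i, i ≠ Z.p → D (v i) = v i * (algebraMap k K (Z.al u i) * ξ)) :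
    D (v Z.p) = v Z.p * (algebraMap k K (Z.al u Z.p) * ξ +
      v Z.e ^ 2 / ((n : K) * algebraMap k K (Z.c Z.p) * v Z.p ^ n)) := by
  classical
  have hne := fun i => xnon_ne Z n hn (xnon_l_ne Z) hR i
  have hnK : (n : K) ≠ 0 := Nat.cast_ne_zero.2 hn.ne'
  have hcp : algebraMap k K (Z.c Z.p) ≠ 0 := by
    rw [Ne, map_eq_zero]
    exact Z.cp
  -- the relation and its derivative
  have e0 : ∑ i, algebraMap k K (Z.c i) * v i ^ n = 0 := by
    rw [xnon_sum Z n hR Z.c 0 Z.rel.symm, ev_zero, zero_div, map_zero]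
  have e1 : ∑ i, algebraMap k K (Z.c i * Z.al u i) * v i ^ n = algebraMap (F k) K (ev (Z.a u) / ev (C.ℓ Z.o)) :=
    xnon_sum Z n hR _ _ (Z.a_eq u)
  have e2 : ∑ i, algebraMap k K (Z.c i) * ((n : K) * v i ^ (n - 1) * D (v i)) = 0 := by
    have h := congrArg D e0
    rw [map_sum, map_zero] at h
    rw [← h]
    refine Finset.sum_congr rfl fun i _ => ?_
    rw [Derivation.leibniz, Derivation.leibniz_pow, Derivation.map_algebraMap, smul_zero, add_zero, smul_eq_mul,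
      nsmul_eq_mul, smul_eq_mul]
    ring
  have hv : ∀ i, v i ^ (n - 1) * v i = v i ^ n := fun i => by
    rw [← pow_succ, Nat.sub_add_cancel hn]
  have e3 : ∀ i, i ≠ Z.p → algebraMap k K (Z.c i) * ((n : K) * v i ^ (n - 1) * D (v i)) =
      (n : K) * ξ * (algebraMap k K (Z.c i * Z.al u i) * v i ^ n) := by
    intro i hi
    rw [hD i hi, ← hv i, map_mul]
    ring
  rw [← Finset.add_sum_erase _ _ (Finset.mem_univ Z.p)] at e1 e2
  rw [Finset.sum_congr rfl (fun i hi => e3 i (Finset.ne_of_mem_erase hi)), ← Finset.mul_sum] at e2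
  have hsum := eq_sub_of_add_eq' e1
  rw [hsum] at e2
  have hao : ev (Z.a u) ≠ 0 := ev_ne_zero (Z.a_ne u)
  have hoo : ev (C.ℓ Z.o) ≠ 0 := ev_ne_zero (xnon_o_ne Z)
  have e4 : ξ * algebraMap (F k) K (ev (Z.a u) / ev (C.ℓ Z.o)) = -((n : K)⁻¹ * v Z.e ^ 2) := by
    have h : algebraMap (F k) K (ev (C.ℓ Z.o) / ev (Z.a u)) * algebraMap (F k) K (ev (Z.a u) / ev (C.ℓ Z.o)) = 1 := by
      rw [← map_mul, div_mul_div_comm, mul_comm (ev (C.ℓ Z.o)), div_self (mul_ne_zero hao hoo), map_one]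
    rw [hξ]
    calc -((n : K)⁻¹ * (v Z.e ^ 2 * algebraMap (F k) K (ev (C.ℓ Z.o) / ev (Z.a u)))) *
          algebraMap (F k) K (ev (Z.a u) / ev (C.ℓ Z.o))
        = -((n : K)⁻¹ * v Z.e ^ 2) * (algebraMap (F k) K (ev (C.ℓ Z.o) / ev (Z.a u)) *
          algebraMap (F k) K (ev (Z.a u) / ev (C.ℓ Z.o))) := by ring
      _ = _ := by rw [h, mul_one]
  rw [mul_sub, mul_assoc (n : K) ξ, e4] at e2
  have hvp := hne Z.p
  have hvpn : v Z.p ^ n ≠ 0 := pow_ne_zero _ hvp
  have e5 : algebraMap k K (Z.c Z.p) * (n : K) * v Z.p ^ n * D (v Z.p) =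
      v Z.p * (v Z.e ^ 2 + (n : K) * ξ * (algebraMap k K (Z.c Z.p * Z.al u Z.p) * v Z.p ^ n)) := by
    have h := congrArg (fun t => v Z.p * t) e2
    simp only [mul_zero] at h
    rw [← hv Z.p] at h ⊢
    have hn1 : (n : K) * -((n : K)⁻¹ * v Z.e ^ 2) = -(v Z.e ^ 2) := by
      rw [mul_neg, ← mul_assoc, mul_inv_cancel₀ hnK, one_mul]
    rw [hn1] at h
    linear_combination h
  rw [map_mul] at e5
  field_simp
  linear_combination e5

theorem tNon (_h1 : EvStmt) (_h2 : CurveStmt) (h3 : ChartExStmt) (h4 : CmpStmt) (h5 : HoStmt) (h6 : PrjStmt)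
    (h7 : LamStmt) (h8 : DvrStmt) : NonStmt := by
  intro k _ _ _ r n C Z K _ _ _ _ _ _ v x Vp θ h hn hR hT hd hp hg
  have hn0 : 0 < n := by omega
  have : CharZero K := charZero_of_injective_algebraMap (algebraMap k K).injective
  have hnK : (n : K) ≠ 0 := Nat.cast_ne_zero.2 hn0.ne'
  have hne := fun i => xnon_ne Z n hn0 (xnon_l_ne Z) hR i
  obtain ⟨u₀⟩ := xnon_chart Z
  obtain ⟨c1, -, -⟩ := h4 k K
  -- the automorphism H
  have hH : ∀ u, h u * θ u = h u₀ * θ u₀ := by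
    intro u
    have h1 : h u * θ u = h u * (θ u * (θ u₀)⁻¹) * θ u₀ := by group
    rw [h1, hg u u₀]
    group
  have hHd : IsDef (h u₀ * θ u₀) := (hd u₀).mul (hT u₀).isDef
  obtain ⟨Y, hY, -⟩ := c1 _ hHd
  choose E hE hE' using fun u => c1 _ (hd u)
  choose D hD _hD' using fun u => c1 _ (hT u).isDef
  have hYE : ∀ u (y : K), Y y = E u y + D u y := by
    intro u y
    rw [hY, ← hH u, AlgEquiv.mul_apply, hE', hD, (hT u).isDef.2, PowerSeries.constantCoeff_C]
  have hEA : ∀ u, ∀ y ∈ u.A K, E u y ∈ u.A K := by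
    intro u y hy
    rw [hE]
    exact hp u _ (C_mem_pcs.2 hy) 1
  -- values of D
  have hξ := fun u => (hT u).sol.x1
  have hDv : ∀ u i, i ≠ Z.p → D u (v i) = v i * (algebraMap k K (Z.al u i) * PowerSeries.coeff 1 (x u)) := by
    intro u i hi
    rw [hD, (hT u).val i hi, Vi, xnon_coeff1]
  have hDp := fun u => xnon_Dp Z n v hn0 hR u (D u) _ (hξ u) (hDv u)
  -- the functions Λ
  obtain ⟨κ, hκ⟩ : ∃ κ, κ = v Z.e ^ 2 / ((n : K) * algebraMap k K (Z.c Z.p) * v Z.p ^ n) := ⟨_, rfl⟩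
  obtain ⟨Λ, hΛ⟩ : ∃ Λ : Fin r → K, ∀ i, Λ i = Y (v i) / v i - if i = Z.p then κ else 0 := ⟨_, fun _ => rfl⟩
  have hΛu : ∀ u i, Λ i = E u (v i) / v i + algebraMap k K (Z.al u i) * PowerSeries.coeff 1 (x u) := by
    intro u i
    have hv := hne i
    rw [hΛ, hYE u]
    by_cases hi : i = Z.p
    · rw [if_pos hi, hi, hDp u, ← hκ]
      have hv' := hne Z.p
      field_simp
      ring
    · rw [if_neg hi, hDv u i hi, sub_zero, add_div, mul_div_cancel_left₀ _ hv]
  have hcp : algebraMap k K (Z.c Z.p) ≠ 0 := by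
    rw [Ne, map_eq_zero]
    exact Z.cp
  have hv : ∀ i, v i ^ (n - 1) * v i = v i ^ n := fun i => by
    rw [← pow_succ, Nat.sub_add_cancel hn0]
  -- (1)
  have hsum : ∑ i, algebraMap k K (Z.c i) * v i ^ n * Λ i = -((n : K)⁻¹ * v Z.e ^ 2) := by
    have e0 : ∑ i, algebraMap k K (Z.c i) * v i ^ n = 0 := by
      rw [xnon_sum Z n hR Z.c 0 Z.rel.symm, ev_zero, zero_div, map_zero]
    have e2 : ∑ i, algebraMap k K (Z.c i) * ((n : K) * v i ^ (n - 1) * Y (v i)) = 0 := by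
      have h := congrArg Y e0
      rw [map_sum, map_zero] at h
      rw [← h]
      refine Finset.sum_congr rfl fun i _ => ?_
      rw [Derivation.leibniz, Derivation.leibniz_pow, Derivation.map_algebraMap, smul_zero, add_zero, smul_eq_mul,
        nsmul_eq_mul, smul_eq_mul]
      ring
    have e3 : ∀ i, algebraMap k K (Z.c i) * v i ^ n * Λ i =
        (n : K)⁻¹ * (algebraMap k K (Z.c i) * ((n : K) * v i ^ (n - 1) * Y (v i))) -
        if i = Z.p then algebraMap k K (Z.c Z.p) * v Z.p ^ n * κ else 0 := by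
      intro i
      have hvi := hne i
      rw [hΛ, mul_sub, ← hv i]
      congr 1
      · field_simp
      · split_ifs with hi
        · rw [hi, hv]
        · rw [mul_zero]
    rw [Finset.sum_congr rfl (fun i _ => e3 i), Finset.sum_sub_distrib, ← Finset.mul_sum, e2, mul_zero, zero_sub,
      Finset.sum_ite_eq' Finset.univ Z.p, if_pos (Finset.mem_univ _), hκ]
    congr 1
    have hvp := pow_ne_zero n (hne Z.p)
    field_simp
  -- (2)
  have hreg : ∀ (O : Subalgebra k (F k)) (i j : Fin r), IsCurve O → UnitForm O (C.ℓ j) →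
      v i / v j * (Λ i - Λ j) ∈ ic K O := by
    intro O i j hO hj
    obtain ⟨u, hu⟩ := h3 k r C O (Or.inl hO)
    have hvi := hne i
    have hvj := hne j
    have hle : u.A K ≤ ic K O := ic_mono _ hu
    have h1 : v i / v j * (Λ i - Λ j) = E u (v i / v j) +
        v i / v j * ((algebraMap k K (Z.al u i) - algebraMap k K (Z.al u j)) * PowerSeries.coeff 1 (x u)) := by
      rw [hΛu u i, hΛu u j, Derivation.leibniz_div, smul_eq_mul, smul_eq_mul]
      field_simp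
      ring
    rw [h1]
    refine (ic K O).add_mem (h8 k r n C Z K v hn0 hR u O i j (E u) hu hj (hEA u)) ((ic K O).mul_mem ?_
      ((ic K O).mul_mem ?_ ?_))
    · exact reglin_root O _ (hj.2 _) n hn0 _ (xnon_quot Z n hR i j)
    · rw [← map_sub, IsScalarTower.algebraMap_apply k (F k) K]
      exact algebraMap_mem_ic _ (O.algebraMap_mem _)
    · exact hle ((hT u).sol.mem 1)
  -- (3)
  obtain ⟨m, hm⟩ : ∃ m, m = v Z.e ^ 2 := ⟨_, rfl⟩
  have hm0 : m ≠ 0 := by
    rw [hm]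
    exact pow_ne_zero _ (hne _)
  obtain ⟨e, he1, he2, he3⟩ := h6 k n K m hn0 hm0
    ⟨(ev (C.ℓ Z.e) / ev (C.ℓ Z.o)) ^ 2, by rw [hm, ← pow_mul, mul_comm, pow_mul, hR.vn, map_pow]⟩
  have hzero : ∀ i j, i ≠ j → e (Λ i - Λ j) = 0 := by
    intro i j hij
    obtain ⟨f, hf⟩ := he1 (Λ i - Λ j)
    have hf0 : f = 0 := by
      refine h5 k f (C.ℓ Z.o) (xnon_o_ne Z) fun O hO b hb => ?_
      refine h7 k r n C Z K v hn hR O b i j f hO hb hij (fun hj => ?_) (fun hi => ?_)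
      · have h1 := he3 O (Λ i - Λ j) (v i / v j) (div_ne_zero (hne i) (hne j)) ⟨_, xnon_quot Z n hR i j⟩
          (hreg O i j hO hj)
        rw [hf, hm] at h1
        exact h1
      · have h1 := he3 O (Λ j - Λ i) (v j / v i) (div_ne_zero (hne j) (hne i)) ⟨_, xnon_quot Z n hR j i⟩
          (hreg O j i hO hi)
        rw [← neg_sub (Λ i) (Λ j), map_neg, hf, hm, mul_neg] at h1
        have h2 := (ic K O).neg_mem h1
        rw [neg_neg] at h2
        exact h2
    rw [hf, hf0, map_zero, zero_mul]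
  have hΛo : Λ Z.o = 0 := by
    rw [hΛ, if_neg (Ne.symm Z.po), hR.vo, Derivation.map_one_eq_zero, zero_div, sub_zero]
  have hΛ0 : ∀ i, e (Λ i) = 0 := by
    intro i
    by_cases hi : i = Z.o
    · rw [hi, hΛo, map_zero]
    · have h1 := hzero i Z.o hi
      rw [hΛo, sub_zero] at h1
      exact h1
  have hfin := congrArg e hsum
  rw [map_sum] at hfin
  have h1 : ∀ i ∈ Finset.univ, e (algebraMap k K (Z.c i) * v i ^ n * Λ i) = 0 := by
    intro i _
    have h2 : algebraMap k K (Z.c i) * v i ^ n * Λ i =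
        (algebraMap k (F k) (Z.c i) * (ev (C.ℓ i) / ev (C.ℓ Z.o)) : F k) • Λ i := by
      rw [Algebra.smul_def, map_mul, hR.vn, ← IsScalarTower.algebraMap_apply k (F k) K]
    rw [h2, map_smul, hΛ0, smul_zero]
  rw [Finset.sum_congr rfl h1, Finset.sum_const_zero] at hfin
  have h2 : -((n : K)⁻¹ * v Z.e ^ 2) = (-((n : F k)⁻¹) : F k) • m := by
    rw [Algebra.smul_def, map_neg, map_inv₀, map_natCast, hm]
    ring
  rw [h2, map_smul, he2, ← h2, eq_comm, neg_eq_zero] at hfin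
  rcases mul_eq_zero.1 hfin with h3 | h3
  · exact hnK (inv_eq_zero.1 h3)
  · exact pow_ne_zero 2 (hne Z.e) h3

end Pool.Agent.Lib.MP_4318ff_ag
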