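import Pool.Agent.Lib.MP_4318ff_ag.Spec.X1
import Pool.Agent.Lib.MP_4318ff_ag.X.Pcs
import Pool.Agent.Lib.MP_4318ff_ag.X.Non

/-!
# X/Fin: configurations with the data `XData` are not etale rigid
-/

set_option autoImplicit false

namespace Pool.Agent.Lib.MP_4318ff_ag

open scoped LinearAlgebra.Projectivization

theorem tFin (_h1 : EvStmt) (h2 : ForStmt) (h3 : NonStmt) (h4 : KumXStmt) : XFinStmt := by
  classical
  intro k _ _ _ r n C ⟨Z⟩ hn hrig
  obtain ⟨K, iK, iA, iA', iT, hfin, hgal, hKum, het⟩ := h4 k r n C (by omega)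
  -- the roots
  have hroots : ∀ i, ∃ y : K, y ^ n = algebraMap (F k) K (ev (C.ℓ i) / ev (C.ℓ Z.o)) ∧ (i = Z.o → y = 1) := by
    intro i
    by_cases hi : i = Z.o
    · refine ⟨1, ?_, fun _ => rfl⟩
      rw [one_pow, hi, div_self (ev_ne_zero (xnon_o_ne Z)), map_one]
    · obtain ⟨y, hy⟩ := het.roots i Z.o
      exact ⟨y, hy, fun h => absurd h hi⟩
  choose v hv hv1 using hroots
  have hR : XRoots Z n v := ⟨hv1 _ rfl, hv⟩
  obtain ⟨x, Vp, θ, -, hT, hpre⟩ := h2 k r n C Z K v (by omega) hR hKum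
  have hco : IsDefCocycle C K (fun u w => θ u * (θ w)⁻¹) :=
    { isDef := fun u w => (hT u).isDef.mul (hT w).isDef.inv
      pre := fun u w f hf m => hpre u w f hf m
      coc := fun u w z => by group }
  obtain ⟨h, hh, hg⟩ := hrig K het _ hco
  exact h3 k r n C Z K v x Vp θ h hn hR hT (fun u => (hh u).1) (fun u s hs m => (hh u).2 s hs m) hg

end Pool.Agent.Lib.MP_4318ff_ag
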