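import Pool.Agent.Lib.MP_4318ff_ag.Spec.X1
import Pool.Agent.Lib.MP_4318ff_ag.X.Pcs
import Pool.Agent.Lib.MP_4318ff_ag.A.G1

set_option autoImplicit false

namespace Pool.Agent.Lib.MP_4318ff_ag

theorem tFor (h1 : SolXStmt) (h2 : TheStmt) (h3 : LifStmt) (h4 : ApxStmt) (h5 : GluStmt) (_h6 : CmpStmt) :
    ForStmt := by
  intro k _ _ _ r n C Z K _ _ _ _ _ _ v hn hv hK
  obtain ⟨hx, Vp, hVp⟩ := h1 k r n C Z K v hn hv
  choose x hx using hx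
  have hn0 : 0 < n := by omega
  have hth := fun u => h2 k r n C Z K v Vp hn0 hv hVp u (x u) (hx u)
  choose θ hθ using hth
  refine ⟨x, Vp, θ, hVp, hθ, ?_⟩
  intro u w s hs m
  refine h5 k r C K u w _ fun O hO hu hw => ?_
  have hle : u.A K ⊔ w.A K ≤ MP_4318ff_ag.ic K O :=
    sup_le (ic_mono K hu) (ic_mono K hw)
  refine h4 k K (MP_4318ff_ag.ic K O) (θ w) (θ u) (hθ w).isDef (hθ u).isDef (fun y hy => ?_) s (pcs_mono hle hs) m
  obtain ⟨z, hz, hz'⟩ := h3 k r n C Z K v Vp hn0 hv hVp hK O hO y hy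
  exact ⟨z, hz, hz' w (x w) (θ w) (hθ w) hw, hz' u (x u) (θ u) (hθ u) hu⟩

end Pool.Agent.Lib.MP_4318ff_ag
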