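import Pool.Agent.Lib.MP_4318ff_ag.Spec.X1
import Pool.Agent.Lib.MP_4318ff_ag.X.Pcs
import Pool.Agent.Lib.MP_4318ff_ag.A.G1
import Pool.Agent.Lib.MP_4318ff_ag.A.HartK

set_option autoImplicit false

namespace Pool.Agent.Lib.MP_4318ff_ag

theorem tGlu (h1 : HartUVStmt) (h2 : OverlapStmt) (h3 : UnifStmt) (h4 : CurveStmt) (h5 : ExcStmt) : GluStmt := by
  intro k _ r C K _ _ _ u v y hy
  rw [← h2 k r C K u v]
  exact ic_of_forall K (ι := {O : Subalgebra k (F k) // IsDiv C O ∧ u.R ≤ O ∧ v.R ≤ O}) (u.R ⊔ v.R) (fun O => O.1)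
    (fun O f hf => hartK_intClosed h3 h4 h5 O.2.1 f hf)
    (fun f hf => h1 k r C u v f fun O h6 h7 h8 => hf ⟨O, h6, h7, h8⟩)
    (fun O => hy O.1 O.2.1 O.2.2.1 O.2.2.2)

end Pool.Agent.Lib.MP_4318ff_ag
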