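import Pool.Agent.Lib.MP_4318ff_ag.Spec.X1
import Pool.Agent.Lib.MP_4318ff_ag.X.Pcs

/-!
# MP_4318ff_ag, module X/Hen: Hensel's lemma for `K[[X]]` with coefficients in a subring
-/

set_option autoImplicit false

namespace Pool.Agent.Lib.MP_4318ff_ag

private theorem xhen_eval_mem {K : Type} [Field K] {A : Subring K} {G : Polynomial (PowerSeries K)}
    (hG : ∀ i, G.coeff i ∈ pcs A) {x : PowerSeries K} (hx : x ∈ pcs A) : G.eval x ∈ pcs A := by
  rw [Polynomial.eval_eq_sum_range]
  exact (pcs A).sum_mem fun i _ => (pcs A).mul_mem (hG i) ((pcs A).pow_mem hx i)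

private theorem xhen_cc_eval {K : Type} [Field K] (G : Polynomial (PowerSeries K)) (x : PowerSeries K) :
    PowerSeries.constantCoeff (G.eval x) =
      (G.map (PowerSeries.constantCoeff (R := K))).eval (PowerSeries.constantCoeff x) := by
  rw [Polynomial.eval_map, Polynomial.eval, Polynomial.hom_eval₂, RingHom.comp_id]

private theorem xhen_cc_eval_zero {K : Type} [Field K] (G : Polynomial (PowerSeries K)) {x : PowerSeries K}
    (hx : PowerSeries.constantCoeff x = 0) :
    PowerSeries.constantCoeff (G.eval x) = PowerSeries.constantCoeff (G.coeff 0) := by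
  rw [xhen_cc_eval, hx, ← Polynomial.coeff_zero_eq_eval_zero, Polynomial.coeff_map]

private theorem xhen_cc_deriv {K : Type} [Field K] (G : Polynomial (PowerSeries K)) {x : PowerSeries K}
    (hx : PowerSeries.constantCoeff x = 0) :
    PowerSeries.constantCoeff (G.derivative.eval x) = PowerSeries.constantCoeff (G.coeff 1) := by
  rw [xhen_cc_eval_zero _ hx, Polynomial.coeff_derivative]
  simp

private theorem xhen_part1 {K : Type} [Field K] (A : Subring K) (G : Polynomial (PowerSeries K))
    (hG : ∀ i, G.coeff i ∈ pcs A) (h0 : PowerSeries.constantCoeff (G.coeff 0) = 0)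
    (h1 : PowerSeries.constantCoeff (G.coeff 1) ≠ 0) (h2 : (PowerSeries.constantCoeff (G.coeff 1))⁻¹ ∈ A) :
    ∃ x ∈ pcs A, PowerSeries.constantCoeff x = 0 ∧ G.eval x = 0 ∧
      PowerSeries.coeff 1 x = -((PowerSeries.constantCoeff (G.coeff 1))⁻¹ * PowerSeries.coeff 1 (G.coeff 0)) := by
  set c : K := PowerSeries.constantCoeff (G.coeff 1) with hc
  let xs : ℕ → PowerSeries K := fun m => Nat.rec 0 (fun _ x => x - PowerSeries.C c⁻¹ * G.eval x) m
  have hx0 : xs 0 = 0 := rfl
  have hxs : ∀ m, xs (m + 1) = xs m - PowerSeries.C c⁻¹ * G.eval (xs m) := fun m => rfl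
  have key : ∀ m, xs m ∈ pcs A ∧ PowerSeries.constantCoeff (xs m) = 0 ∧ PowerSeries.X ^ (m + 1) ∣ G.eval (xs m) := by
    intro m
    induction m with
    | zero =>
      refine ⟨?_, ?_, ?_⟩
      · rw [hx0]
        exact (pcs A).zero_mem
      · rw [hx0, map_zero]
      · rw [hx0, ← Polynomial.coeff_zero_eq_eval_zero, zero_add, pow_one, PowerSeries.X_dvd_iff]
        exact h0
    | succ m ih =>
      obtain ⟨i1, i2, i3⟩ := ih
      refine ⟨?_, ?_, ?_⟩
      · rw [hxs]
        exact (pcs A).sub_mem i1 ((pcs A).mul_mem (C_mem_pcs.2 h2) (xhen_eval_mem hG i1))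
      · rw [hxs, map_sub, map_mul, i2, xhen_cc_eval_zero _ i2, h0, mul_zero, sub_zero]
      · obtain ⟨κ, hκ⟩ := Polynomial.binomExpansion G (xs m) (-(PowerSeries.C c⁻¹ * G.eval (xs m)))
        rw [hxs, sub_eq_add_neg, hκ]
        have e1 : G.eval (xs m) + G.derivative.eval (xs m) * -(PowerSeries.C c⁻¹ * G.eval (xs m)) +
            κ * (-(PowerSeries.C c⁻¹ * G.eval (xs m))) ^ 2 =
            G.eval (xs m) * (1 - PowerSeries.C c⁻¹ * G.derivative.eval (xs m)) +
            κ * PowerSeries.C c⁻¹ ^ 2 * (G.eval (xs m)) ^ 2 := by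
          ring
        rw [e1]
        refine dvd_add ?_ ?_
        · rw [pow_succ (PowerSeries.X : PowerSeries K) (m + 1)]
          refine mul_dvd_mul i3 ?_
          rw [PowerSeries.X_dvd_iff, map_sub, map_one, map_mul, PowerSeries.constantCoeff_C, xhen_cc_deriv _ i2, ← hc,
            inv_mul_cancel₀ h1, sub_self]
        · refine Dvd.dvd.mul_left ?_ _
          have e2 : (PowerSeries.X : PowerSeries K) ^ (m + 1 + 1) ∣ (PowerSeries.X ^ (m + 1)) ^ 2 := by
            rw [← pow_mul]
            exact pow_dvd_pow _ (by omega)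
          exact e2.trans (pow_dvd_pow_of_dvd i3 2)
  -- the coefficients are stationary
  have hstep : ∀ m j, j ≤ m → PowerSeries.coeff j (xs (m + 1)) = PowerSeries.coeff j (xs m) := by
    intro m j hj
    have h3 : (PowerSeries.X : PowerSeries K) ^ (m + 1) ∣ PowerSeries.C c⁻¹ * G.eval (xs m) :=
      Dvd.dvd.mul_left (key m).2.2 _
    rw [PowerSeries.X_pow_dvd_iff] at h3
    rw [hxs, map_sub, h3 j (by omega), sub_zero]
  have hst : ∀ j m, j ≤ m → PowerSeries.coeff j (xs m) = PowerSeries.coeff j (xs j) := by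
    intro j m hm
    induction m, hm using Nat.le_induction with
    | base => rfl
    | succ m hm ih => rw [hstep m j hm, ih]
  set x : PowerSeries K := PowerSeries.mk fun j => PowerSeries.coeff j (xs j) with hx
  have hxc : ∀ j, PowerSeries.coeff j x = PowerSeries.coeff j (xs j) := fun j => PowerSeries.coeff_mk _ _
  have hdvd : ∀ m, (PowerSeries.X : PowerSeries K) ^ (m + 1) ∣ x - xs m := by
    intro m
    rw [PowerSeries.X_pow_dvd_iff]
    intro j hj
    rw [map_sub, hxc, hst j m (by omega), sub_self]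
  refine ⟨x, fun j => ?_, ?_, ?_, ?_⟩
  · rw [hxc]
    exact (key j).1 j
  · rw [← PowerSeries.coeff_zero_eq_constantCoeff_apply, hxc, hx0, map_zero]
  · ext m
    have h3 : (PowerSeries.X : PowerSeries K) ^ (m + 1) ∣ G.eval x := by
      have h4 := (hdvd m).trans (Polynomial.sub_dvd_eval_sub x (xs m) G)
      have h5 := dvd_add h4 (key m).2.2
      rwa [sub_add_cancel] at h5
    rw [PowerSeries.X_pow_dvd_iff] at h3
    rw [h3 m (Nat.lt_succ_self m), map_zero]
  · have e3 : xs 1 = xs 0 - PowerSeries.C c⁻¹ * G.eval (xs 0) := hxs 0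
    rw [hxc, e3, hx0, ← Polynomial.coeff_zero_eq_eval_zero, zero_sub, map_neg, PowerSeries.coeff_C_mul]

private theorem xhen_part2 {K : Type} [Field K] (G : Polynomial (PowerSeries K)) (x y : PowerSeries K)
    (h : PowerSeries.constantCoeff x = PowerSeries.constantCoeff y) (hx : G.eval x = 0) (hy : G.eval y = 0)
    (hd : PowerSeries.constantCoeff (G.derivative.eval x) ≠ 0) : x = y := by
  obtain ⟨κ, hκ⟩ := Polynomial.binomExpansion G x (y - x)
  rw [add_sub_cancel, hy, hx] at hκ
  have h1 : (y - x) * (G.derivative.eval x + κ * (y - x)) = 0 := by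
    rw [hκ]
    ring
  rcases mul_eq_zero.1 h1 with h2 | h2
  · exact (sub_eq_zero.1 h2).symm
  · exfalso
    have h3 := congrArg (PowerSeries.constantCoeff (R := K)) h2
    rw [map_add, map_mul, map_sub, h, sub_self, mul_zero, add_zero, map_zero] at h3
    exact hd h3

theorem tHen : HenStmt := by
  intro K _
  refine ⟨fun A G hG h0 h1 h2 => xhen_part1 A G hG h0 h1 h2, fun G x y h hx hy hd => xhen_part2 G x y h hx hy hd, ?_⟩
  intro G a h0 h1
  have e0 : (Polynomial.taylor (PowerSeries.C a) G).coeff 0 = G.eval (PowerSeries.C a) := Polynomial.taylor_coeff_zero _ _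
  have e1 : (Polynomial.taylor (PowerSeries.C a) G).coeff 1 = G.derivative.eval (PowerSeries.C a) :=
    Polynomial.taylor_coeff_one _ _
  obtain ⟨x, -, hx0, hx, -⟩ := xhen_part1 (⊤ : Subring K) (Polynomial.taylor (PowerSeries.C a) G)
    (fun i n => Subring.mem_top _) (by rw [e0]; exact h0) (by rw [e1]; exact h1) (Subring.mem_top _)
  refine ⟨x + PowerSeries.C a, ?_, ?_⟩
  · rw [map_add, hx0, PowerSeries.constantCoeff_C, zero_add]
  · rwa [Polynomial.taylor_eval] at hx

end Pool.Agent.Lib.MP_4318ff_ag
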