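import Pool.Agent.Lib.MP_4318ff_ag.Spec.X1
import Pool.Agent.Lib.MP_4318ff_ag.X.Pcs

/-!
# MP_4318ff_ag, module X/Ho: `H⁰(P², O(-1)) = 0`
-/

set_option autoImplicit false

namespace Pool.Agent.Lib.MP_4318ff_ag

open scoped LinearAlgebra.Projectivization

section

variable {k : Type} [Field k]

theorem xho_li1 : LinearIndependent k
    ![(![1, 0, 0] : Fin 3 → k), ![0, 1, 0], ![0, 0, 1]] := by
  rw [Fintype.linearIndependent_iff]
  intro g hg i
  rw [Fin.sum_univ_three] at hg
  have h0 := congrFun hg 0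
  have h1 := congrFun hg 1
  have h2 := congrFun hg 2
  fin_cases i
  · simpa using h0
  · simpa using h1
  · simpa using h2

theorem xho_li2 : LinearIndependent k
    ![(![0, 1, 0] : Fin 3 → k), ![1, 0, 0], ![0, 0, 1]] := by
  rw [Fintype.linearIndependent_iff]
  intro g hg i
  rw [Fin.sum_univ_three] at hg
  have h0 := congrFun hg 0
  have h1 := congrFun hg 1
  have h2 := congrFun hg 2
  fin_cases i
  · simpa using h1
  · simpa using h0
  · simpa using h2

end

/-- `H⁰(P², O(-1)) = 0`. -/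
theorem tHo (h1 : EvStmt) (h2 : CoordStmt) (_ : CurveStmt) (h4 : LocStmt) (h5 : HartAStmt)
    (h6 : OrdStmt) : HoStmt := by
  intro k _ f ℓ hℓ hf
  set b : Fin 3 → k := ![1, 0, 0] with hb
  set c : Fin 3 → k := ![0, 1, 0] with hc
  set d : Fin 3 → k := ![0, 0, 1] with hd
  have li1 : LinearIndependent k ![b, c, d] := xho_li1
  have li2 : LinearIndependent k ![c, b, d] := xho_li2
  have hb0 : b ≠ 0 := li1.ne_zero 0
  have hc0 : c ≠ 0 := li2.ne_zero 0
  have eb0 : ev b ≠ 0 := fun h => hb0 (((h1 k).2.2 b).1 h)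
  have ec0 : ev c ≠ 0 := fun h => hc0 (((h1 k).2.2 c).1 h)
  have el0 : ev ℓ ≠ 0 := fun h => hℓ (((h1 k).2.2 ℓ).1 h)
  obtain ⟨h, hh⟩ := h5 k b c d li1 (f * (ev b / ev ℓ)) fun O hO hu => hf O hO b hu
  set z : F k := ev c / ev b with hz
  set w : F k := ev d / ev b with hw
  have e1 : 1 / z = ev b / ev c := by rw [hz, one_div_div]
  have e2 : w / z = ev d / ev c := by
    rw [hw, hz, div_div_div_cancel_right₀ eb0]
  have co1 : IsCoord z w := (h2 k b c d li1).1
  have co2 : IsCoord (1 / z) (w / z) := by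
    rw [e1, e2]
    exact (h2 k c b d li2).1
  have hirr : Irreducible (MvPolynomial.X 0 : MvPolynomial (Fin 2) k) :=
    MvPolynomial.X_prime.irreducible
  obtain ⟨O, hO⟩ := (h4 k (1 / z) (w / z) co2 _ hirr).1
  have hO' : IsLoc (ev b / ev c) (ev d / ev c) (MvPolynomial.X 0) O := by
    rw [← e1, ← e2]
    exact hO
  have hcurve : IsCurve O := ⟨c, b, d, MvPolynomial.X 0, li2, hO'⟩
  have hpol := ((h4 k (1 / z) (w / z) co2 _ hirr).2 O hO).1
  have hunit : UnitForm O c := by
    refine ⟨hc0, fun g => ?_⟩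
    have hg : g = g 0 • b + (g 1 • c + g 2 • d) := by
      rw [hb, hc, hd]
      ext i
      fin_cases i
      · simp
      · simp
      · simp
    have hev : ev g / ev c = cm (1 / z) (w / z)
        (MvPolynomial.C (g 0) * MvPolynomial.X 0 + (MvPolynomial.C (g 1) + MvPolynomial.C (g 2) * MvPolynomial.X 1)) := by
      have hcmp : cm (1 / z) (w / z)
          (MvPolynomial.C (g 0) * MvPolynomial.X 0 + (MvPolynomial.C (g 1) + MvPolynomial.C (g 2) * MvPolynomial.X 1)) =
          algebraMap k (F k) (g 0) * (1 / z) + (algebraMap k (F k) (g 1) + algebraMap k (F k) (g 2) * (w / z)) := by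
        unfold cm
        rw [map_add, map_add, map_mul, map_mul, MvPolynomial.aeval_C, MvPolynomial.aeval_C, MvPolynomial.aeval_C,
          MvPolynomial.aeval_X, MvPolynomial.aeval_X]
        rfl
      rw [hcmp, e1, e2]
      have hE : ev g = algebraMap k (F k) (g 0) * ev b + (algebraMap k (F k) (g 1) * ev c +
          algebraMap k (F k) (g 2) * ev d) := by
        conv_lhs => rw [hg]
        rw [(h1 k).1, (h1 k).1, (h1 k).2.1, (h1 k).2.1, (h1 k).2.1]
      rw [hE]
      field_simp
    rw [hev]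
    exact hpol _
  have hfO := hf O hcurve c hunit
  have hcalc : f * (ev c / ev ℓ) = cm z w (h * MvPolynomial.X 0) := by
    have hX : cm z w (MvPolynomial.X 0) = z := by
      unfold cm
      rw [MvPolynomial.aeval_X]
      rfl
    rw [map_mul, ← hh, hX, hz]
    field_simp
  have key := ((h6 k z w (h * MvPolynomial.X 0) 0 co1).2 O co2 hO).1 (by
    rw [pow_zero, div_one, ← hcalc]
    exact hfO)
  have hzero : h = 0 := by
    by_contra hne
    obtain ⟨m, hm⟩ := MvPolynomial.ne_zero_iff.1 hne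
    have hm' : m + Finsupp.single 0 1 ∈ (h * MvPolynomial.X (0 : Fin 2)).support := by
      rw [MvPolynomial.mem_support_iff, MvPolynomial.coeff_mul_X]
      exact hm
    have h7 := key _ hm'
    rw [Finsupp.add_apply, Finsupp.single_eq_same] at h7
    omega
  rw [hzero] at hh
  have h8 : cm z w 0 = 0 := map_zero _
  rw [h8] at hh
  rcases mul_eq_zero.1 hh with h9 | h9
  · exact h9
  · exact absurd h9 (div_ne_zero eb0 el0)

end Pool.Agent.Lib.MP_4318ff_ag
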