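import Pool.Agent.Lib.MP_4318ff_ag.Spec.X1
import Pool.Agent.Lib.MP_4318ff_ag.X.Pcs

set_option autoImplicit false

namespace Pool.Agent.Lib.MP_4318ff_ag

open Polynomial in
/-- The splitting field of the product of the polynomials `X ^ n - a i`. -/
private theorem xkum_field (F' : Type) [Field F'] [CharZero F'] (ι : Type) [Fintype ι] (a : ι → F') (n : ℕ)
    (hn : 0 < n) : ∃ (K : Type) (_ : Field K) (_ : Algebra F' K), FiniteDimensional F' K ∧ IsGalois F' K ∧
      (∀ i, ∃ u : K, u ^ n = algebraMap F' K (a i)) ∧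
      ∀ W : Subfield K, (∀ x, algebraMap F' K x ∈ W) → (∀ (u : K) (i : ι), u ^ n = algebraMap F' K (a i) → u ∈ W) →
        W = ⊤ := by
  classical
  let P : F'[X] := ∏ i, (X ^ n - C (a i))
  have hP : P ≠ 0 := Finset.prod_ne_zero_iff.2 fun i _ => X_pow_sub_C_ne_zero hn (a i)
  haveI hfin : FiniteDimensional F' P.SplittingField := inferInstance
  haveI hnorm : Normal F' P.SplittingField := Normal.of_isSplittingField P
  haveI hsep : Algebra.IsSeparable F' P.SplittingField := inferInstance
  refine ⟨P.SplittingField, inferInstance, inferInstance, hfin, IsGalois.mk, fun i => ?_, fun W hW hr => ?_⟩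
  · have h1 : (P.map (algebraMap F' P.SplittingField)).Splits := SplittingField.splits P
    have h2 : (X ^ n - C (a i)) ∣ P := Finset.dvd_prod_of_mem _ (Finset.mem_univ i)
    have h3 : ((X ^ n - C (a i)).map (algebraMap F' P.SplittingField)).Splits :=
      h1.of_dvd (by rwa [Ne, Polynomial.map_eq_zero]) (Polynomial.map_dvd _ h2)
    obtain ⟨x, hx⟩ := h3.exists_eval_eq_zero (by
      rw [degree_map, degree_X_pow_sub_C hn]
      exact_mod_cast hn.ne')
    refine ⟨x, ?_⟩
    rw [eval_map, eval₂_sub, eval₂_X_pow, eval₂_C, sub_eq_zero] at hx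
    exact hx
  · let W' : Subalgebra F' P.SplittingField := { W.toSubring with algebraMap_mem' := hW }
    have h1 : Algebra.adjoin F' (P.rootSet P.SplittingField) ≤ W' := by
      rw [Algebra.adjoin_le_iff]
      intro x hx
      rw [mem_rootSet] at hx
      have h2 := hx.2
      rw [map_prod, Finset.prod_eq_zero_iff] at h2
      obtain ⟨i, _, hi⟩ := h2
      refine hr x i ?_
      rw [map_sub, map_pow, aeval_X, aeval_C, sub_eq_zero] at hi
      exact hi
    rw [SplittingField.adjoin_rootSet] at h1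
    rw [eq_top_iff]
    intro x _
    exact h1 (Algebra.mem_top : x ∈ (⊤ : Subalgebra F' P.SplittingField))

theorem tKum : KumXStmt := by
  intro k _ _ _ r n C hn
  haveI : CharZero (F k) := charZero_of_injective_algebraMap (algebraMap k (F k)).injective
  obtain ⟨K, i1, i2, hfin, hgal, hroot, hW⟩ := xkum_field (F k) (Fin r × Fin r)
    (fun p => ev (C.ℓ p.1) / ev (C.ℓ p.2)) n hn
  letI i3 : Algebra k K := ((algebraMap (F k) K).comp (algebraMap k (F k))).toAlgebra
  haveI i4 : IsScalarTower k (F k) K := IsScalarTower.of_algebraMap_eq fun x => rfl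
  have hK : Kummer K C n = ⊤ := by
    refine hW _ (fun x => ?_) (fun u p hu => ?_)
    · exact Subfield.subset_closure (Or.inl ⟨x, rfl⟩)
    · exact Subfield.subset_closure (Or.inr ⟨p.1, p.2, hu⟩)
  refine ⟨K, i1, i2, i3, i4, hfin, hgal, hK, ⟨hfin, fun i j => hroot (i, j), fun u => ?_⟩⟩
  refine RingHom.Etale.of_bijective ⟨Subring.inclusion_injective _, fun x => ?_⟩
  refine ⟨⟨x.1, x.2, ?_⟩, rfl⟩
  rw [hK]
  exact Subfield.mem_top _

end Pool.Agent.Lib.MP_4318ff_ag
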