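import Pool.Agent.Lib.MP_4318ff_ag.Spec.X1
import Pool.Agent.Lib.MP_4318ff_ag.X.Pcs

/-!
# Lifts of the inclusion `K → K[[X]]` with prescribed values on the coordinates
-/

set_option autoImplicit false

namespace Pool.Agent.Lib.MP_4318ff_ag

theorem xlft_ext {F₀ K S : Type} [Field F₀] [Field K] [CommRing S] [Algebra F₀ K] [Algebra F₀ S]
    [FiniteDimensional F₀ K] [Algebra.IsSeparable F₀ K] (cc : S →ₐ[F₀] K)
    (hens : ∀ (m : Polynomial F₀) (a : K), Polynomial.aeval a m = 0 →
      Polynomial.aeval a (Polynomial.derivative m) ≠ 0 → ∃ x : S, cc x = a ∧ Polynomial.aeval x m = 0) :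
    ∃ g : K →ₐ[F₀] S, ∀ x, cc (g x) = x := by
  let pb := Field.powerBasisOfFiniteOfSeparable F₀ K
  have hs : (minpoly F₀ pb.gen).Separable := Algebra.IsSeparable.isSeparable F₀ pb.gen
  obtain ⟨x, hx, hx0⟩ := hens (minpoly F₀ pb.gen) pb.gen (minpoly.aeval _ _)
    (hs.aeval_derivative_ne_zero (minpoly.aeval _ _))
  refine ⟨pb.lift x hx0, fun y => ?_⟩
  have h : cc.comp (pb.lift x hx0) = AlgHom.id F₀ K := by
    apply pb.algHom_ext
    rw [AlgHom.comp_apply, pb.lift_gen, hx]
    rfl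
  exact DFunLike.congr_fun h y

theorem xlft_base {k : Type} [Field k] {K : Type} [Field K] [Algebra (F k) K] [Algebra k K]
    [IsScalarTower k (F k) K] (z w : F k) (z' w' : PowerSeries K) (hzw : IsCoord z w)
    (hz : PowerSeries.constantCoeff z' = algebraMap (F k) K z)
    (hw : PowerSeries.constantCoeff w' = algebraMap (F k) K w) :
    ∃ ψ : F k →+* PowerSeries K, (∀ f, PowerSeries.constantCoeff (ψ f) = algebraMap (F k) K f) ∧ ψ z = z' ∧
      ψ w = w' ∧ ∀ a : k, ψ (algebraMap k (F k) a) = algebraMap k (PowerSeries K) a := by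
  let ψ₀ : MvPolynomial (Fin 2) k →ₐ[k] PowerSeries K := MvPolynomial.aeval ![z', w']
  -- values on the coordinates
  have hψX0 : ψ₀ (MvPolynomial.X 0) = z' := by
    change MvPolynomial.aeval ![z', w'] (MvPolynomial.X 0) = z'
    rw [MvPolynomial.aeval_X]
    rfl
  have hψX1 : ψ₀ (MvPolynomial.X 1) = w' := by
    change MvPolynomial.aeval ![z', w'] (MvPolynomial.X 1) = w'
    rw [MvPolynomial.aeval_X]
    rfl
  have hcX0 : cm z w (MvPolynomial.X 0) = z := by
    change MvPolynomial.aeval ![z, w] (MvPolynomial.X 0) = z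
    rw [MvPolynomial.aeval_X]
    rfl
  have hcX1 : cm z w (MvPolynomial.X 1) = w := by
    change MvPolynomial.aeval ![z, w] (MvPolynomial.X 1) = w
    rw [MvPolynomial.aeval_X]
    rfl
  have hψC : ∀ a : k, ψ₀ (MvPolynomial.C a) = algebraMap k (PowerSeries K) a := fun a => by
    change MvPolynomial.aeval ![z', w'] (MvPolynomial.C a) = _
    rw [MvPolynomial.aeval_C]
  have hcC : ∀ a : k, cm z w (MvPolynomial.C a) = algebraMap k (F k) a := fun a => by
    change MvPolynomial.aeval ![z, w] (MvPolynomial.C a) = _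
    rw [MvPolynomial.aeval_C]
  have hcomp : ((PowerSeries.constantCoeff : PowerSeries K →+* K).comp (ψ₀ : MvPolynomial (Fin 2) k →+* PowerSeries K)) =
      (algebraMap (F k) K).comp (cm z w : MvPolynomial (Fin 2) k →+* F k) := by
    apply MvPolynomial.ringHom_ext
    · intro a
      change PowerSeries.constantCoeff (ψ₀ (MvPolynomial.C a)) = algebraMap (F k) K (cm z w (MvPolynomial.C a))
      rw [hψC, hcC, ← IsScalarTower.algebraMap_apply, PowerSeries.algebraMap_apply, PowerSeries.constantCoeff_C]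
    · intro i
      change PowerSeries.constantCoeff (ψ₀ (MvPolynomial.X i)) = algebraMap (F k) K (cm z w (MvPolynomial.X i))
      fin_cases i
      · change PowerSeries.constantCoeff (ψ₀ (MvPolynomial.X 0)) = algebraMap (F k) K (cm z w (MvPolynomial.X 0))
        rw [hψX0, hcX0, hz]
      · change PowerSeries.constantCoeff (ψ₀ (MvPolynomial.X 1)) = algebraMap (F k) K (cm z w (MvPolynomial.X 1))
        rw [hψX1, hcX1, hw]
  have hcc : ∀ h, PowerSeries.constantCoeff (ψ₀ h) = algebraMap (F k) K (cm z w h) := fun h =>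
    DFunLike.congr_fun hcomp h
  have hcne : ∀ h, h ≠ 0 → cm z w h ≠ 0 := fun h hh h0 => hh (hzw.1 (by rw [h0, map_zero]))
  have hunit : ∀ y : nonZeroDivisors (MvPolynomial (Fin 2) k),
      IsUnit ((ψ₀ : MvPolynomial (Fin 2) k →+* PowerSeries K) y) := by
    intro y
    have hy : (y : MvPolynomial (Fin 2) k) ≠ 0 := nonZeroDivisors.ne_zero y.2
    rw [PowerSeries.isUnit_iff_constantCoeff]
    change IsUnit (PowerSeries.constantCoeff (ψ₀ (y : MvPolynomial (Fin 2) k)))
    rw [hcc, isUnit_iff_ne_zero]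
    exact (map_ne_zero _).2 (hcne _ hy)
  have hunit2 : ∀ y : nonZeroDivisors (MvPolynomial (Fin 2) k),
      IsUnit ((cm z w : MvPolynomial (Fin 2) k →+* F k) y) := by
    intro y
    have hy : (y : MvPolynomial (Fin 2) k) ≠ 0 := nonZeroDivisors.ne_zero y.2
    exact isUnit_iff_ne_zero.2 (hcne _ hy)
  let ψ₁ : F k →+* PowerSeries K := IsLocalization.lift hunit
  let τ : F k →+* F k := IsLocalization.lift hunit2
  have hψ₁ : ∀ h, ψ₁ (algebraMap (MvPolynomial (Fin 2) k) (F k) h) = ψ₀ h := fun h => IsLocalization.lift_eq hunit h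
  have hτ : ∀ h, τ (algebraMap (MvPolynomial (Fin 2) k) (F k) h) = cm z w h := fun h => IsLocalization.lift_eq hunit2 h
  have hbij : Function.Bijective τ := by
    refine ⟨τ.injective, fun f => ?_⟩
    obtain ⟨h₁, h₂, _, hf⟩ := hzw.2 f
    refine ⟨algebraMap (MvPolynomial (Fin 2) k) (F k) h₁ / algebraMap (MvPolynomial (Fin 2) k) (F k) h₂, ?_⟩
    rw [map_div₀, hτ, hτ, hf]
  let e : F k ≃+* F k := RingEquiv.ofBijective τ hbij
  have he : ∀ h, e.symm (cm z w h) = algebraMap (MvPolynomial (Fin 2) k) (F k) h := fun h => by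
    rw [RingEquiv.symm_apply_eq]
    exact (hτ h).symm
  let ψ : F k →+* PowerSeries K := ψ₁.comp (e.symm : F k →+* F k)
  have hψ : ∀ h, ψ (cm z w h) = ψ₀ h := fun h => by
    change ψ₁ (e.symm (cm z w h)) = ψ₀ h
    rw [he, hψ₁]
  refine ⟨ψ, fun f => ?_, ?_, ?_, fun a => ?_⟩
  · obtain ⟨h₁, h₂, hh, hf⟩ := hzw.2 f
    have h1 : f * cm z w h₂ = cm z w h₁ := by
      rw [hf, div_mul_cancel₀ _ (hcne _ hh)]
    have h2 : PowerSeries.constantCoeff (ψ f) * algebraMap (F k) K (cm z w h₂) = algebraMap (F k) K (cm z w h₁) := by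
      rw [← hcc, ← hcc, ← hψ, ← hψ, ← map_mul, ← map_mul, h1]
    have h3 : algebraMap (F k) K (cm z w h₂) ≠ 0 := (map_ne_zero _).2 (hcne _ hh)
    apply mul_right_cancel₀ h3
    rw [h2, ← map_mul, h1]
  · rw [← hψX0, ← hψ, hcX0]
  · rw [← hψX1, ← hψ, hcX1]
  · rw [← hcC, hψ, hψC]

theorem tLft (h1 : HenStmt) : LftStmt := by
  intro k _ _ K _ _ _ _ _ z w z' w' hzw hz hw
  obtain ⟨ψ, hψc, hψz, hψw, hψk⟩ := xlft_base z w z' w' hzw hz hw
  haveI : CharZero (F k) := charZero_of_injective_algebraMap (algebraMap k (F k)).injective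
  letI ALG : Algebra (F k) (PowerSeries K) := ψ.toAlgebra
  let cc : @AlgHom (F k) (PowerSeries K) K _ _ _ ALG _ :=
    @AlgHom.mk (F k) (PowerSeries K) K _ _ _ ALG _ (PowerSeries.constantCoeff : PowerSeries K →+* K) (fun f => hψc f)
  obtain ⟨g, hg⟩ := @xlft_ext (F k) K (PowerSeries K) _ _ _ _ ALG _ _ cc (by
    intro m a h0 h2
    have hcomp : (PowerSeries.constantCoeff : PowerSeries K →+* K).comp ψ = algebraMap (F k) K := RingHom.ext hψc
    have hev : ∀ q : Polynomial (F k), PowerSeries.constantCoeff ((q.map ψ).eval (PowerSeries.C a)) =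
        Polynomial.aeval a q := by
      intro q
      rw [Polynomial.eval_map, Polynomial.hom_eval₂, hcomp, PowerSeries.constantCoeff_C, Polynomial.aeval_def]
    obtain ⟨x, hx, hx0⟩ := (h1 K).2.2 (m.map ψ) a (by rw [hev, h0]) (by
      rw [Polynomial.derivative_map, hev]
      exact h2)
    refine ⟨x, hx, ?_⟩
    rw [Polynomial.eval_map] at hx0
    exact hx0)
  have hgφ : ∀ f : F k, g (algebraMap (F k) K f) = ψ f := fun f => g.commutes f
  refine ⟨{ toRingHom := (g : K →+* PowerSeries K), commutes' := fun a => ?_ }, hg, ?_, ?_⟩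
  · change g (algebraMap k K a) = algebraMap k (PowerSeries K) a
    rw [IsScalarTower.algebraMap_apply k (F k) K, hgφ, hψk]
  · change g (algebraMap (F k) K z) = z'
    rw [hgφ, hψz]
  · change g (algebraMap (F k) K w) = w'
    rw [hgφ, hψw]

end Pool.Agent.Lib.MP_4318ff_ag
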