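import Pool.Agent.Lib.MP_4318ff_ag.Spec.X1
import Pool.Agent.Lib.MP_4318ff_ag.X.Pcs
import Pool.Agent.Lib.MP_4318ff_ag.X.Non
import Pool.Agent.Lib.MP_4318ff_ag.A.G1
import Pool.Agent.Lib.MP_4318ff_ag.A.G2
import Pool.Agent.Lib.MP_4318ff_ag.A.RegLin
import Pool.Agent.Lib.MP_4318ff_ag.A.Desc
import Pool.Agent.Lib.MP_4318ff_ag.B.HartUV

/-!
# X/Lif: lifts of the elements of `ic K O` which are regular in all trivialisations
-/

set_option autoImplicit false

namespace Pool.Agent.Lib.MP_4318ff_ag

open scoped LinearAlgebra.Projectivization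

theorem xlif_unit {K : Type} [Field K] (s : PowerSeries K) (h : PowerSeries.constantCoeff s ≠ 0) :
    ∃ U : (PowerSeries K)ˣ, (U : PowerSeries K) = s ∧ ((U⁻¹ : (PowerSeries K)ˣ) : PowerSeries K) = s⁻¹ :=
  ⟨⟨s, s⁻¹, mul_inv_ps h, inv_mul_ps h⟩, rfl, rfl⟩

theorem xlif_map_prod {R S : Type} [CommRing R] [CommRing S] {r : ℕ} (f : R →* S) (U : Fin r → Rˣ) (e : Fin r → ℤ) :
    f ((∏ i, U i ^ e i : Rˣ) : R) = ((∏ i, (Units.map f (U i)) ^ e i : Sˣ) : S) := by
  rw [← Units.coe_map, map_prod]
  congr 1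
  exact Finset.prod_congr rfl fun i _ => map_zpow _ _ _

theorem xlif_val_prod {K : Type} [Field K] {r : ℕ} (U : Fin r → Kˣ) (e : Fin r → ℤ) :
    ((∏ i, U i ^ e i : Kˣ) : K) = ∏ i, (U i : K) ^ e i := by
  rw [Units.coe_prod]
  exact Finset.prod_congr rfl fun i _ => Units.val_zpow_eq_zpow_val _ _

/-- Lifts of monomials. -/
theorem xlif_mono {k : Type} [Field k] {r : ℕ} {C : Config k r} (Z : XData C) (n : ℕ) {K : Type} [Field K]
    [Algebra (F k) K] [Algebra k K] [IsScalarTower k (F k) K] (v : Fin r → K) (Vp : PowerSeries K) (hn : 0 < n)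
    (hR : XRoots Z n v) (hB : XBase Z n v Vp) (O : Subalgebra k (F k)) (e : Fin r → ℤ) :
    ∃ V : PowerSeries K, PowerSeries.constantCoeff V = ∏ i, v i ^ e i ∧
      ∀ u x (θ : PowerSeries K ≃ₐ[k] PowerSeries K), XTheta Z n v Vp u x θ → u.R ≤ O →
        ∃ E ∈ pcs (MP_4318ff_ag.ic K O), θ V = PowerSeries.C (∏ i, v i ^ e i) * E := by
  classical
  have hne := fun i => xnon_ne Z n hn (xnon_l_ne Z) hR i
  have hbase : ∀ i, ∃ U : (PowerSeries K)ˣ, (U : PowerSeries K) = if i = Z.p then Vp else PowerSeries.C (v i) := by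
    intro i
    obtain ⟨U, hU, -⟩ := xlif_unit (if i = Z.p then Vp else PowerSeries.C (v i)) (by
      split_ifs with h
      · rw [hB.v0]
        exact hne _
      · rw [PowerSeries.constantCoeff_C]
        exact hne _)
    exact ⟨U, hU⟩
  choose U hU using hbase
  refine ⟨((∏ i, U i ^ e i : (PowerSeries K)ˣ) : PowerSeries K), ?_, ?_⟩
  · have h1 := xlif_map_prod (PowerSeries.constantCoeff (R := K)).toMonoidHom U e
    change PowerSeries.constantCoeff ((∏ i, U i ^ e i : (PowerSeries K)ˣ) : PowerSeries K) = _ at h1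
    rw [h1, xlif_val_prod]
    refine Finset.prod_congr rfl fun i _ => ?_
    congr 1
    rw [Units.coe_map]
    change PowerSeries.constantCoeff (U i : PowerSeries K) = v i
    rw [hU]
    split_ifs with h
    · rw [hB.v0, h]
    · rw [PowerSeries.constantCoeff_C]
  · intro u x θ hT hu
    have hle : u.A K ≤ ic K O := ic_mono _ hu
    have hx : x ∈ pcs (ic K O) := pcs_mono hle hT.sol.mem
    have hk : ∀ a : k, algebraMap k K a ∈ ic K O := fun a => by
      rw [IsScalarTower.algebraMap_apply k (F k) K]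
      exact algebraMap_mem_ic _ (O.algebraMap_mem _)
    have hA : ∀ i, ∃ A : (PowerSeries K)ˣ, A = Units.map (PowerSeries.C (R := K)).toMonoidHom (Units.mk0 (v i) (hne i)) :=
      fun i => ⟨_, rfl⟩
    choose A hA using hA
    have hB1 : ∀ i, ∃ B : (PowerSeries K)ˣ, (B : PowerSeries K) = 1 + PowerSeries.C (algebraMap k K (Z.al u i)) * x ∧
        B ∈ (pcs (ic K O)).toSubmonoid.units := by
      intro i
      have h1 : PowerSeries.constantCoeff (1 + PowerSeries.C (algebraMap k K (Z.al u i)) * x) = 1 := by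
        rw [map_add, map_one, map_mul, hT.sol.x0, mul_zero, add_zero]
      obtain ⟨B, hB, hB'⟩ := xlif_unit (1 + PowerSeries.C (algebraMap k K (Z.al u i)) * x) (by
        rw [h1]
        exact one_ne_zero)
      have h2 : 1 + PowerSeries.C (algebraMap k K (Z.al u i)) * x ∈ pcs (ic K O) :=
        (pcs _).add_mem (pcs _).one_mem ((pcs _).mul_mem (C_mem_pcs.2 (hk _)) hx)
      refine ⟨B, hB, ?_⟩
      rw [Submonoid.mem_units_iff]
      refine ⟨?_, ?_⟩
      · change (B : PowerSeries K) ∈ pcs (ic K O)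
        rw [hB]
        exact h2
      · change ((B⁻¹ : (PowerSeries K)ˣ) : PowerSeries K) ∈ pcs (ic K O)
        rw [hB']
        refine inv_mem_pcs h2 ?_
        rw [h1, inv_one]
        exact (ic K O).one_mem
    choose B hB1 hB2 using hB1
    have hAB : ∀ i, Units.map (θ : PowerSeries K →* PowerSeries K) (U i) = A i * B i := by
      intro i
      ext1
      rw [Units.coe_map]
      change θ (U i : PowerSeries K) = _
      rw [Units.val_mul, hB1, hA, Units.coe_map]
      change θ (U i : PowerSeries K) = PowerSeries.C (v i) * _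
      rw [hU]
      split_ifs with h
      · rw [h, hT.valp]
        rfl
      · rw [hT.val i h]
        rfl
    refine ⟨((∏ i, B i ^ e i : (PowerSeries K)ˣ) : PowerSeries K), ?_, ?_⟩
    · have h1 : ∏ i, B i ^ e i ∈ (pcs (ic K O)).toSubmonoid.units :=
        Subgroup.prod_mem _ fun i _ => Subgroup.zpow_mem _ (hB2 i) _
      rw [Submonoid.mem_units_iff] at h1
      exact h1.1
    · have h1 := xlif_map_prod (θ : PowerSeries K →* PowerSeries K) U e
      change θ ((∏ i, U i ^ e i : (PowerSeries K)ˣ) : PowerSeries K) = _ at h1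
      rw [h1]
      have h2 : ∏ i, (Units.map (θ : PowerSeries K →* PowerSeries K) (U i)) ^ e i =
          (∏ i, A i ^ e i) * ∏ i, B i ^ e i := by
        rw [← Finset.prod_mul_distrib]
        refine Finset.prod_congr rfl fun i _ => ?_
        rw [hAB, mul_zpow]
      rw [h2, Units.val_mul]
      congr 1
      have h3 := xlif_map_prod (PowerSeries.C (R := K)).toMonoidHom (fun i => Units.mk0 (v i) (hne i)) e
      have h4 : ((∏ i, A i ^ e i : (PowerSeries K)ˣ) : PowerSeries K) =
          ((∏ i, (Units.map (PowerSeries.C (R := K)).toMonoidHom (Units.mk0 (v i) (hne i))) ^ e i :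
            (PowerSeries K)ˣ) : PowerSeries K) := by
        congr 1
        exact Finset.prod_congr rfl fun i _ => by rw [hA]
      rw [h4, ← h3, xlif_val_prod]
      rfl

/-- `n`-th roots of unity are constants. -/
theorem xlif_const {k : Type} [Field k] [IsAlgClosed k] {K : Type} [Field K] [Algebra k K] {n : ℕ} (hn : 0 < n) (ζ : K)
    (h : ζ ^ n = 1) : ∃ c : k, algebraMap k K c = ζ := by
  have hint : IsIntegral k ζ := by
    refine IsIntegral.of_pow hn ?_
    rw [h]
    exact isIntegral_one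
  exact minpoly.mem_range_of_degree_eq_one k ζ (IsAlgClosed.degree_eq_one_of_irreducible k (minpoly.irreducible hint))

/-- The monomials in the roots. -/
theorem xlif_pow {k : Type} [Field k] {r : ℕ} {C : Config k r} (Z : XData C) (n : ℕ) {K : Type} [Field K]
    [Algebra (F k) K] (v : Fin r → K) (hR : XRoots Z n v) (e : Fin r → ℤ) (he : ∑ i, e i = 0) :
    (∏ i, v i ^ e i) ^ n = algebraMap (F k) K (∏ i, ev (C.ℓ i) ^ e i) := by
  have h1 : (∏ i, v i ^ e i) ^ n = ∏ i, (v i ^ n) ^ e i := by
    rw [← Finset.prod_pow]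
    refine Finset.prod_congr rfl fun i _ => ?_
    rw [← zpow_natCast, ← zpow_mul, mul_comm, zpow_mul, zpow_natCast]
  have h2 : ∏ i, (v i ^ n) ^ e i = algebraMap (F k) K (∏ i, (ev (C.ℓ i) / ev (C.ℓ Z.o)) ^ e i) := by
    rw [map_prod]
    refine Finset.prod_congr rfl fun i _ => ?_
    rw [hR.vn, map_zpow₀]
  rw [h1, h2]
  congr 1
  have hoo : ev (C.ℓ Z.o) ≠ 0 := ev_ne_zero (xnon_o_ne Z)
  have h3 : ∏ i, (ev (C.ℓ i) / ev (C.ℓ Z.o)) ^ e i = (∏ i, ev (C.ℓ i) ^ e i) / ∏ i, ev (C.ℓ Z.o) ^ e i := by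
    rw [← Finset.prod_div_distrib]
    exact Finset.prod_congr rfl fun i _ => div_zpow _ _ _
  have h4 : ∏ i, ev (C.ℓ Z.o) ^ e i = 1 := by
    have h5 : ∀ s : Finset (Fin r), ∏ i ∈ s, ev (C.ℓ Z.o) ^ e i = ev (C.ℓ Z.o) ^ ∑ i ∈ s, e i := by
      classical
      intro s
      induction s using Finset.induction_on with
      | empty => simp
      | insert a s ha ih => rw [Finset.prod_insert ha, Finset.sum_insert ha, zpow_add₀ hoo, ih]
    rw [h5, he, zpow_zero]
  rw [h3, h4, div_one]

theorem tLif (_h1 : EvStmt) (h2 : UnifStmt) (h3 : CurveStmt) (h4 : ExcStmt) (h5 : KumDecStmt) (h6 : LoFStmt) :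
    LifStmt := by
  intro k _ _ _ r n C Z K _ _ _ _ _ _ v Vp hn hR hB hKum O hO w hw
  classical
  have hne := fun i => xnon_ne Z n hn (xnon_l_ne Z) hR i
  have hroots : Roots K C n := fun i j => ⟨v i / v j, xnon_quot Z n hR i j⟩
  obtain ⟨π₀, hπ₀⟩ := hartuv_unif h3 h4 hO
  have hint := (h2 k O π₀ hπ₀).2.1
  have hk : ∀ a : k, algebraMap k K a ∈ ic K O := fun a => by
    rw [IsScalarTower.algebraMap_apply k (F k) K]
    exact algebraMap_mem_ic _ (O.algebraMap_mem _)
  -- the set of all elements which can be lifted is an additive subgroup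
  let G : AddSubgroup K :=
    { carrier := {w | ∃ z : PowerSeries K, PowerSeries.constantCoeff z = w ∧
        ∀ u x (θ : PowerSeries K ≃ₐ[k] PowerSeries K), XTheta Z n v Vp u x θ → u.R ≤ O → θ z ∈ pcs (ic K O)}
      add_mem' := by
        rintro a b ⟨z, hz, hz'⟩ ⟨y, hy, hy'⟩
        refine ⟨z + y, by rw [map_add, hz, hy], fun u x θ hT hu => ?_⟩
        rw [map_add]
        exact (pcs _).add_mem (hz' u x θ hT hu) (hy' u x θ hT hu)
      zero_mem' := ⟨0, map_zero _, fun u x θ _ _ => by rw [map_zero]; exact (pcs _).zero_mem⟩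
      neg_mem' := by
        rintro a ⟨z, hz, hz'⟩
        refine ⟨-z, by rw [map_neg, hz], fun u x θ hT hu => ?_⟩
        rw [map_neg]
        exact (pcs _).neg_mem (hz' u x θ hT hu) }
  have hcl : AddSubgroup.closure {h : K | h ∈ ic K O ∧ ∃ (c : F k) (e : Fin r → ℤ), ∑ i, e i = 0 ∧
    h ^ n = algebraMap (F k) K (c ^ n * ∏ i, ev (C.ℓ i) ^ e i)} ≤ G := by
    rw [AddSubgroup.closure_le]
    rintro h ⟨hh, c, e, he, hc⟩
    by_cases h0 : h = 0
    · rw [h0]
      exact G.zero_mem
    -- the general construction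
    have key : ∀ (ζ : k) (ε : F k) (e' : Fin r → ℤ), ε ∈ O →
        algebraMap k K ζ * ∏ i, v i ^ e' i ∈ ic K O →
        h = algebraMap k K ζ * algebraMap (F k) K ε * ∏ i, v i ^ e' i → h ∈ G := by
      intro ζ ε e' hε hζ hh'
      obtain ⟨V, hV, hV'⟩ := xlif_mono Z n v Vp hn hR hB O e'
      refine ⟨PowerSeries.C (algebraMap k K ζ) * PowerSeries.C (algebraMap (F k) K ε) * V, ?_, fun u x θ hT hu => ?_⟩
      · rw [map_mul, map_mul, PowerSeries.constantCoeff_C, PowerSeries.constantCoeff_C, hV, hh']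
      · obtain ⟨E, hE, hE'⟩ := hV' u x θ hT hu
        rw [map_mul, map_mul, hT.isDef.const, hE']
        have e1 : PowerSeries.C (algebraMap k K ζ) * θ (PowerSeries.C (algebraMap (F k) K ε)) *
            (PowerSeries.C (∏ i, v i ^ e' i) * E) =
            PowerSeries.C (algebraMap k K ζ * ∏ i, v i ^ e' i) * θ (PowerSeries.C (algebraMap (F k) K ε)) * E := by
          rw [map_mul]
          ring
        rw [e1]
        exact (pcs _).mul_mem ((pcs _).mul_mem (C_mem_pcs.2 hζ)
          (h6 k r n C Z K v Vp hR u x θ hT O hO hu ε hε)) hE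
    have hc0 : c ≠ 0 := by
      rintro rfl
      rw [zero_pow hn.ne', zero_mul, map_zero] at hc
      exact h0 (pow_eq_zero_iff hn.ne' |>.1 hc)
    have hφc : algebraMap (F k) K c ≠ 0 := by
      rw [Ne, map_eq_zero]
      exact hc0
    obtain ⟨μ, hμ⟩ : ∃ μ, μ = ∏ i, v i ^ e i := ⟨_, rfl⟩
    have hμ0 : μ ≠ 0 := by
      rw [hμ]
      exact Finset.prod_ne_zero_iff.2 fun i _ => zpow_ne_zero _ (hne i)
    have hμn : μ ^ n = algebraMap (F k) K (∏ i, ev (C.ℓ i) ^ e i) := by
      rw [hμ]
      exact xlif_pow Z n v hR e he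
    obtain ⟨ζ, hζ⟩ := xlif_const (k := k) hn (h / (algebraMap (F k) K c * μ)) (by
      rw [div_pow, mul_pow, hμn, hc, map_mul, map_pow]
      refine div_self (mul_ne_zero (pow_ne_zero _ hφc) ?_)
      rw [← hμn]
      exact pow_ne_zero _ hμ0)
    have hζh : h = algebraMap k K ζ * algebraMap (F k) K c * μ := by
      rw [hζ, mul_assoc, div_mul_cancel₀]
      exact mul_ne_zero hφc hμ0
    by_cases hall : ∀ i j, ev (C.ℓ i) / ev (C.ℓ j) ∈ O
    · -- all lines are unit forms
      have hv1 : ∀ i, v i ∈ ic K O ∧ (v i)⁻¹ ∈ ic K O := by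
        intro i
        refine ⟨reglin_root O _ (hall i Z.o) n hn _ (hR.vn i), reglin_root O _ (hall Z.o i) n hn _ ?_⟩
        rw [inv_pow, hR.vn, ← map_inv₀, inv_div]
      have hv2 : ∀ i (m : ℤ), v i ^ m ∈ ic K O := by
        intro i m
        obtain ⟨a, rfl | rfl⟩ := m.eq_nat_or_neg
        · rw [zpow_natCast]
          exact (ic K O).pow_mem (hv1 i).1 _
        · rw [zpow_neg, zpow_natCast, ← inv_pow]
          exact (ic K O).pow_mem (hv1 i).2 _
      have hμ1 : μ ∈ ic K O := by
        rw [hμ]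
        exact (ic K O).prod_mem fun i _ => hv2 i _
      have hμ2 : μ⁻¹ ∈ ic K O := by
        rw [hμ, ← Finset.prod_inv_distrib]
        refine (ic K O).prod_mem fun i _ => ?_
        rw [← zpow_neg]
        exact hv2 i _
      have hζ0 : ζ ≠ 0 := by
        rintro rfl
        rw [map_zero, zero_mul, zero_mul] at hζh
        exact h0 hζh
      have hφ : algebraMap (F k) K c = h * μ⁻¹ * algebraMap k K ζ⁻¹ := by
        rw [hζh, map_inv₀]
        have : algebraMap k K ζ ≠ 0 := by
          rw [Ne, map_eq_zero]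
          exact hζ0
        field_simp
      have hcO : c ∈ O := by
        apply hint
        rw [← isIntegral_algebraMap_iff (A := F k) (B := K) (algebraMap (F k) K).injective]
        change algebraMap (F k) K c ∈ ic K O
        rw [hφ]
        exact (ic K O).mul_mem ((ic K O).mul_mem hh hμ2) (hk _)
      rw [hμ] at hζh
      refine key ζ c e hcO ?_ hζh
      rw [← hμ]
      exact (ic K O).mul_mem (hk _) hμ1
    · -- some quotient of lines is a uniformiser
      push Not at hall
      obtain ⟨j, i, hji⟩ := hall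
      have hi0 : ev (C.ℓ i) ≠ 0 := ev_ne_zero (xnon_l_ne Z i)
      have hj0 : ev (C.ℓ j) ≠ 0 := ev_ne_zero (xnon_l_ne Z j)
      have hij : i ≠ j := by
        rintro rfl
        apply hji
        rw [div_self hi0]
        exact O.one_mem
      have hπ := desc_unif h3 h4 C O hO i j hi0 hji
      obtain ⟨m, ε, hε1, hε2, hcε⟩ := hπ.2.2 c hc0
      have hε0 : ε ≠ 0 := by
        rintro rfl
        rw [mul_zero] at hcε
        exact hc0 hcε
      have hφε : algebraMap (F k) K ε ≠ 0 := by
        rw [Ne, map_eq_zero]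
        exact hε0
      obtain ⟨e', he'⟩ : ∃ e' : Fin r → ℤ, e' = fun l => e l + (if l = i then (n : ℤ) * m else 0) -
        (if l = j then (n : ℤ) * m else 0) := ⟨_, rfl⟩
      have hprod : ∏ l, v l ^ e' l = μ * (v i / v j) ^ ((n : ℤ) * m) := by
        have h7 : ∀ l, v l ^ e' l = v l ^ e l * (if l = i then v i ^ ((n : ℤ) * m) else 1) *
            (if l = j then (v j ^ ((n : ℤ) * m))⁻¹ else 1) := by
          intro l
          rw [he']
          by_cases hli : l = i
          · have hlj : l ≠ j := by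
              rw [hli]
              exact hij
            simp only [hli, if_true, if_neg hij, sub_zero, mul_one]
            rw [zpow_add₀ (hne i)]
          · by_cases hlj : l = j
            · simp only [hlj, if_true, if_neg (Ne.symm hij), add_zero, mul_one]
              rw [zpow_sub₀ (hne j), div_eq_mul_inv]
            · simp only [if_neg hli, if_neg hlj, add_zero, sub_zero, mul_one]
        rw [Finset.prod_congr rfl fun l _ => h7 l, Finset.prod_mul_distrib, Finset.prod_mul_distrib,
          Finset.prod_ite_eq' Finset.univ i, Finset.prod_ite_eq' Finset.univ j, if_pos (Finset.mem_univ _),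
          if_pos (Finset.mem_univ _), ← hμ, div_zpow, mul_assoc, ← div_eq_mul_inv]
      have hπm : algebraMap (F k) K ((ev (C.ℓ i) / ev (C.ℓ j)) ^ m) = (v i / v j) ^ ((n : ℤ) * m) := by
        rw [map_zpow₀, ← xnon_quot Z n hR i j, zpow_mul, zpow_natCast]
      have hh' : h = algebraMap k K ζ * algebraMap (F k) K ε * ∏ l, v l ^ e' l := by
        rw [hprod, ← hπm]
        rw [hcε, map_mul] at hζh
        rw [hζh]
        ring
      refine key ζ ε e' hε1 ?_ hh'
      have h8 : algebraMap k K ζ * ∏ l, v l ^ e' l = h * algebraMap (F k) K ε⁻¹ := by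
        rw [hh', map_inv₀]
        field_simp
      rw [h8]
      exact (ic K O).mul_mem hh (algebraMap_mem_ic _ hε2)
  have hmem := h5 k r n C K O w hn hroots hw (by rw [hKum]; trivial)
  exact hcl hmem

end Pool.Agent.Lib.MP_4318ff_ag
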