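import Pool.Agent.Lib.MP_4318ff_ag.Spec.X1
import Pool.Agent.Lib.MP_4318ff_ag.X.Pcs
import Pool.Agent.Lib.MP_4318ff_ag.B.Overlap

/-!
# `θ_u` preserves the local rings of `F`
-/

set_option autoImplicit false

namespace Pool.Agent.Lib.MP_4318ff_ag

open scoped LinearAlgebra.Projectivization

theorem xlof_ev_sum (hE : EvStmt) {k : Type} [Field k] {ι : Type} (s : Finset ι) (c : ι → k) (l : ι → Fin 3 → k) :
    ev (∑ i ∈ s, c i • l i) = ∑ i ∈ s, algebraMap k (F k) (c i) * ev (l i) := by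
  classical
  induction s using Finset.induction_on with
  | empty =>
    rw [Finset.sum_empty, Finset.sum_empty]
    exact ((hE k).2.2 0).2 rfl
  | insert a s ha ih =>
    rw [Finset.sum_insert ha, Finset.sum_insert ha, (hE k).1, (hE k).2.1, ih]

theorem xlof_basis {k : Type} [Field k] {m : Fin 3 → Fin 3 → k} (h : LinearIndependent k m) (e : Fin 3 → k) :
    ∃ γ : Fin 3 → k, e = ∑ i, γ i • m i := by
  let B := basisOfLinearIndependentOfCardEqFinrank h (by simp)
  refine ⟨fun i => B.repr e i, ?_⟩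
  have h1 := B.sum_repr e
  rw [coe_basisOfLinearIndependentOfCardEqFinrank] at h1
  exact h1.symm

theorem xlof_not_all {k : Type} [Field k] {m : Fin 3 → Fin 3 → k} (h : LinearIndependent k m) (P : Pt k)
    (hP : ∀ i, m i ⬝ᵥ P.rep = 0) : False := by
  have h1 : ∀ e : Fin 3 → k, e ⬝ᵥ P.rep = 0 := by
    intro e
    obtain ⟨γ, rfl⟩ := xlof_basis h e
    rw [sum_dotProduct]
    refine Finset.sum_eq_zero fun i _ => ?_
    rw [smul_dotProduct, hP, smul_zero]
  apply P.rep_nonzero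
  funext i
  have h2 := h1 (Pi.single i 1)
  rwa [single_dotProduct, one_mul] at h2

section

variable {k : Type} [Field k] {K : Type} [Field K] [Algebra (F k) K] {O : Subalgebra k (F k)}
  {T : F k →+* PowerSeries K} {E : Fin 3 → PowerSeries K} {m : Fin 3 → Fin 3 → k}

theorem xlof_N (hE : EvStmt) (hm : LinearIndependent k m) (hE' : ∀ i, E i ∈ pcs (MP_4318ff_ag.ic K O))
    (ha : ∀ a, T (algebraMap k (F k) a) = PowerSeries.C (algebraMap (F k) K (algebraMap k (F k) a)))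
    (hT : ∀ i, T (ev (m i) / ev (m 0)) = PowerSeries.C (algebraMap (F k) K (ev (m i) / ev (m 0))) * E i)
    (b c : Fin 3 → k) (γ : Fin 3 → k) (hc : c = ∑ i, γ i • m i) (hγ : ∀ i, γ i ≠ 0 → ev (m i) / ev b ∈ O) :
    PowerSeries.C (algebraMap (F k) K (ev (m 0) / ev b)) * T (ev c / ev (m 0)) ∈ pcs (MP_4318ff_ag.ic K O) := by
  have h0 : ev (m 0) ≠ 0 := overlap_ev_ne hE (hm.ne_zero 0)
  have h1 : ev c / ev (m 0) = ∑ i, algebraMap k (F k) (γ i) * (ev (m i) / ev (m 0)) := by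
    rw [hc, xlof_ev_sum hE, Finset.sum_div]
    refine Finset.sum_congr rfl fun i _ => ?_
    rw [mul_div_assoc]
  rw [h1, map_sum, Finset.mul_sum]
  refine (pcs (MP_4318ff_ag.ic K O)).sum_mem fun i _ => ?_
  have h2 : PowerSeries.C (algebraMap (F k) K (ev (m 0) / ev b)) *
      T (algebraMap k (F k) (γ i) * (ev (m i) / ev (m 0))) =
      PowerSeries.C (algebraMap (F k) K (algebraMap k (F k) (γ i) * (ev (m i) / ev b))) * E i := by
    rw [map_mul, ha, hT]
    have h3 : algebraMap k (F k) (γ i) * (ev (m i) / ev b) =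
        (ev (m 0) / ev b) * (algebraMap k (F k) (γ i) * (ev (m i) / ev (m 0))) := by
      have : ev (m i) / ev b = ev (m i) / ev (m 0) * (ev (m 0) / ev b) := by
        rw [div_mul_div_cancel₀ h0]
      rw [this]
      ring
    rw [h3, map_mul, map_mul, map_mul, map_mul]
    ring
  rw [h2]
  refine (pcs (MP_4318ff_ag.ic K O)).mul_mem (C_mem_pcs.2 (overlap_ic_of_mem ?_)) (hE' i)
  by_cases h : γ i = 0
  · rw [h, map_zero, zero_mul]
    exact O.zero_mem
  · exact O.mul_mem (O.algebraMap_mem _) (hγ i h)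

theorem xlof_quot (hE : EvStmt) (hm : LinearIndependent k m) (hE' : ∀ i, E i ∈ pcs (MP_4318ff_ag.ic K O))
    (ha : ∀ a, T (algebraMap k (F k) a) = PowerSeries.C (algebraMap (F k) K (algebraMap k (F k) a)))
    (hcc : ∀ f, PowerSeries.constantCoeff (T f) = algebraMap (F k) K f)
    (hT : ∀ i, T (ev (m i) / ev (m 0)) = PowerSeries.C (algebraMap (F k) K (ev (m i) / ev (m 0))) * E i)
    (b c : Fin 3 → k) (hb : b ≠ 0)
    (hγ : ∀ e, e = b ∨ e = c → ∀ γ : Fin 3 → k, e = ∑ i, γ i • m i → ∀ i, γ i ≠ 0 → ev (m i) / ev b ∈ O) :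
    T (ev c / ev b) ∈ pcs (MP_4318ff_ag.ic K O) := by
  have h0 : ev (m 0) ≠ 0 := overlap_ev_ne hE (hm.ne_zero 0)
  have hb' : ev b ≠ 0 := overlap_ev_ne hE hb
  obtain ⟨γ, hγc⟩ := xlof_basis hm c
  obtain ⟨δ, hδb⟩ := xlof_basis hm b
  have hNc := xlof_N hE hm hE' ha hT b c γ hγc (hγ c (Or.inr rfl) γ hγc)
  have hNb := xlof_N hE hm hE' ha hT b b δ hδb (hγ b (Or.inl rfl) δ hδb)
  set Nc := PowerSeries.C (algebraMap (F k) K (ev (m 0) / ev b)) * T (ev c / ev (m 0)) with hNcd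
  set Nb := PowerSeries.C (algebraMap (F k) K (ev (m 0) / ev b)) * T (ev b / ev (m 0)) with hNbd
  have hccb : PowerSeries.constantCoeff Nb = 1 := by
    rw [hNbd, map_mul, PowerSeries.constantCoeff_C, hcc, ← map_mul, div_mul_div_cancel₀ hb', div_self h0, map_one]
  have h1 : T (ev c / ev b) * Nb = Nc := by
    rw [hNbd, hNcd, mul_left_comm, ← map_mul, div_mul_div_cancel₀ hb']
  have hne : PowerSeries.constantCoeff Nb ≠ 0 := by
    rw [hccb]
    exact one_ne_zero
  have h2 : T (ev c / ev b) = Nc * Nb⁻¹ := by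
    rw [← h1, mul_assoc, mul_inv_ps hne, mul_one]
  rw [h2]
  refine (pcs (MP_4318ff_ag.ic K O)).mul_mem hNc (inv_mem_pcs hNb ?_)
  rw [hccb, inv_one]
  exact (MP_4318ff_ag.ic K O).one_mem

theorem xlof_loc (ha : ∀ a, T (algebraMap k (F k) a) = PowerSeries.C (algebraMap (F k) K (algebraMap k (F k) a)))
    (hcc : ∀ f, PowerSeries.constantCoeff (T f) = algebraMap (F k) K f) {z w : F k} {p : MvPolynomial (Fin 2) k}
    (hloc : IsLoc z w p O) (hO : ∃ f, f ∉ O) (hz : T z ∈ pcs (MP_4318ff_ag.ic K O))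
    (hw : T w ∈ pcs (MP_4318ff_ag.ic K O)) : ∀ f ∈ O, T f ∈ pcs (MP_4318ff_ag.ic K O) := by
  have hcm : ∀ h : MvPolynomial (Fin 2) k, T (cm z w h) ∈ pcs (MP_4318ff_ag.ic K O) := by
    intro h
    induction h using MvPolynomial.induction_on with
    | C a =>
      have h1 : cm z w (MvPolynomial.C a) = algebraMap k (F k) a := by
        change MvPolynomial.aeval ![z, w] (MvPolynomial.C a) = _
        rw [MvPolynomial.aeval_C]
      rw [h1, ha]
      exact C_mem_pcs.2 (overlap_ic_of_mem (O.algebraMap_mem _))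
    | add p q hp hq =>
      rw [map_add, map_add]
      exact (pcs (MP_4318ff_ag.ic K O)).add_mem hp hq
    | mul_X p i hp =>
      rw [map_mul, map_mul]
      refine (pcs (MP_4318ff_ag.ic K O)).mul_mem hp ?_
      have h1 : cm z w (MvPolynomial.X i) = ![z, w] i := by
        change MvPolynomial.aeval ![z, w] (MvPolynomial.X i) = _
        rw [MvPolynomial.aeval_X]
      rw [h1]
      fin_cases i
      · exact hz
      · exact hw
  intro f hf
  obtain ⟨h₁, h₂, hp, h12⟩ := (hloc.2 f).1 hf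
  have hne : cm z w h₂ ≠ 0 := by
    intro h0
    obtain ⟨g, hg⟩ := hO
    refine hg ((hloc.2 g).2 ⟨0, h₂, hp, ?_⟩)
    rw [h0, mul_zero, map_zero]
  have hinv : (cm z w h₂)⁻¹ ∈ O := (hloc.2 _).2 ⟨1, h₂, hp, by rw [inv_mul_cancel₀ hne, map_one]⟩
  have hne2 : PowerSeries.constantCoeff (T (cm z w h₂)) ≠ 0 := by
    rw [hcc]
    exact (map_ne_zero _).2 hne
  have h3 : T f = T (cm z w h₁) * (T (cm z w h₂))⁻¹ := by
    rw [← h12, map_mul, mul_assoc, mul_inv_ps hne2, mul_one]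
  rw [h3]
  refine (pcs (MP_4318ff_ag.ic K O)).mul_mem (hcm _) (inv_mem_pcs (hcm _) ?_)
  rw [hcc, ← map_inv₀]
  exact overlap_ic_of_mem hinv

theorem xlof_main (hE : EvStmt) (hCu : CurveStmt) (hEx : ExcStmt) {r : ℕ} {C : Config k r} (hm : LinearIndependent k m)
    (hpts : ∀ P ∈ C.M, m 0 ⬝ᵥ P.rep = 0 ∧ (m 1 ⬝ᵥ P.rep = 0 ∨ m 2 ⬝ᵥ P.rep = 0))
    (hE' : ∀ i, E i ∈ pcs (MP_4318ff_ag.ic K O))
    (ha : ∀ a, T (algebraMap k (F k) a) = PowerSeries.C (algebraMap (F k) K (algebraMap k (F k) a)))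
    (hcc : ∀ f, PowerSeries.constantCoeff (T f) = algebraMap (F k) K f)
    (hT : ∀ i, T (ev (m i) / ev (m 0)) = PowerSeries.C (algebraMap (F k) K (ev (m i) / ev (m 0))) * E i)
    (hO : IsDiv C O) : ∀ f ∈ O, T f ∈ pcs (MP_4318ff_ag.ic K O) := by
  have hunit : ∀ b, UnitForm O b → ∀ c, T (ev c / ev b) ∈ pcs (MP_4318ff_ag.ic K O) := fun b hb c =>
    xlof_quot hE hm hE' ha hcc hT b c hb.1 fun _ _ _ _ i _ => hb.2 (m i)
  rcases hO with hO | ⟨P, hP, hO⟩
  · obtain ⟨⟨π, hπ⟩, _⟩ := hCu k O hO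
    obtain ⟨b, c, d, p, hli, hloc⟩ := hO
    have hb0 : b ≠ 0 := hli.ne_zero 0
    have hb0' : ev b ≠ 0 := overlap_ev_ne hE hb0
    have hp1 : ¬ p ∣ 1 := fun h => hloc.1.not_isUnit (isUnit_of_dvd_one h)
    have hzO : ∀ h, cm (ev c / ev b) (ev d / ev b) h ∈ O := fun h =>
      (hloc.2 _).2 ⟨h, 1, hp1, by rw [map_one, mul_one]⟩
    have hbU : UnitForm O b := by
      refine ⟨hb0, fun e => ?_⟩
      obtain ⟨γ, hγ⟩ := xlof_basis hli e
      rw [hγ, xlof_ev_sum hE, Finset.sum_div]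
      refine O.sum_mem fun i _ => ?_
      rw [mul_div_assoc]
      refine O.mul_mem (O.algebraMap_mem _) ?_
      fin_cases i
      · change ev b / ev b ∈ O
        rw [div_self hb0']
        exact O.one_mem
      · have h1 : cm (ev c / ev b) (ev d / ev b) (MvPolynomial.X 0) = ev c / ev b := by
          change MvPolynomial.aeval ![ev c / ev b, ev d / ev b] (MvPolynomial.X 0) = _
          rw [MvPolynomial.aeval_X]
          rfl
        change ev c / ev b ∈ O
        rw [← h1]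
        exact hzO _
      · have h1 : cm (ev c / ev b) (ev d / ev b) (MvPolynomial.X 1) = ev d / ev b := by
          change MvPolynomial.aeval ![ev c / ev b, ev d / ev b] (MvPolynomial.X 1) = _
          rw [MvPolynomial.aeval_X]
          rfl
        change ev d / ev b ∈ O
        rw [← h1]
        exact hzO _
    exact xlof_loc ha hcc hloc ⟨_, hπ.2.1⟩ (hunit b hbU c) (hunit b hbU d)
  · obtain ⟨hU, hQ, hπ, _⟩ := (hEx k P).2 O hO
    obtain ⟨b, c, d, hli, hc, hd, hloc⟩ := hO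
    have hc0 : c ≠ 0 := hli.ne_zero 1
    have hbP : b ⬝ᵥ P.rep ≠ 0 := by
      intro h
      refine xlof_not_all hli P fun i => ?_
      fin_cases i
      · exact h
      · exact hc
      · exact hd
    have hγ0 : ∀ e : Fin 3 → k, e ⬝ᵥ P.rep = 0 → ∀ γ : Fin 3 → k, e = ∑ i, γ i • m i → ∀ i, γ i ≠ 0 →
        m i ⬝ᵥ P.rep = 0 := by
      intro e he γ hγ i hi
      obtain ⟨h0, h12⟩ := hpts P hP
      have h3 : γ 1 * (m 1 ⬝ᵥ P.rep) + γ 2 * (m 2 ⬝ᵥ P.rep) = 0 := by
        rw [hγ, sum_dotProduct, Fin.sum_univ_three, smul_dotProduct, smul_dotProduct, smul_dotProduct, h0, smul_zero,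
          zero_add, smul_eq_mul, smul_eq_mul] at he
        exact he
      rcases h12 with h1 | h2
      · rw [h1, mul_zero, zero_add] at h3
        have h4 : m 2 ⬝ᵥ P.rep ≠ 0 := by
          intro h
          refine xlof_not_all hm P fun i => ?_
          fin_cases i
          · exact h0
          · exact h1
          · exact h
        have h5 : γ 2 = 0 := (mul_eq_zero.1 h3).resolve_right h4
        fin_cases i
        · exact h0
        · exact h1
        · exact absurd h5 hi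
      · rw [h2, mul_zero, add_zero] at h3
        have h4 : m 1 ⬝ᵥ P.rep ≠ 0 := by
          intro h
          refine xlof_not_all hm P fun i => ?_
          fin_cases i
          · exact h0
          · exact h
          · exact h2
        have h5 : γ 1 = 0 := (mul_eq_zero.1 h3).resolve_right h4
        fin_cases i
        · exact h0
        · exact absurd h5 hi
        · exact h2
    refine xlof_loc ha hcc hloc ⟨_, (hπ b c hbP hc0 hc).2.1⟩ (hunit b (hU b hbP) c) ?_
    refine xlof_quot hE hm hE' ha hcc hT c d hc0 fun e he γ hγ i hi => ?_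
    refine hQ c (m i) hc0 hc (hγ0 e ?_ γ hγ i hi)
    rcases he with rfl | rfl
    · exact hc
    · exact hd

end

theorem tLoF (h1 : EvStmt) (h2 : CurveStmt) (h3 : ExcStmt) : LoFStmt := by
  intro k _ _ r n C Z K _ _ _ _ v Vp hv u x θ hθ O hO huO
  have hmono : MP_4318ff_ag.ic K u.R ≤ MP_4318ff_ag.ic K O := overlap_ic_mono huO
  have hx : x ∈ pcs (MP_4318ff_ag.ic K O) := fun j => hmono (hθ.sol.mem j)
  have hk : ∀ t : k, algebraMap k K t = algebraMap (F k) K (algebraMap k (F k) t) :=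
    fun t => IsScalarTower.algebraMap_apply k (F k) K t
  let T : F k →+* PowerSeries K := ((θ : PowerSeries K →ₐ[k] PowerSeries K) : PowerSeries K →+* PowerSeries K).comp
    ((PowerSeries.C : K →+* PowerSeries K).comp (algebraMap (F k) K))
  have hTd : ∀ f, T f = θ (PowerSeries.C (algebraMap (F k) K f)) := fun f => rfl
  let Ei : Fin r → PowerSeries K := fun i => (1 + PowerSeries.C (algebraMap k K (Z.al u i)) * x) ^ n
  have hEi : ∀ i, Ei i ∈ pcs (MP_4318ff_ag.ic K O) := by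
    intro i
    refine (pcs (MP_4318ff_ag.ic K O)).pow_mem ((pcs (MP_4318ff_ag.ic K O)).add_mem
      (pcs (MP_4318ff_ag.ic K O)).one_mem ((pcs (MP_4318ff_ag.ic K O)).mul_mem (C_mem_pcs.2 ?_) hx)) n
    rw [hk]
    exact overlap_ic_of_mem (O.algebraMap_mem _)
  have hTi : ∀ i, i ≠ Z.p → T (ev (C.ℓ i) / ev (C.ℓ Z.o)) =
      PowerSeries.C (algebraMap (F k) K (ev (C.ℓ i) / ev (C.ℓ Z.o))) * Ei i := by
    intro i hi
    rw [hTd, ← hv.vn i, map_pow, map_pow, hθ.val i hi]
    change (PowerSeries.C (v i) * (1 + PowerSeries.C (algebraMap k K (Z.al u i)) * x)) ^ n = _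
    rw [mul_pow]
  intro f hf
  refine xlof_main (T := T) (E := ![Ei Z.o, Ei Z.e, Ei Z.f]) (m := ![C.ℓ Z.o, C.ℓ Z.e, C.ℓ Z.f]) h1 h2 h3 Z.li
    Z.pts ?_ ?_ ?_ ?_ hO f hf
  · intro i
    fin_cases i
    · exact hEi _
    · exact hEi _
    · exact hEi _
  · intro a
    rw [hTd, ← hk]
    exact hθ.isDef.const a
  · intro g
    rw [hTd, hθ.isDef.2, PowerSeries.constantCoeff_C]
  · intro i
    fin_cases i
    · exact hTi _ (Ne.symm Z.po)
    · exact hTi _ (Ne.symm Z.pe)
    · exact hTi _ (Ne.symm Z.pf)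

end Pool.Agent.Lib.MP_4318ff_ag
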