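import Pool.Agent.Lib.MP_4318ff_ag.Spec.X1
import Pool.Agent.Lib.MP_4318ff_ag.A.KumDec

/-!
# MP_4318ff_ag, module X/Prj: projection to an eigenspace of the Galois group
-/

set_option autoImplicit false

namespace Pool.Agent.Lib.MP_4318ff_ag

section

variable {k : Type} [Field k] {K : Type} [Field K] [Algebra (F k) K] [Algebra k K]
  [IsScalarTower k (F k) K]

private theorem xprj_const (S : Subalgebra k (F k)) (z : k) : algebraMap k K z ∈ ic K S := by
  have h1 : IsIntegral S (algebraMap S K ⟨algebraMap k (F k) z, S.algebraMap_mem z⟩) :=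
    isIntegral_algebraMap
  have h2 : algebraMap S K ⟨algebraMap k (F k) z, S.algebraMap_mem z⟩ = algebraMap k K z := by
    rw [IsScalarTower.algebraMap_apply S (F k) K, IsScalarTower.algebraMap_apply k (F k) K]
    rfl
  rw [h2] at h1
  exact h1

omit [Algebra k K] [IsScalarTower k (F k) K] in
private theorem xprj_conj (S : Subalgebra k (F k)) (g : K ≃ₐ[F k] K) {y : K} (hy : y ∈ ic K S) :
    g y ∈ ic K S := by
  have h1 : IsIntegral S y := hy
  exact h1.map ((g.restrictScalars S).toAlgHom)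

variable [FiniteDimensional (F k) K]

private theorem xprj_smul (χ : (K ≃ₐ[F k] K) →* kˣ) (t : F k) (x : K) :
    kumdec_e χ (t • x) = t • kumdec_e χ x := by
  rw [kumdec_e_apply, kumdec_e_apply, Algebra.smul_def, Algebra.smul_def, mul_left_comm]
  congr 1
  rw [Finset.mul_sum]
  refine Finset.sum_congr rfl fun g _ => ?_
  rw [map_mul, AlgEquiv.commutes]
  ring

private theorem xprj_eig (χ : (K ≃ₐ[F k] K) →* kˣ) (g' : K ≃ₐ[F k] K) (x : K) :
    g' (kumdec_e χ x) = algebraMap k K (χ g') * kumdec_e χ x := by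
  rw [kumdec_e_apply, map_mul, kumdec_fix, map_sum, mul_left_comm]
  congr 1
  rw [Finset.mul_sum]
  refine Fintype.sum_equiv (Equiv.mulLeft g') _ _ fun g => ?_
  have h1 : algebraMap k K (χ g') * (algebraMap k K ((χ (g' * g))⁻¹ : kˣ) * (g' * g) x) =
      algebraMap k K ((χ g' : k) * ((χ (g' * g))⁻¹ : kˣ)) * (g' * g) x := by
    rw [RingHom.map_mul, mul_assoc]
  have h2 : (χ g' : k) * ((χ (g' * g))⁻¹ : kˣ) = ((χ g)⁻¹ : kˣ) := by
    rw [← Units.val_mul, map_mul, mul_inv_rev, mul_comm (χ g)⁻¹ (χ g')⁻¹, mul_inv_cancel_left]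
  rw [Equiv.coe_mulLeft, h1, h2, map_mul, kumdec_fix, AlgEquiv.mul_apply]

end

theorem tPrj : PrjStmt := by
  intro k _ _ _ n K _ _ _ _ _ _ m hn hm hf
  obtain ⟨f0, hf0⟩ := hf
  obtain ⟨χ, hχ⟩ := kumdec_char n hn m hm f0 hf0
  let e : K →ₗ[F k] K :=
    { toFun := kumdec_e χ
      map_add' := map_add _
      map_smul' := fun t x => xprj_smul χ t x }
  have he : ∀ x, e x = kumdec_e χ x := fun _ => rfl
  refine ⟨e, fun x => ?_, ?_, fun O x y hy0 hyf hyx => ?_⟩
  · have h1 : e x / m ∈ Set.range (algebraMap (F k) K) := by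
      rw [IsGalois.mem_range_algebraMap_iff_fixed]
      intro g
      have hc : algebraMap k K (χ g) ≠ 0 := by
        rw [Ne, map_eq_zero]
        exact (χ g).ne_zero
      rw [he, map_div₀, hχ, xprj_eig, mul_div_mul_left _ _ hc]
    obtain ⟨f, hf⟩ := h1
    exact ⟨f, by rw [hf, div_mul_cancel₀ _ hm]⟩
  · rw [he]
    exact kumdec_e_same χ m hχ
  · obtain ⟨f, hf⟩ := hyf
    obtain ⟨ψ, hψ⟩ := kumdec_char n hn y hy0 f hf
    rw [he, kumdec_e_apply, mul_left_comm, Finset.mul_sum]
    refine (ic K O).mul_mem (xprj_const O _) ((ic K O).sum_mem fun g _ => ?_)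
    have hc : algebraMap k K (ψ g) ≠ 0 := by
      rw [Ne, map_eq_zero]
      exact (ψ g).ne_zero
    have h2 : y * g x = algebraMap k K ((ψ g : k)⁻¹) * g (y * x) := by
      rw [map_mul, hψ, map_inv₀]
      field_simp
    rw [mul_left_comm, h2]
    exact (ic K O).mul_mem (xprj_const O _) ((ic K O).mul_mem (xprj_const O _) (xprj_conj O g hyx))

end Pool.Agent.Lib.MP_4318ff_ag
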