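import Pool.Agent.Lib.MP_4318ff_ag.Spec.X1
import Pool.Agent.Lib.MP_4318ff_ag.X.Pcs
import Pool.Agent.Lib.MP_4318ff_ag.B.Overlap

/-!
# The power series `x_u` and `V_p`
-/

set_option autoImplicit false

namespace Pool.Agent.Lib.MP_4318ff_ag

theorem xsol_ev_sum (hE : EvStmt) {k : Type} [Field k] {ι : Type} (s : Finset ι) (c : ι → k) (l : ι → Fin 3 → k) :
    ev (∑ i ∈ s, c i • l i) = ∑ i ∈ s, algebraMap k (F k) (c i) * ev (l i) := by
  classical
  induction s using Finset.induction_on with
  | empty =>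
    rw [Finset.sum_empty, Finset.sum_empty]
    exact ((hE k).2.2 0).2 rfl
  | insert a s ha ih =>
    rw [Finset.sum_insert ha, Finset.sum_insert ha, (hE k).1, (hE k).2.1, ih]

theorem xsol_lifts {R : Type} [CommRing R] {S : Subring R} {G : Polynomial R}
    (h : G ∈ Polynomial.lifts S.subtype) (i : ℕ) : G.coeff i ∈ S := by
  obtain ⟨y, hy⟩ := (Polynomial.lifts_iff_coeff_lifts G).1 h i
  rw [← hy]
  exact y.2

theorem xsol_C_lifts {R : Type} [CommRing R] {S : Subring R} {a : R} (h : a ∈ S) :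
    Polynomial.C a ∈ Polynomial.lifts S.subtype :=
  Polynomial.C'_mem_lifts ⟨⟨a, h⟩, rfl⟩

theorem xsol_x (hE : EvStmt) (hH : HenStmt) {k : Type} [Field k] [CharZero k] {r n : ℕ} {C : Config k r} (Z : XData C)
    {K : Type} [Field K] [Algebra (F k) K] [Algebra k K] [IsScalarTower k (F k) K] (v : Fin r → K) (hn : 2 ≤ n)
    (hv : XRoots Z n v) (u : Chart C) : ∃ x, XSol Z n v u x := by
  have hk : ∀ t : k, algebraMap k K t = algebraMap (F k) K (algebraMap k (F k) t) :=
    fun t => IsScalarTower.algebraMap_apply k (F k) K t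
  haveI : CharZero K := charZero_of_injective_algebraMap (algebraMap k K).injective
  have hkA : ∀ t : k, algebraMap k K t ∈ u.A K := fun t => by
    rw [hk]
    exact overlap_ic_of_mem (u.R.algebraMap_mem t)
  have ha : ev (Z.a u) ≠ 0 := overlap_ev_ne hE (Z.a_ne u)
  have hlo : C.ℓ Z.o ≠ 0 := Z.li.ne_zero 0
  have ho : ev (C.ℓ Z.o) ≠ 0 := overlap_ev_ne hE hlo
  set β : Fin r → K := fun i => algebraMap (F k) K (ev (C.ℓ i) / ev (Z.a u)) with hβ
  set μ : K := v Z.e ^ 2 * algebraMap (F k) K (ev (C.ℓ Z.o) / ev (Z.a u)) with hμ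
  set c : Fin r → K := fun i => algebraMap k K (Z.c i) with hc
  set α : Fin r → K := fun i => algebraMap k K (Z.al u i) with hα
  have hβA : ∀ i, Z.c i ≠ 0 → β i ∈ u.A K := fun i hi => overlap_ic_of_mem (Z.a_R u i hi)
  have hcβ : ∀ i, c i * β i ∈ u.A K := by
    intro i
    by_cases hi : Z.c i = 0
    · have : c i = 0 := by
        change algebraMap k K (Z.c i) = 0
        rw [hi, map_zero]
      rw [this, zero_mul]
      exact (u.A K).zero_mem
    · exact (u.A K).mul_mem (hkA _) (hβA i hi)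
  have hμA : μ ∈ u.A K := by
    have h1 : μ ^ n = β Z.e ^ 2 * β Z.o ^ (n - 2) := by
      obtain ⟨m, rfl⟩ : ∃ m, n = m + 2 := ⟨n - 2, by omega⟩
      rw [hμ, mul_pow, ← pow_mul, mul_comm 2 (m + 2), pow_mul, hv.vn, Nat.add_sub_cancel]
      change _ = algebraMap (F k) K (ev (C.ℓ Z.e) / ev (Z.a u)) ^ 2 *
        algebraMap (F k) K (ev (C.ℓ Z.o) / ev (Z.a u)) ^ m
      rw [← map_pow, ← map_pow, ← map_pow, ← map_pow, ← map_mul, ← map_mul]
      congr 1
      have h3 : ev (C.ℓ Z.e) / ev (Z.a u) = ev (C.ℓ Z.e) / ev (C.ℓ Z.o) * (ev (C.ℓ Z.o) / ev (Z.a u)) := by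
        rw [div_mul_div_cancel₀ ho]
      rw [h3]
      ring
    have h2 : μ ^ n ∈ u.A K := by
      rw [h1]
      exact (u.A K).mul_mem ((u.A K).pow_mem (hβA _ Z.ce) _) ((u.A K).pow_mem (hβA _ Z.co) _)
    exact IsIntegral.of_pow (by omega) h2
  have hsum0 : ∑ i, c i * β i = 0 := by
    have h1 : ∑ i, c i * β i = algebraMap (F k) K (ev (∑ i, Z.c i • C.ℓ i) / ev (Z.a u)) := by
      rw [xsol_ev_sum hE, Finset.sum_div, map_sum]
      refine Finset.sum_congr rfl fun i _ => ?_
      change algebraMap k K (Z.c i) * algebraMap (F k) K (ev (C.ℓ i) / ev (Z.a u)) = _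
      rw [hk, ← map_mul, mul_div_assoc]
    rw [h1, Z.rel, ((hE k).2.2 0).2 rfl, zero_div, map_zero]
  have hsum1 : ∑ i, c i * α i * β i = 1 := by
    have h1 : ∑ i, c i * α i * β i = algebraMap (F k) K (ev (∑ i, (Z.c i * Z.al u i) • C.ℓ i) / ev (Z.a u)) := by
      rw [xsol_ev_sum hE, Finset.sum_div, map_sum]
      refine Finset.sum_congr rfl fun i _ => ?_
      change algebraMap k K (Z.c i) * algebraMap k K (Z.al u i) * algebraMap (F k) K (ev (C.ℓ i) / ev (Z.a u)) = _
      rw [← map_mul, hk, ← map_mul, mul_div_assoc]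
    rw [h1, ← Z.a_eq, div_self ha, map_one]
  let P : Fin r → Polynomial (PowerSeries K) := fun i =>
    1 + Polynomial.C (PowerSeries.C (α i)) * Polynomial.X
  let G : Polynomial (PowerSeries K) :=
    ∑ i, Polynomial.C (PowerSeries.C (c i * β i)) * P i ^ n +
      Polynomial.C (PowerSeries.X * PowerSeries.C μ) * P Z.e ^ 2
  have hPl : ∀ i, P i ∈ Polynomial.lifts (pcs (u.A K)).subtype := fun i =>
    Subsemiring.add_mem _ (Subsemiring.one_mem _) (Subsemiring.mul_mem _ (xsol_C_lifts (C_mem_pcs.2 (hkA _)))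
      (Polynomial.X_mem_lifts _))
  have hG : G ∈ Polynomial.lifts (pcs (u.A K)).subtype := by
    refine Subsemiring.add_mem _ (Subsemiring.sum_mem _ fun i _ => ?_) ?_
    · exact Subsemiring.mul_mem _ (xsol_C_lifts (C_mem_pcs.2 (hcβ i))) (Subsemiring.pow_mem _ (hPl i) n)
    · exact Subsemiring.mul_mem _ (xsol_C_lifts (X_mul_mem_pcs.2 (C_mem_pcs.2 hμA))) (Subsemiring.pow_mem _ (hPl _) 2)
  have hPev : ∀ i x, (P i).eval x = 1 + PowerSeries.C (α i) * x := fun i x => by
    change (1 + Polynomial.C (PowerSeries.C (α i)) * Polynomial.X : Polynomial (PowerSeries K)).eval x = _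
    rw [Polynomial.eval_add, Polynomial.eval_one, Polynomial.eval_mul, Polynomial.eval_C, Polynomial.eval_X]
  have hGev : ∀ x, G.eval x = ∑ i, PowerSeries.C (c i * β i) * (1 + PowerSeries.C (α i) * x) ^ n +
      PowerSeries.X * PowerSeries.C μ * (1 + PowerSeries.C (α Z.e) * x) ^ 2 := fun x => by
    change (∑ i, Polynomial.C (PowerSeries.C (c i * β i)) * P i ^ n +
      Polynomial.C (PowerSeries.X * PowerSeries.C μ) * P Z.e ^ 2).eval x = _
    rw [Polynomial.eval_add, Polynomial.eval_finset_sum, Polynomial.eval_mul, Polynomial.eval_C, Polynomial.eval_pow,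
      hPev]
    congr 1
    refine Finset.sum_congr rfl fun i _ => ?_
    rw [Polynomial.eval_mul, Polynomial.eval_C, Polynomial.eval_pow, hPev]
  have hG0 : G.coeff 0 = PowerSeries.X * PowerSeries.C μ := by
    rw [Polynomial.coeff_zero_eq_eval_zero, hGev]
    have h1 : ∑ i, PowerSeries.C (c i * β i) * (1 + PowerSeries.C (α i) * (0 : PowerSeries K)) ^ n = 0 := by
      have : ∀ i ∈ Finset.univ, PowerSeries.C (c i * β i) * (1 + PowerSeries.C (α i) * (0 : PowerSeries K)) ^ n =
          PowerSeries.C (c i * β i) := by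
        intro i _
        rw [mul_zero, add_zero, one_pow, mul_one]
      rw [Finset.sum_congr rfl this, ← map_sum, hsum0, map_zero]
    rw [h1, mul_zero, add_zero, one_pow, mul_one, zero_add]
  have hPd : ∀ i, Polynomial.derivative (P i) = Polynomial.C (PowerSeries.C (α i)) := fun i => by
    change Polynomial.derivative (1 + Polynomial.C (PowerSeries.C (α i)) * Polynomial.X : Polynomial (PowerSeries K)) = _
    rw [Polynomial.derivative_add, Polynomial.derivative_one, zero_add, Polynomial.derivative_C_mul,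
      Polynomial.derivative_X, mul_one]
  have hG1 : PowerSeries.constantCoeff (G.coeff 1) = (n : K) := by
    have h1 : G.coeff 1 = (Polynomial.derivative G).eval 0 := by
      rw [← Polynomial.coeff_zero_eq_eval_zero, Polynomial.coeff_derivative]
      simp
    rw [h1]
    have h2 : Polynomial.derivative G = ∑ i, Polynomial.C (PowerSeries.C (c i * β i)) *
        (Polynomial.C (n : PowerSeries K) * P i ^ (n - 1) * Polynomial.C (PowerSeries.C (α i))) +
      Polynomial.C (PowerSeries.X * PowerSeries.C μ) *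
        (Polynomial.C (2 : PowerSeries K) * P Z.e ^ 1 * Polynomial.C (PowerSeries.C (α Z.e))) := by
      change Polynomial.derivative (∑ i, Polynomial.C (PowerSeries.C (c i * β i)) * P i ^ n +
        Polynomial.C (PowerSeries.X * PowerSeries.C μ) * P Z.e ^ 2) = _
      rw [Polynomial.derivative_add, Polynomial.derivative_sum, Polynomial.derivative_C_mul, Polynomial.derivative_pow,
        hPd]
      congr 1
      refine Finset.sum_congr rfl fun i _ => ?_
      rw [Polynomial.derivative_C_mul, Polynomial.derivative_pow, hPd]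
    rw [h2, Polynomial.eval_add, Polynomial.eval_finset_sum, map_add, map_sum]
    have h3 : ∀ i ∈ Finset.univ, PowerSeries.constantCoeff ((Polynomial.C (PowerSeries.C (c i * β i)) *
        (Polynomial.C (n : PowerSeries K) * P i ^ (n - 1) * Polynomial.C (PowerSeries.C (α i)))).eval 0) =
        (n : K) * (c i * α i * β i) := by
      intro i _
      rw [Polynomial.eval_mul, Polynomial.eval_mul, Polynomial.eval_mul, Polynomial.eval_pow, hPev, Polynomial.eval_C,
        Polynomial.eval_C, Polynomial.eval_C, mul_zero, add_zero, one_pow, mul_one,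
        map_mul PowerSeries.constantCoeff, map_mul PowerSeries.constantCoeff,
        map_natCast PowerSeries.constantCoeff, PowerSeries.constantCoeff_C, PowerSeries.constantCoeff_C]
      ring
    rw [Finset.sum_congr rfl h3, ← Finset.mul_sum, hsum1, mul_one]
    rw [Polynomial.eval_mul, Polynomial.eval_C, map_mul, map_mul, PowerSeries.constantCoeff_X, zero_mul, zero_mul,
      add_zero]
  have hn0 : (n : K) ≠ 0 := Nat.cast_ne_zero.2 (by omega)
  have hninv : (n : K)⁻¹ ∈ u.A K := by
    have := hkA ((n : k)⁻¹)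
    rwa [map_inv₀, map_natCast] at this
  obtain ⟨x, hx, hx0, hxG, hx1⟩ := (hH K).1 (u.A K) G (xsol_lifts hG)
    (by rw [hG0, map_mul, PowerSeries.constantCoeff_X, zero_mul]) (by rw [hG1]; exact hn0)
    (by rw [hG1]; exact hninv)
  refine ⟨x, ⟨hx, hx0, ?_, ?_⟩⟩
  · rw [hx1, hG1, hG0]
    have h1 : PowerSeries.coeff 1 (PowerSeries.X * PowerSeries.C μ) = μ := by
      rw [PowerSeries.coeff_succ_X_mul, PowerSeries.coeff_zero_eq_constantCoeff, PowerSeries.constantCoeff_C]
    rw [h1]
  · have h1 : ∑ i, PowerSeries.C (algebraMap k K (Z.c i)) * Vi Z v u x i ^ n +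
        PowerSeries.X * Vi Z v u x Z.e ^ 2 =
        PowerSeries.C (algebraMap (F k) K (ev (Z.a u) / ev (C.ℓ Z.o))) * G.eval x := by
      rw [hGev, mul_add, Finset.mul_sum]
      congr 1
      · refine Finset.sum_congr rfl fun i _ => ?_
        have h2 : c i * v i ^ n = algebraMap (F k) K (ev (Z.a u) / ev (C.ℓ Z.o)) * (c i * β i) := by
          rw [hv.vn]
          have h3 : algebraMap (F k) K (ev (C.ℓ i) / ev (C.ℓ Z.o)) =
              algebraMap (F k) K (ev (Z.a u) / ev (C.ℓ Z.o)) * β i := by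
            change _ = algebraMap (F k) K (ev (Z.a u) / ev (C.ℓ Z.o)) *
              algebraMap (F k) K (ev (C.ℓ i) / ev (Z.a u))
            rw [← map_mul]
            congr 1
            field_simp
          rw [h3]
          ring
        change PowerSeries.C (c i) * (PowerSeries.C (v i) * (1 + PowerSeries.C (α i) * x)) ^ n = _
        rw [mul_pow, ← map_pow, ← mul_assoc, ← map_mul, h2, map_mul, mul_assoc]
      · have h2 : v Z.e ^ 2 = algebraMap (F k) K (ev (Z.a u) / ev (C.ℓ Z.o)) * μ := by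
          have h3 : algebraMap (F k) K (ev (Z.a u) / ev (C.ℓ Z.o)) *
              algebraMap (F k) K (ev (C.ℓ Z.o) / ev (Z.a u)) = 1 := by
            rw [← map_mul, div_mul_div_cancel₀ ho, div_self ha, map_one]
          rw [hμ, mul_left_comm, h3, mul_one]
        change PowerSeries.X * (PowerSeries.C (v Z.e) * (1 + PowerSeries.C (α Z.e) * x)) ^ 2 = _
        rw [mul_pow, ← map_pow, h2, map_mul]
        ring
    rw [h1, hxG, mul_zero]

theorem xsol_v (hE : EvStmt) (hH : HenStmt) {k : Type} [Field k] [CharZero k] {r n : ℕ} {C : Config k r} (Z : XData C)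
    {K : Type} [Field K] [Algebra (F k) K] [Algebra k K] [IsScalarTower k (F k) K] (v : Fin r → K) (hn : 2 ≤ n)
    (hv : XRoots Z n v) : ∃ Vp, XBase Z n v Vp := by
  haveI : CharZero K := charZero_of_injective_algebraMap (algebraMap k K).injective
  have hlo : C.ℓ Z.o ≠ 0 := Z.li.ne_zero 0
  have ho : ev (C.ℓ Z.o) ≠ 0 := overlap_ev_ne hE hlo
  have hlp : C.ℓ Z.p ≠ 0 := (C.indep Z.p Z.o Z.po).ne_zero 0
  have hp : ev (C.ℓ Z.p) ≠ 0 := overlap_ev_ne hE hlp
  have hvp : v Z.p ≠ 0 := by
    intro h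
    have h1 := hv.vn Z.p
    rw [h, zero_pow (by omega)] at h1
    exact (map_ne_zero (algebraMap (F k) K)).2 (div_ne_zero hp ho) h1.symm
  set b : PowerSeries K := PowerSeries.C (v Z.p ^ n) - PowerSeries.X * PowerSeries.C (v Z.e ^ 2 / algebraMap k K (Z.c Z.p))
    with hb
  obtain ⟨x, hx, hx0⟩ := (hH K).2.2 (Polynomial.X ^ n - Polynomial.C b) (v Z.p)
    (by
      rw [Polynomial.eval_sub, Polynomial.eval_pow, Polynomial.eval_X, Polynomial.eval_C, hb, map_sub, map_sub,
        map_mul, PowerSeries.constantCoeff_X, zero_mul, sub_zero, map_pow, PowerSeries.constantCoeff_C,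
        PowerSeries.constantCoeff_C, sub_self])
    (by
      rw [Polynomial.derivative_sub, Polynomial.derivative_C, sub_zero, Polynomial.derivative_X_pow,
        Polynomial.eval_mul, Polynomial.eval_pow, Polynomial.eval_X, Polynomial.eval_C, map_mul, map_pow,
        map_natCast, PowerSeries.constantCoeff_C]
      exact mul_ne_zero (Nat.cast_ne_zero.2 (by omega)) (pow_ne_zero _ hvp))
  refine ⟨x, ⟨hx, ?_⟩⟩
  rw [Polynomial.eval_sub, Polynomial.eval_pow, Polynomial.eval_X, Polynomial.eval_C] at hx0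
  exact sub_eq_zero.1 hx0

theorem tSol (h1 : EvStmt) (h2 : HenStmt) : SolXStmt := by
  intro k _ _ r n C Z K _ _ _ _ v hn hv
  exact ⟨fun u => xsol_x h1 h2 Z v hn hv u, xsol_v h1 h2 Z v hn hv⟩

end Pool.Agent.Lib.MP_4318ff_ag
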