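import Pool.Agent.Lib.MP_4318ff_ag.Spec.X1
import Pool.Agent.Lib.MP_4318ff_ag.X.Pcs

/-!
# MP_4318ff_ag, module X/The: the automorphism `θ_u`
-/

set_option autoImplicit false

namespace Pool.Agent.Lib.MP_4318ff_ag

open scoped LinearAlgebra.Projectivization

private theorem xthe_sum (h1 : EvStmt) {k : Type} [Field k] {r : ℕ} (c : Fin r → k) (l : Fin r → Fin 3 → k)
    (s : Finset (Fin r)) :
    ev (∑ i ∈ s, c i • l i) = ∑ i ∈ s, algebraMap k (F k) (c i) * ev (l i) := by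
  classical
  induction s using Finset.induction_on with
  | empty =>
    rw [Finset.sum_empty, Finset.sum_empty]
    exact ((h1 k).2.2 0).2 rfl
  | insert a s ha ih => rw [Finset.sum_insert ha, Finset.sum_insert ha, (h1 k).1, (h1 k).2.1, ih]

theorem tThe (h1 : EvStmt) (h2 : CoordStmt) (_ : HenStmt) (h4 : ExtXStmt) (h5 : LftStmt) : TheStmt := by
  intro k _ _ r n C Z K _ _ _ _ _ v Vp hn hR hB u x hS
  classical
  have hcz : CharZero K := charZero_of_injective_algebraMap (algebraMap k K).injective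
  have hev0 : ∀ a : Fin 3 → k, a ≠ 0 → ev a ≠ 0 := fun a ha h => ha (((h1 k).2.2 a).1 h)
  have hlo : C.ℓ Z.o ≠ 0 := Z.li.ne_zero 0
  have hle : C.ℓ Z.e ≠ 0 := Z.li.ne_zero 1
  have hlf : C.ℓ Z.f ≠ 0 := Z.li.ne_zero 2
  have hl : ∀ i, C.ℓ i ≠ 0 := by
    intro i
    by_cases hi : i = Z.o
    · rw [hi]; exact hlo
    · exact (C.indep i Z.o hi).ne_zero 0
  have hφk : ∀ a : k, algebraMap (F k) K (algebraMap k (F k) a) = algebraMap k K a := fun a =>
    (IsScalarTower.algebraMap_apply k (F k) K a).symm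
  have hvn0 : ∀ i, v i ≠ 0 := by
    intro i hi
    have h := hR.vn i
    rw [hi, zero_pow (by omega)] at h
    have h3 : ev (C.ℓ i) / ev (C.ℓ Z.o) = 0 := (algebraMap (F k) K).injective (by rw [← h, map_zero])
    rcases div_eq_zero_iff.1 h3 with h4 | h4
    · exact hev0 _ (hl i) h4
    · exact hev0 _ hlo h4
  -- constant coefficients
  have hccV : ∀ i, PowerSeries.constantCoeff (Vi Z v u x i) = v i := by
    intro i
    rw [Vi, map_mul, map_add, map_mul, PowerSeries.constantCoeff_C, PowerSeries.constantCoeff_C, hS.x0, map_one,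
      mul_zero, add_zero, mul_one]
  obtain ⟨g, hg1, hg2, hg3⟩ := h5 k K (ev (C.ℓ Z.e) / ev (C.ℓ Z.o)) (ev (C.ℓ Z.f) / ev (C.ℓ Z.o))
    (Vi Z v u x Z.e ^ n) (Vi Z v u x Z.f ^ n) (h2 k _ _ _ Z.li).1
    (by rw [map_pow, hccV, hR.vn]) (by rw [map_pow, hccV, hR.vn])
  obtain ⟨θ, hθ, hθg⟩ := h4 k K g hg1
  have hθC : ∀ a : k, θ (PowerSeries.C (algebraMap k K a)) = PowerSeries.C (algebraMap k K a) := hθ.const
  have hpow : ∀ y : K, θ (PowerSeries.C y) ^ n = θ (PowerSeries.C (y ^ n)) := by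
    intro y
    rw [← map_pow, ← map_pow]
  have hccθ : ∀ y : K, PowerSeries.constantCoeff (θ (PowerSeries.C y)) = y := by
    intro y
    rw [hθ.2, PowerSeries.constantCoeff_C]
  have hval : ∀ i, i ≠ Z.p → θ (PowerSeries.C (v i)) = Vi Z v u x i := by
    intro i hip
    have key : θ (PowerSeries.C (v i ^ n)) = Vi Z v u x i ^ n → θ (PowerSeries.C (v i)) = Vi Z v u x i := by
      intro h
      refine root_unique_ps hn ?_ ?_ ?_
      · rw [hpow, h]
      · rw [hccθ, hccV]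
      · rw [hccV]; exact hvn0 i
    by_cases hie : i = Z.e
    · rw [hie] at key ⊢
      apply key
      rw [hR.vn, hθg, hg2]
    by_cases hif : i = Z.f
    · rw [hif] at key ⊢
      apply key
      rw [hR.vn, hθg, hg3]
    by_cases hio : i = Z.o
    · rw [hio, Vi, hR.vo, Z.al_o]
      simp
    obtain ⟨hci, hcf, a, b, hab⟩ := Z.other i hio hip hie hif
    have hVi : Vi Z v u x i = PowerSeries.C (v i) := by
      rw [Vi, Z.al_c u i hci]
      simp
    have hVf : Vi Z v u x Z.f = PowerSeries.C (v Z.f) := by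
      rw [Vi, Z.al_c u Z.f hcf]
      simp
    apply key
    have e1 : v i ^ n = algebraMap k K a + algebraMap k K b * v Z.f ^ n := by
      rw [hR.vn, hR.vn, hab, (h1 k).1, (h1 k).2.1, (h1 k).2.1, ← hφk, ← hφk, ← map_mul, ← map_add]
      congr 1
      have := hev0 _ hlo
      field_simp
    rw [e1, map_add, map_add, map_mul, map_mul, hθC, hθC, hR.vn Z.f, hθg (algebraMap (F k) K _), hg3, hVf, hVi,
      ← map_pow, ← map_pow, ← map_mul, ← map_add, ← e1]
  refine ⟨θ, hS, hθ, hval, ?_⟩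
  -- the relation
  have hrelK : ∑ i, algebraMap k K (Z.c i) * v i ^ n = 0 := by
    have e1 : ∀ i ∈ (Finset.univ : Finset (Fin r)), algebraMap k K (Z.c i) * v i ^ n =
        algebraMap (F k) K (algebraMap k (F k) (Z.c i) * ev (C.ℓ i) * (ev (C.ℓ Z.o))⁻¹) := by
      intro i _
      rw [hR.vn, ← hφk, ← map_mul, div_eq_mul_inv, mul_assoc]
    rw [Finset.sum_congr rfl e1, ← map_sum, ← Finset.sum_mul, ← xthe_sum h1, Z.rel, ((h1 k).2.2 0).2 rfl, zero_mul,
      map_zero]
  have hrelθ : ∑ i, PowerSeries.C (algebraMap k K (Z.c i)) * θ (PowerSeries.C (v i)) ^ n = 0 := by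
    have e1 := congrArg (fun y => θ (PowerSeries.C y)) hrelK
    simp only [map_sum, map_mul, map_zero, map_pow] at e1
    rw [← e1]
    refine Finset.sum_congr rfl fun i _ => ?_
    rw [hθC]
  have hc0 : algebraMap k K (Z.c Z.p) ≠ 0 := by
    rw [Ne, map_eq_zero]
    exact Z.cp
  have hsplit1 := Finset.add_sum_erase (Finset.univ : Finset (Fin r))
    (fun i => PowerSeries.C (algebraMap k K (Z.c i)) * θ (PowerSeries.C (v i)) ^ n) (Finset.mem_univ Z.p)
  have hsplit2 := Finset.add_sum_erase (Finset.univ : Finset (Fin r))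
    (fun i => PowerSeries.C (algebraMap k K (Z.c i)) * Vi Z v u x i ^ n) (Finset.mem_univ Z.p)
  have hsum : ∑ i ∈ (Finset.univ : Finset (Fin r)).erase Z.p,
      PowerSeries.C (algebraMap k K (Z.c i)) * θ (PowerSeries.C (v i)) ^ n =
      ∑ i ∈ (Finset.univ : Finset (Fin r)).erase Z.p, PowerSeries.C (algebraMap k K (Z.c i)) * Vi Z v u x i ^ n := by
    refine Finset.sum_congr rfl fun i hi => ?_
    rw [hval i (Finset.ne_of_mem_erase hi)]
  rw [hrelθ] at hsplit1
  have hSeq := hS.eq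
  rw [← hsplit2] at hSeq
  rw [hsum] at hsplit1
  have hkey : PowerSeries.C (algebraMap k K (Z.c Z.p)) * θ (PowerSeries.C (v Z.p)) ^ n =
      PowerSeries.C (algebraMap k K (Z.c Z.p)) * Vi Z v u x Z.p ^ n + PowerSeries.X * Vi Z v u x Z.e ^ 2 := by
    linear_combination hsplit1 - hSeq
  have hCC : PowerSeries.C (algebraMap k K (Z.c Z.p)) * PowerSeries.C (algebraMap k K (Z.c Z.p))⁻¹ = 1 := by
    rw [← map_mul, mul_inv_cancel₀ hc0, map_one]
  have hθp : θ (PowerSeries.C (v Z.p ^ n)) =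
      Vi Z v u x Z.p ^ n + PowerSeries.X * (Vi Z v u x Z.e ^ 2 * PowerSeries.C (algebraMap k K (Z.c Z.p))⁻¹) := by
    rw [← hpow]
    linear_combination PowerSeries.C (algebraMap k K (Z.c Z.p))⁻¹ * hkey +
      (Vi Z v u x Z.p ^ n - θ (PowerSeries.C (v Z.p)) ^ n) * hCC
  have hθe : θ (PowerSeries.C (v Z.e ^ 2 / algebraMap k K (Z.c Z.p))) =
      Vi Z v u x Z.e ^ 2 * PowerSeries.C (algebraMap k K (Z.c Z.p))⁻¹ := by
    rw [div_eq_mul_inv, map_mul, map_mul, map_pow, map_pow, hval Z.e Z.pe.symm, ← map_inv₀ (algebraMap k K), hθC]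
  refine root_unique_ps hn ?_ ?_ ?_
  · rw [← map_pow, hB.eq, map_sub, map_mul, hθ.1, hθp, hθe]
    ring
  · rw [hθ.2, hB.v0, hccV]
  · rw [hccV]; exact hvn0 _

end Pool.Agent.Lib.MP_4318ff_ag
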