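import Pool.Agent.Lib.MP_4318ff_ag.Spec.X1
import Pool.Agent.Lib.MP_4318ff_ag.LA.Pnt
import Pool.Agent.Lib.MP_4318ff_ag.LA.Bas

/-!
# MP_4318ff_ag, folder X: configurations with 4 lines, and linearly rigid configurations with 5 lines, carry the data `XData`
-/

set_option autoImplicit false

namespace Pool.Agent.Lib.MP_4318ff_ag

open scoped LinearAlgebra.Projectivization

/-- the fifth line -/
private theorem cl_fifth {r : ℕ} (hr : r = 5) (i j m f : Fin r) (hij : i ≠ j) (him : i ≠ m) (hjm : j ≠ m)
    (hfi : f ≠ i) (hfj : f ≠ j) (hfm : f ≠ m) :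
    ∃ g : Fin r, g ≠ i ∧ g ≠ j ∧ g ≠ m ∧ g ≠ f ∧ ∀ l, l = i ∨ l = j ∨ l = m ∨ l = f ∨ l = g := by
  classical
  have hc : ({i, j, m, f} : Finset (Fin r)).card = 4 := by
    rw [Finset.card_insert_of_notMem, Finset.card_insert_of_notMem, Finset.card_insert_of_notMem,
      Finset.card_singleton]
    · simp [hfm.symm]
    · simp [hjm, hfj.symm]
    · simp [hij, him, hfi.symm]
  have h1 : (({i, j, m, f} : Finset (Fin r))ᶜ).card = 1 := by
    rw [Finset.card_compl, hc, Fintype.card_fin, hr]
  obtain ⟨g, hg⟩ := Finset.card_eq_one.1 h1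
  have h2 : g ∈ ({i, j, m, f} : Finset (Fin r))ᶜ := by
    rw [hg]
    exact Finset.mem_singleton_self g
  rw [Finset.mem_compl] at h2
  simp only [Finset.mem_insert, Finset.mem_singleton, not_or] at h2
  refine ⟨g, h2.1, h2.2.1, h2.2.2.1, h2.2.2.2, fun l => ?_⟩
  by_cases hl : l ∈ ({i, j, m, f} : Finset (Fin r))
  · simp only [Finset.mem_insert, Finset.mem_singleton] at hl
    tauto
  · have h3 : l ∈ ({i, j, m, f} : Finset (Fin r))ᶜ := Finset.mem_compl.2 hl
    rw [hg, Finset.mem_singleton] at h3
    tauto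

private theorem cl_fourth {r : ℕ} (hr : r = 4) (i j m f : Fin r) (hij : i ≠ j) (him : i ≠ m) (hjm : j ≠ m)
    (hfi : f ≠ i) (hfj : f ≠ j) (hfm : f ≠ m) (l : Fin r) : l = i ∨ l = j ∨ l = m ∨ l = f := by
  classical
  have hc : ({i, j, m, f} : Finset (Fin r)).card = 4 := by
    rw [Finset.card_insert_of_notMem, Finset.card_insert_of_notMem, Finset.card_insert_of_notMem,
      Finset.card_singleton]
    · simp [hfm.symm]
    · simp [hjm, hfj.symm]
    · simp [hij, him, hfi.symm]
  have h1 : ({i, j, m, f} : Finset (Fin r)) = Finset.univ := by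
    rw [← Finset.card_eq_iff_eq_univ, hc, Fintype.card_fin, hr]
  have h2 := Finset.mem_univ l
  rw [← h1] at h2
  simpa only [Finset.mem_insert, Finset.mem_singleton] using h2

variable {k : Type} [Field k] {r : ℕ}

/-- three lines: independent or concurrent -/
private theorem cl_ind (C : Config k r) (i j m : Fin r) (hij : i ≠ j) (him : i ≠ m) (hjm : j ≠ m) :
    LinearIndependent k ![C.ℓ i, C.ℓ j, C.ℓ m] ∨
      ∃ P ∈ C.M, i ∈ C.through P ∧ j ∈ C.through P ∧ m ∈ C.through P := by
  by_cases h : LinearIndependent k ![C.ℓ i, C.ℓ j, C.ℓ m]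
  · exact Or.inl h
  right
  have hdet : (Matrix.of ![C.ℓ i, C.ℓ j, C.ℓ m]).det = 0 := by
    by_contra h0
    exact h (Matrix.linearIndependent_rows_of_det_ne_zero h0)
  rw [← Matrix.exists_mulVec_eq_zero_iff] at hdet
  obtain ⟨v, hv0, hv⟩ := hdet
  have h1 : C.ℓ i ⬝ᵥ v = 0 := congrFun hv 0
  have h2 : C.ℓ j ⬝ᵥ v = 0 := congrFun hv 1
  have h3 : C.ℓ m ⬝ᵥ v = 0 := congrFun hv 2
  obtain ⟨a, ha⟩ := Projectivization.exists_smul_eq_mk_rep k v hv0
  have key : ∀ l : Fin r, C.ℓ l ⬝ᵥ v = 0 → l ∈ C.through (Projectivization.mk k v hv0) := by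
    intro l hl
    change C.ℓ l ⬝ᵥ (Projectivization.mk k v hv0).rep = 0
    rw [← ha]
    change C.ℓ l ⬝ᵥ ((a : k) • v) = 0
    rw [dotProduct_smul, hl, smul_zero]
  refine ⟨Projectivization.mk k v hv0, ?_, key i h1, key j h2, key m h3⟩
  have h4 : ({i, j, m} : Set (Fin r)) ⊆ C.through (Projectivization.mk k v hv0) := by
    rintro l (rfl | rfl | rfl)
    · exact key _ h1
    · exact key _ h2
    · exact key _ h3
  have h5 := Set.ncard_le_ncard h4 (Set.toFinite _)
  have h6 : ({i, j, m} : Set (Fin r)).ncard = 3 := by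
    rw [Set.ncard_eq_three]
    exact ⟨_, _, _, hij, him, hjm, rfl⟩
  rw [h6] at h5
  exact h5

/-- three independent forms are a basis -/
private theorem cl_bas {a b c : Fin 3 → k} (h : LinearIndependent k ![a, b, c]) (v : Fin 3 → k) :
    ∃ x y z : k, v = x • a + y • b + z • c := by
  have hs : Submodule.span k (Set.range ![a, b, c]) = ⊤ :=
    h.span_eq_top_of_card_eq_finrank (by simp)
  have hv : v ∈ Submodule.span k (Set.range ![a, b, c]) := by
    rw [hs]
    trivial
  rw [Submodule.mem_span_range_iff_exists_fun] at hv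
  obtain ⟨x, hx⟩ := hv
  refine ⟨x 0, x 1, x 2, ?_⟩
  rw [← hx, Fin.sum_univ_three]
  rfl

private theorem cl_li3 {a b c : Fin 3 → k} (h : LinearIndependent k ![a, b, c]) {x y z : k}
    (h0 : x • a + y • b + z • c = 0) : x = 0 ∧ y = 0 ∧ z = 0 := by
  rw [Fintype.linearIndependent_iff] at h
  have h1 := h ![x, y, z] (by rw [Fin.sum_univ_three]; exact h0)
  exact ⟨h1 0, h1 1, h1 2⟩

private theorem cl_li3' {a b c : Fin 3 → k} (h : LinearIndependent k ![a, b, c]) {x y z x' y' z' : k}
    (h0 : x • a + y • b + z • c = x' • a + y' • b + z' • c) : x = x' ∧ y = y' ∧ z = z' := by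
  have h1 : (x - x') • a + (y - y') • b + (z - z') • c = 0 := by
    rw [sub_smul, sub_smul, sub_smul]
    rw [← sub_eq_zero] at h0
    rw [← h0]
    abel
  obtain ⟨h2, h3, h4⟩ := cl_li3 h h1
  exact ⟨sub_eq_zero.1 h2, sub_eq_zero.1 h3, sub_eq_zero.1 h4⟩

private theorem cl_li2 {a b : Fin 3 → k} (h : LinearIndependent k ![a, b]) {x y x' y' : k}
    (h0 : x • a + y • b = x' • a + y' • b) : x = x' ∧ y = y' := by
  rw [LinearIndependent.pair_iff] at h
  obtain ⟨h1, h2⟩ := h (x - x') (y - y') (by
    rw [sub_smul, sub_smul]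
    rw [← sub_eq_zero] at h0
    rw [← h0]
    abel)
  exact ⟨sub_eq_zero.1 h1, sub_eq_zero.1 h2⟩

/-- Linear rigidity (`Config.LinRigid` of Spec/LR). -/
private def Config.LinRigid' (C : Config k r) : Prop :=
  ∀ β : Fin r → Fin 3 → k,
    (∀ P ∈ C.M, ∃ w : Fin 3 → k, ∀ i ∈ C.through P, β i ⬝ᵥ P.rep + C.ℓ i ⬝ᵥ w = 0 ∧ β i ⬝ᵥ w = 0) →
    ∃ (B : Matrix (Fin 3) (Fin 3) k) (s : Fin r → k), ∀ i, β i = Matrix.vecMul (C.ℓ i) B + s i • C.ℓ i

/-- The data for a triple point. -/
private theorem cl_triple (C : Config k r) (P : Pt k) (hP : P ∈ C.M) (o p e f : Fin r) (hpo : p ≠ o) (hpe : p ≠ e)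
    (hoe : o ≠ e) (ho : o ∈ C.through P) (hp : p ∈ C.through P) (he : e ∈ C.through P) (hf : f ∉ C.through P)
    (hoth : ∀ i, i ≠ o → i ≠ p → i ≠ e → i ≠ f → ∃ x y : k, C.ℓ i = x • C.ℓ o + y • C.ℓ f)
    (hpts : ∀ T ∈ C.M, o ∈ C.through T ∧ (e ∈ C.through T ∨ f ∈ C.through T)) : Nonempty (XData C) := by
  classical
  have hbas := tBas tPnt k r C
  have hpnt := tPnt k
  obtain ⟨x, y, hx, hy, hxy⟩ := hbas.2.1 P o e p ho he hp hoe hpo.symm hpe.symm
  have hfo : f ≠ o := fun h => hf (h ▸ ho)
  have hfp : f ≠ p := fun h => hf (h ▸ hp)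
  have hfe : f ≠ e := fun h => hf (h ▸ he)
  set c : Fin r → k := Pi.single o x + Pi.single e y + Pi.single p (-1) with hc
  have co : c o = x := by
    simp [hc, Pi.single_apply, hoe, hpo.symm]
  have ce : c e = y := by
    simp [hc, Pi.single_apply, hoe.symm, hpe.symm]
  have cp : c p = -1 := by
    simp [hc, Pi.single_apply, hpo, hpe]
  have c0 : ∀ i, i ≠ o → i ≠ p → i ≠ e → c i = 0 := by
    intro i h1 h2 h3
    simp [hc, Pi.single_apply, h1, h2, h3]
  have hrep : ∀ u : Chart C, ∃ s t : k, u.a P = s • C.ℓ p + t • C.ℓ e := by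
    intro u
    exact hpnt.2.1 P (C.ℓ p) (C.ℓ e) (u.a P) (C.indep p e hpe) hp he (u.a_through P hP)
  choose s t hst using hrep
  have li : LinearIndependent k ![C.ℓ o, C.ℓ e, C.ℓ f] := by
    rw [Fintype.linearIndependent_iff]
    intro g hg
    rw [Fin.sum_univ_three] at hg
    change g 0 • C.ℓ o + g 1 • C.ℓ e + g 2 • C.ℓ f = 0 at hg
    have h1 := congrArg (fun v : Fin 3 → k => v ⬝ᵥ P.rep) hg
    have h2 : C.ℓ o ⬝ᵥ P.rep = 0 := ho
    have h3 : C.ℓ e ⬝ᵥ P.rep = 0 := he
    have h4 : C.ℓ f ⬝ᵥ P.rep ≠ 0 := hf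
    simp only [add_dotProduct, smul_dotProduct, h2, h3, smul_zero, zero_add, zero_dotProduct] at h1
    have h5 : g 2 = 0 := (smul_eq_zero.1 h1).resolve_right h4
    rw [h5, zero_smul, add_zero] at hg
    have h6 := (LinearIndependent.pair_iff.1 (C.indep o e hoe)) _ _ hg
    intro i
    fin_cases i
    · exact h6.1
    · exact h6.2
    · exact h5
  refine ⟨{
    o := o, p := p, e := e, f := f, c := c, li := li, po := hpo, pe := hpe, pf := hfp.symm
    co := by rw [co]; exact hx
    cp := by rw [cp]; exact neg_ne_zero.2 one_ne_zero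
    ce := by rw [ce]; exact hy
    rel := ?_
    other := fun i h1 h2 h3 h4 => ⟨c0 i h1 h2 h3, c0 f hfo hfp hfe, hoth i h1 h2 h3 h4⟩
    pts := hpts
    a := fun u => u.a P
    al := fun u => Pi.single p (-s u) + Pi.single e (t u / y)
    a_ne := fun u => u.a_ne P hP
    al_o := fun u => by simp [Pi.single_apply, hoe, hpo.symm]
    al_c := ?_
    a_eq := ?_
    a_R := ?_ }⟩
  · simp only [hc, Pi.add_apply, add_smul, Finset.sum_add_distrib, Pi.single_apply, ite_smul, zero_smul,
      Finset.sum_ite_eq', Finset.mem_univ, if_true]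
    rw [hxy]
    module
  · intro u i hi
    have h1 : i ≠ p := by
      rintro rfl
      rw [cp] at hi
      exact one_ne_zero (neg_eq_zero.1 hi)
    have h2 : i ≠ e := by
      rintro rfl
      rw [ce] at hi
      exact hy hi
    simp [Pi.single_apply, h1, h2]
  · intro u
    have h1 : ∀ i, c i * (Pi.single p (-s u) + Pi.single e (t u / y) : Fin r → k) i =
        (Pi.single p (s u) + Pi.single e (t u) : Fin r → k) i := by
      intro i
      by_cases hip : i = p
      · rw [hip, cp]
        simp [Pi.single_apply, hpe]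
      · by_cases hie : i = e
        · rw [hie, ce]
          simp [Pi.single_apply, hpe.symm]
          field_simp
        · simp [Pi.single_apply, hip, hie]
    have h2 : ∑ i, (c i * (Pi.single p (-s u) + Pi.single e (t u / y) : Fin r → k) i) • C.ℓ i =
        ∑ i, (Pi.single p (s u) + Pi.single e (t u) : Fin r → k) i • C.ℓ i :=
      Finset.sum_congr rfl fun i _ => by rw [h1 i]
    refine Eq.trans ?_ h2.symm
    simp only [Pi.add_apply, add_smul, Finset.sum_add_distrib, Pi.single_apply, ite_smul, zero_smul,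
      Finset.sum_ite_eq', Finset.mem_univ, if_true]
    exact hst u
  · intro u i hi
    have h1 : i ∈ C.through P := by
      by_contra hcon
      apply hi
      exact c0 i (fun h => hcon (h ▸ ho)) (fun h => hcon (h ▸ hp)) (fun h => hcon (h ▸ he))
    exact Algebra.subset_adjoin (Or.inr ⟨P, hP, C.ℓ i, h1, rfl⟩)

/-- The data for four lines in general position. -/
private theorem cl_general (C : Config k r) (hM : ∀ P, P ∉ C.M) (o p e f : Fin r) (hpo : p ≠ o) (hpe : p ≠ e)
    (hpf : p ≠ f) (hoe : o ≠ e) (hof : o ≠ f) (hef : e ≠ f) (hall : ∀ i, i = o ∨ i = p ∨ i = e ∨ i = f) :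
    Nonempty (XData C) := by
  classical
  have hind : ∀ i j m : Fin r, i ≠ j → i ≠ m → j ≠ m → LinearIndependent k ![C.ℓ i, C.ℓ j, C.ℓ m] := by
    intro i j m h1 h2 h3
    rcases cl_ind C i j m h1 h2 h3 with h | ⟨P, hP, -⟩
    · exact h
    · exact absurd hP (hM P)
  have hpef := hind p e f hpe hpf hef
  obtain ⟨α, β, γ, hl⟩ := cl_bas hpef (C.ℓ o)
  have hα : α ≠ 0 := by
    rintro rfl
    have h1 := cl_li3 (x := 1) (y := -β) (z := -γ) (hind o e f hoe hof hef) (by rw [hl]; module)
    exact one_ne_zero h1.1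
  have hβ : β ≠ 0 := by
    rintro rfl
    have h1 := cl_li3 (x := 1) (y := -α) (z := -γ) (hind o p f hpo.symm hof hpf) (by rw [hl]; module)
    exact one_ne_zero h1.1
  have hγ : γ ≠ 0 := by
    rintro rfl
    have h1 := cl_li3 (x := 1) (y := -α) (z := -β) (hind o p e hpo.symm hoe hpe) (by rw [hl]; module)
    exact one_ne_zero h1.1
  set c : Fin r → k := Pi.single o (-1) + Pi.single p α + Pi.single e β + Pi.single f γ with hc
  have co : c o = -1 := by
    simp [hc, Pi.single_apply, hoe, hpo.symm, hof]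
  have cp : c p = α := by
    simp [hc, Pi.single_apply, hpo, hpe, hpf]
  have ce : c e = β := by
    simp [hc, Pi.single_apply, hoe.symm, hpe.symm, hef]
  have cf : c f = γ := by
    simp [hc, Pi.single_apply, hof.symm, hpf.symm, hef.symm]
  have cne : ∀ i, c i ≠ 0 := by
    intro i
    rcases hall i with rfl | rfl | rfl | rfl
    · rw [co]
      exact neg_ne_zero.2 one_ne_zero
    · rw [cp]
      exact hα
    · rw [ce]
      exact hβ
    · rw [cf]
      exact hγ
  have hrep : ∀ u : Chart C, ∃ s t w : k, u.b = s • C.ℓ p + t • C.ℓ e + w • C.ℓ f := fun u => cl_bas hpef u.b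
  choose s t w hst using hrep
  refine ⟨{
    o := o, p := p, e := e, f := f, c := c, li := hind o e f hoe hof hef, po := hpo, pe := hpe, pf := hpf
    co := cne o
    cp := cne p
    ce := cne e
    rel := ?_
    other := fun i h1 h2 h3 h4 => by
      rcases hall i with h | h | h | h
      · exact absurd h h1
      · exact absurd h h2
      · exact absurd h h3
      · exact absurd h h4
    pts := fun T hT => absurd hT (hM T)
    a := fun u => u.b
    al := fun u => Pi.single p (s u / α) + Pi.single e (t u / β) + Pi.single f (w u / γ)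
    a_ne := fun u => u.b_ne
    al_o := fun u => by simp [Pi.single_apply, hoe, hpo.symm, hof]
    al_c := fun u i hi => absurd hi (cne i)
    a_eq := ?_
    a_R := fun u i _ => Algebra.subset_adjoin (Or.inl ⟨C.ℓ i, rfl⟩) }⟩
  · simp only [hc, Pi.add_apply, add_smul, Finset.sum_add_distrib, Pi.single_apply, ite_smul, zero_smul,
      Finset.sum_ite_eq', Finset.mem_univ, if_true]
    rw [hl]
    module
  · intro u
    have h1 : ∀ i, c i * (Pi.single p (s u / α) + Pi.single e (t u / β) + Pi.single f (w u / γ) : Fin r → k) i =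
        (Pi.single p (s u) + Pi.single e (t u) + Pi.single f (w u) : Fin r → k) i := by
      intro i
      rcases hall i with h | h | h | h
      · rw [h, co]
        simp [Pi.single_apply, hpo.symm, hoe, hof]
      · rw [h, cp]
        simp [Pi.single_apply, hpe, hpf]
        field_simp
      · rw [h, ce]
        simp [Pi.single_apply, hpe.symm, hef]
        field_simp
      · rw [h, cf]
        simp [Pi.single_apply, hpf.symm, hef.symm]
        field_simp
    have h2 : ∑ i, (c i * (Pi.single p (s u / α) + Pi.single e (t u / β) + Pi.single f (w u / γ) : Fin r → k) i) • C.ℓ i =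
        ∑ i, (Pi.single p (s u) + Pi.single e (t u) + Pi.single f (w u) : Fin r → k) i • C.ℓ i :=
      Finset.sum_congr rfl fun i _ => by rw [h1 i]
    refine Eq.trans ?_ h2.symm
    simp only [Pi.add_apply, add_smul, Finset.sum_add_distrib, Pi.single_apply, ite_smul, zero_smul,
      Finset.sum_ite_eq', Finset.mem_univ, if_true]
    exact hst u

/-- eigenforms `a`, `b`, `x a + y b` have the same eigenvalue -/
private theorem cl_eig {B : Matrix (Fin 3) (Fin 3) k} {a b c : Fin 3 → k} (h : LinearIndependent k ![a, b])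
    {x y α β γ : k} (hx : x ≠ 0) (hy : y ≠ 0) (hc : c = x • a + y • b) (ha : Matrix.vecMul a B = α • a)
    (hb : Matrix.vecMul b B = β • b) (hcc : Matrix.vecMul c B = γ • c) : α = γ ∧ β = γ := by
  rw [hc, Matrix.add_vecMul, Matrix.smul_vecMul, Matrix.smul_vecMul, ha, hb] at hcc
  have h1 : (x * α) • a + (y * β) • b = (γ * x) • a + (γ * y) • b := by
    rw [mul_smul, mul_smul, hcc]
    module
  obtain ⟨h2, h3⟩ := cl_li2 h h1
  constructor
  · rw [mul_comm γ x] at h2
    exact mul_left_cancel₀ hx h2
  · rw [mul_comm γ y] at h3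
    exact mul_left_cancel₀ hy h3

/-- the deformation moves only the line `i` in the direction `v` -/
private theorem cl_move (C : Config k r) (hC : C.LinRigid') (i : Fin r) (v : Fin 3 → k)
    (hv : ∀ P ∈ C.M, i ∈ C.through P → v ⬝ᵥ P.rep = 0) :
    ∃ (B : Matrix (Fin 3) (Fin 3) k) (s : Fin r → k), (∀ l, l ≠ i → Matrix.vecMul (C.ℓ l) B = (-s l) • C.ℓ l) ∧
      v = Matrix.vecMul (C.ℓ i) B + s i • C.ℓ i := by
  classical
  obtain ⟨B, s, h⟩ := hC (Function.update 0 i v) (by
    intro P hP
    refine ⟨0, fun l hl => ?_⟩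
    by_cases hli : l = i
    · rw [hli, Function.update_self, hv P hP (hli ▸ hl), dotProduct_zero, dotProduct_zero, add_zero]
      exact ⟨rfl, rfl⟩
    · rw [Function.update_of_ne hli, Pi.zero_apply, zero_dotProduct, dotProduct_zero, dotProduct_zero, add_zero]
      exact ⟨rfl, rfl⟩)
  refine ⟨B, s, fun l hl => ?_, ?_⟩
  · have h1 := h l
    rw [Function.update_of_ne hl, Pi.zero_apply] at h1
    rw [neg_smul]
    exact eq_neg_of_add_eq_zero_left h1.symm
  · have h1 := h i
    rw [Function.update_self] at h1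
    exact h1

private theorem cl_par (C : Config k r) {i j : Fin r} (h : i ≠ j) {x : k} (h1 : C.ℓ i = x • C.ℓ j) : False := by
  have h2 := (LinearIndependent.pair_iff.1 (C.indep i j h)) 1 (-x) (by rw [one_smul, h1, neg_smul, add_neg_cancel])
  exact one_ne_zero h2.1

/-- Four lines through a point: not rigid. -/
private theorem cl_four (C : Config k r) (hC : C.LinRigid') (P : Pt k) (i j m g : Fin r) (hij : i ≠ j) (him : i ≠ m)
    (hjm : j ≠ m) (hgi : g ≠ i) (hgj : g ≠ j) (hgm : g ≠ m) (hi : i ∈ C.through P) (hj : j ∈ C.through P)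
    (hm : m ∈ C.through P) (hg : g ∈ C.through P) (hM : ∀ T ∈ C.M, T = P) : False := by
  have hbas := tBas tPnt k r C
  obtain ⟨B, s, h1, h2⟩ := cl_move C hC i (C.ℓ j) (by
    intro T hT _
    rw [hM T hT]
    exact hj)
  obtain ⟨x, y, hx, hy, hxy⟩ := hbas.2.1 P j m g hj hm hg hjm hgj.symm hgm.symm
  obtain ⟨e1, e2⟩ := cl_eig (C.indep j m hjm) hx hy hxy (h1 j hij.symm) (h1 m him.symm) (h1 g hgi)
  obtain ⟨x', y', -, -, hxy'⟩ := hbas.2.1 P j m i hj hm hi hjm hij.symm him.symm
  have h3 : Matrix.vecMul (C.ℓ i) B = (-s g) • C.ℓ i := by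
    rw [hxy', Matrix.add_vecMul, Matrix.smul_vecMul, Matrix.smul_vecMul, h1 j hij.symm, h1 m him.symm, e1, e2]
    module
  rw [h3, ← add_smul] at h2
  exact cl_par C hij.symm h2

/-- Exactly one triple point and five lines: not rigid. -/
private theorem cl_one (C : Config k r) (hC : C.LinRigid') (P : Pt k) (i j m f g : Fin r) (hij : i ≠ j) (him : i ≠ m)
    (hjm : j ≠ m) (hfg : f ≠ g) (hi : i ∈ C.through P) (hj : j ∈ C.through P) (hm : m ∈ C.through P)
    (hf : f ∉ C.through P) (hg : g ∉ C.through P) (hM : ∀ T ∈ C.M, T = P) : False := by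
  have hbas := tBas tPnt k r C
  have hfi : f ≠ i := fun h => hf (h ▸ hi)
  have hfj : f ≠ j := fun h => hf (h ▸ hj)
  have hfm : f ≠ m := fun h => hf (h ▸ hm)
  have hgi : g ≠ i := fun h => hg (h ▸ hi)
  have hgj : g ≠ j := fun h => hg (h ▸ hj)
  have hgm : g ≠ m := fun h => hg (h ▸ hm)
  have hijg : LinearIndependent k ![C.ℓ i, C.ℓ j, C.ℓ g] := by
    rcases cl_ind C i j g hij hgi.symm hgj.symm with h | ⟨T, hT, -, -, h⟩
    · exact h
    · rw [hM T hT] at h
      exact absurd h hg
  obtain ⟨x, y, hx, hy, hxy⟩ := hbas.2.1 P i j m hi hj hm hij him hjm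
  obtain ⟨a, b, c, habc⟩ := cl_bas hijg (C.ℓ f)
  -- the common computation
  have key : ∀ v : Fin 3 → k, ∃ α β : k, v ⬝ᵥ (0 : Fin 3 → k) = 0 ∧
      v = (α * a) • C.ℓ i + (α * b) • C.ℓ j + β • C.ℓ g := by
    intro v
    obtain ⟨B, s, h1, h2⟩ := cl_move C hC f v (by
      intro T hT hT'
      rw [hM T hT] at hT'
      exact absurd hT' hf)
    obtain ⟨e1, e2⟩ := cl_eig (C.indep i j hij) hx hy hxy (h1 i hfi.symm) (h1 j hfj.symm) (h1 m hfm.symm)
    refine ⟨-s m + s f, (-s g + s f) * c, dotProduct_zero v, ?_⟩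
    rw [h2, habc, Matrix.add_vecMul, Matrix.add_vecMul, Matrix.smul_vecMul, Matrix.smul_vecMul, Matrix.smul_vecMul,
      h1 i hfi.symm, h1 j hfj.symm, h1 g hfg.symm, e1, e2]
    module
  obtain ⟨α, β, -, h3⟩ := key (C.ℓ i)
  obtain ⟨α', β', -, h4⟩ := key (C.ℓ j)
  obtain ⟨h5, h6, -⟩ := cl_li3' (x := 1) (y := 0) (z := 0) hijg (by rw [← h3]; module)
  obtain ⟨h7, h8, -⟩ := cl_li3' (x := 0) (y := 1) (z := 0) hijg (by rw [← h4]; module)
  have h9 : α ≠ 0 := by
    rintro rfl
    rw [zero_mul] at h5
    exact one_ne_zero h5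
  have h10 : b = 0 := (mul_eq_zero.1 h6.symm).resolve_left h9
  rw [h10, mul_zero] at h8
  exact one_ne_zero h8

/-- Five lines in general position: not rigid. -/
private theorem cl_zero (C : Config k r) (hC : C.LinRigid') (hM : ∀ P, P ∉ C.M) (i j m f g : Fin r) (hij : i ≠ j)
    (him : i ≠ m) (hjm : j ≠ m) (hfi : f ≠ i) (hfj : f ≠ j) (hfm : f ≠ m) (hgi : g ≠ i) (hgj : g ≠ j) (hgm : g ≠ m)
    (hgf : g ≠ f) : False := by
  have hind : ∀ i j m : Fin r, i ≠ j → i ≠ m → j ≠ m → LinearIndependent k ![C.ℓ i, C.ℓ j, C.ℓ m] := by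
    intro i j m h1 h2 h3
    rcases cl_ind C i j m h1 h2 h3 with h | ⟨P, hP, -⟩
    · exact h
    · exact absurd hP (hM P)
  have hijm := hind i j m hij him hjm
  obtain ⟨a, b, c, habc⟩ := cl_bas hijm (C.ℓ f)
  have ha : a ≠ 0 := by
    rintro rfl
    have h1 := cl_li3 (x := 1) (y := -b) (z := -c) (hind f j m hfj hfm hjm) (by rw [habc]; module)
    exact one_ne_zero h1.1
  have hb : b ≠ 0 := by
    rintro rfl
    have h1 := cl_li3 (x := 1) (y := -a) (z := -c) (hind f i m hfi hfm him) (by rw [habc]; module)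
    exact one_ne_zero h1.1
  have hc : c ≠ 0 := by
    rintro rfl
    have h1 := cl_li3 (x := 1) (y := -a) (z := -b) (hind f i j hfi hfj hij) (by rw [habc]; module)
    exact one_ne_zero h1.1
  obtain ⟨B, s, h1, h2⟩ := cl_move C hC g (C.ℓ i) (fun T hT _ => absurd hT (hM T))
  have h3 := h1 f hgf.symm
  rw [habc, Matrix.add_vecMul, Matrix.add_vecMul, Matrix.smul_vecMul, Matrix.smul_vecMul, Matrix.smul_vecMul,
    h1 i hgi.symm, h1 j hgj.symm, h1 m hgm.symm] at h3
  obtain ⟨e1, e2, e3⟩ := cl_li3' (x := a * -s i) (y := b * -s j) (z := c * -s m) (x' := -s f * a) (y' := -s f * b)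
    (z' := -s f * c) hijm (by
      rw [mul_smul, mul_smul, mul_smul, h3]
      module)
  rw [mul_comm] at e1 e2 e3
  have e1' := mul_right_cancel₀ ha e1
  have e2' := mul_right_cancel₀ hb e2
  have e3' := mul_right_cancel₀ hc e3
  obtain ⟨a', b', c', habc'⟩ := cl_bas hijm (C.ℓ g)
  have h4 : Matrix.vecMul (C.ℓ g) B = (-s f) • C.ℓ g := by
    rw [habc', Matrix.add_vecMul, Matrix.add_vecMul, Matrix.smul_vecMul, Matrix.smul_vecMul, Matrix.smul_vecMul,
      h1 i hgi.symm, h1 j hgj.symm, h1 m hgm.symm, e1', e2', e3']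
    module
  rw [h4, ← add_smul] at h2
  exact cl_par C hgi.symm h2

theorem tCl : ClStmt := by
  intro k _ _ r C hC hr
  have hbas := tBas tPnt k r C
  rcases hr with hr | hr
  · -- four lines
    by_cases hM : ∃ P, P ∈ C.M
    · obtain ⟨P, hP⟩ := hM
      obtain ⟨i, hi, j, hj, m, hm, hij, him, hjm⟩ := hbas.2.2.1 P hP
      obtain ⟨f, hf⟩ := hbas.2.2.2.2.2 P
      have hfi : f ≠ i := fun h => hf (h ▸ hi)
      have hfj : f ≠ j := fun h => hf (h ▸ hj)
      have hfm : f ≠ m := fun h => hf (h ▸ hm)
      have hall := cl_fourth hr i j m f hij him hjm hfi hfj hfm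
      have hin : ∀ l, l ≠ f → l ∈ C.through P := by
        intro l hl
        rcases hall l with h | h | h | h
        · exact h ▸ hi
        · exact h ▸ hj
        · exact h ▸ hm
        · exact absurd h hl
      have huniq : ∀ T ∈ C.M, T = P := by
        intro T hT
        obtain ⟨a, ha, ha1, -⟩ := hbas.2.2.2.1 T hT f f
        obtain ⟨b, hb, hb1, hb2⟩ := hbas.2.2.2.1 T hT f a
        exact hbas.1 a b T P hb2.symm ha hb (hin a ha1) (hin b hb1)
      refine cl_triple C P hP i j m f hij.symm hjm him hi hj hm hf ?_ ?_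
      · intro l h1 h2 h3 h4
        rcases hall l with h | h | h | h
        · exact absurd h h1
        · exact absurd h h2
        · exact absurd h h3
        · exact absurd h h4
      · intro T hT
        rw [huniq T hT]
        exact ⟨hi, Or.inl hm⟩
    · have hM' : ∀ P, P ∉ C.M := fun P hP => hM ⟨P, hP⟩
      subst hr
      exact cl_general C hM' 0 1 2 3 (by decide) (by decide) (by decide) (by decide) (by decide) (by decide)
        (by decide)
  · -- five lines
    by_cases hM : ∃ P, P ∈ C.M
    · obtain ⟨P, hP⟩ := hM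
      obtain ⟨i, hi, j, hj, m, hm, hij, him, hjm⟩ := hbas.2.2.1 P hP
      obtain ⟨f, hf⟩ := hbas.2.2.2.2.2 P
      have hfi : f ≠ i := fun h => hf (h ▸ hi)
      have hfj : f ≠ j := fun h => hf (h ▸ hj)
      have hfm : f ≠ m := fun h => hf (h ▸ hm)
      obtain ⟨g, hgi, hgj, hgm, hgf, hall⟩ := cl_fifth hr i j m f hij him hjm hfi hfj hfm
      by_cases hg : g ∈ C.through P
      · exfalso
        refine cl_four C hC P i j m g hij him hjm hgi hgj hgm hi hj hm hg ?_
        have hin : ∀ l, l ≠ f → l ∈ C.through P := by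
          intro l hl
          rcases hall l with h | h | h | h | h
          · exact h ▸ hi
          · exact h ▸ hj
          · exact h ▸ hm
          · exact absurd h hl
          · exact h ▸ hg
        intro T hT
        obtain ⟨a, ha, ha1, -⟩ := hbas.2.2.2.1 T hT f f
        obtain ⟨b, hb, hb1, hb2⟩ := hbas.2.2.2.1 T hT f a
        exact hbas.1 a b T P hb2.symm ha hb (hin a ha1) (hin b hb1)
      · by_cases hT : ∃ T ∈ C.M, T ≠ P
        · obtain ⟨T, hT, hTP⟩ := hT
          have hother : ∀ S ∈ C.M, S ≠ P → f ∈ C.through S ∧ g ∈ C.through S ∧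
              ∃ o ∈ C.through S, (o = i ∨ o = j ∨ o = m) := by
            intro S hS hSP
            obtain ⟨o, ho, hof, hog⟩ := hbas.2.2.2.1 S hS f g
            have ho' : o = i ∨ o = j ∨ o = m := by
              rcases hall o with h | h | h | h | h
              · exact Or.inl h
              · exact Or.inr (Or.inl h)
              · exact Or.inr (Or.inr h)
              · exact absurd h hof
              · exact absurd h hog
            have hoP : o ∈ C.through P := by
              rcases ho' with h | h | h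
              · exact h ▸ hi
              · exact h ▸ hj
              · exact h ▸ hm
            have hnot : ∀ l ∈ C.through S, l ≠ o → l ∉ C.through P := by
              intro l hl hlo hlP
              exact hSP (hbas.1 l o S P hlo hl ho hlP hoP)
            have hfg : ∀ l ∈ C.through S, l ≠ o → l = f ∨ l = g := by
              intro l hl hlo
              have h0 := hnot l hl hlo
              rcases hall l with h | h | h | h | h
              · exact absurd (h ▸ hi) h0
              · exact absurd (h ▸ hj) h0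
              · exact absurd (h ▸ hm) h0
              · exact Or.inl h
              · exact Or.inr h
            obtain ⟨a, ha, hao, haf⟩ := hbas.2.2.2.1 S hS o f
            obtain ⟨b, hb, hbo, hbg⟩ := hbas.2.2.2.1 S hS o g
            have ha' : a = g := (hfg a ha hao).resolve_left haf
            have hb' : b = f := (hfg b hb hbo).resolve_right hbg
            exact ⟨hb' ▸ hb, ha' ▸ ha, o, ho, ho'⟩
          obtain ⟨hfT, hgT, o, hoT, ho⟩ := hother T hT hTP
          have huniq : ∀ S ∈ C.M, S ≠ P → S = T := by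
            intro S hS hSP
            obtain ⟨h1, h2, -⟩ := hother S hS hSP
            exact hbas.1 f g S T hgf.symm h1 h2 hfT hgT
          have hgo : ∀ o' : Fin r, o' ∈ C.through T → o' ∈ C.through P →
              ∃ x y : k, C.ℓ g = x • C.ℓ o' + y • C.ℓ f := by
            intro o' h1 h2
            obtain ⟨x, y, -, -, h3⟩ := hbas.2.1 T o' f g h1 hfT hgT (fun h => hf (h ▸ h2))
              (fun h => hg (h ▸ h2)) hgf.symm
            exact ⟨x, y, h3⟩
          have hpts : ∀ o' e' : Fin r, o' ∈ C.through T → o' ∈ C.through P → e' ∈ C.through P →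
              ∀ S ∈ C.M, o' ∈ C.through S ∧ (e' ∈ C.through S ∨ f ∈ C.through S) := by
            intro o' e' h1 h2 h3 S hS
            by_cases hSP : S = P
            · rw [hSP]
              exact ⟨h2, Or.inl h3⟩
            · rw [huniq S hS hSP]
              exact ⟨h1, Or.inr hfT⟩
          rcases ho with h | h | h
          · subst h
            refine cl_triple C P hP o j m f hij.symm hjm him hi hj hm hf ?_ (hpts o m hoT hi hm)
            intro l h1 h2 h3 h4
            rcases hall l with h | h | h | h | h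
            · exact absurd h h1
            · exact absurd h h2
            · exact absurd h h3
            · exact absurd h h4
            · rw [h]
              exact hgo o hoT hi
          · subst h
            refine cl_triple C P hP o i m f hij him hjm hj hi hm hf ?_ (hpts o m hoT hj hm)
            intro l h1 h2 h3 h4
            rcases hall l with h | h | h | h | h
            · exact absurd h h2
            · exact absurd h h1
            · exact absurd h h3
            · exact absurd h h4
            · rw [h]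
              exact hgo o hoT hj
          · subst h
            refine cl_triple C P hP o i j f him hij hjm.symm hm hi hj hf ?_ (hpts o j hoT hm hj)
            intro l h1 h2 h3 h4
            rcases hall l with h | h | h | h | h
            · exact absurd h h2
            · exact absurd h h3
            · exact absurd h h1
            · exact absurd h h4
            · rw [h]
              exact hgo o hoT hm
        · exfalso
          refine cl_one C hC P i j m f g hij him hjm hgf.symm hi hj hm hf hg ?_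
          intro T hT'
          by_contra hne
          exact hT ⟨T, hT', hne⟩
    · exfalso
      have hM' : ∀ P, P ∉ C.M := fun P hP => hM ⟨P, hP⟩
      subst hr
      exact cl_zero C hC hM' 0 1 2 3 4 (by decide) (by decide) (by decide) (by decide) (by decide) (by decide)
        (by decide) (by decide) (by decide) (by decide)

end Pool.Agent.Lib.MP_4318ff_ag
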