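import Pool.Agent.Lib.MP_4318ff_ag.Spec.X1
import Pool.Agent.Lib.MP_4318ff_ag.X.Pcs

/-!
MP_4318ff_ag, module X/Lam: the main order computation.
-/

set_option autoImplicit false

namespace Pool.Agent.Lib.MP_4318ff_ag

private theorem xlam_scale {k : Type} [Field k] (h1 : EvStmt) (O : Subalgebra k (F k))
    (b c : Fin 3 → k) (a : k) (hb : UnitForm O b) (hc : c ≠ 0) (h : a • c = b) : UnitForm O c := by
  refine ⟨hc, fun d => ?_⟩
  have ha : a ≠ 0 := by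
    rintro rfl
    rw [zero_smul] at h
    exact hb.1 h.symm
  have ha' : algebraMap k (F k) a ≠ 0 := by
    rw [Ne, map_eq_zero]
    exact ha
  have hev : ev b = algebraMap k (F k) a * ev c := by
    rw [← h]
    exact (h1 k).2.1 a c
  have h2 : ev d / ev c = algebraMap k (F k) a * (ev d / ev b) := by
    rw [hev, mul_div_assoc', mul_div_mul_left _ _ ha']
  rw [h2]
  exact O.mul_mem (O.algebraMap_mem a) (hb.2 d)

/-- The orders of the lines at the curve `O`. -/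
theorem xlam_ord {k : Type} [Field k] {r : ℕ} (C : Config k r) (h1 : EvStmt) (h3 : CurveStmt)
    (O : Subalgebra k (F k)) (b : Fin 3 → k) (hO : IsCurve O) (hb : UnitForm O b)
    (hne : ∀ l, C.ℓ l ≠ 0) :
    ∃ (π : F k) (ε : Fin r → ℤ) (u : Fin r → F k), IsUnif O π ∧ (∀ l, ε l = 0 ∨ ε l = 1) ∧
      (∀ l m, l ≠ m → ε l = 0 ∨ ε m = 0) ∧ (∀ l, UnitForm O (C.ℓ l) → ε l = 0) ∧
      (∀ l, u l ∈ O ∧ (u l)⁻¹ ∈ O ∧ ev (C.ℓ l) / ev b = π ^ (ε l) * u l) := by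
  classical
  obtain ⟨⟨π, hπ⟩, -, hc, -⟩ := h3 k O hO
  by_cases hall : ∀ l, UnitForm O (C.ℓ l)
  · refine ⟨π, fun _ => 0, fun l => ev (C.ℓ l) / ev b, hπ, fun _ => Or.inl rfl, fun _ _ _ => Or.inl rfl,
      fun _ _ => rfl, fun l => ⟨hb.2 _, ?_, ?_⟩⟩
    · rw [inv_div]
      exact (hall l).2 b
    · rw [zpow_zero, one_mul]
  · rw [not_forall] at hall
    obtain ⟨l₀, hl₀⟩ := hall
    have hd := (hc (C.ℓ l₀) (hne l₀)).resolve_left hl₀
    have hli : LinearIndependent k ![C.ℓ l₀, b] := by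
      rw [LinearIndependent.pair_iff' (hne l₀)]
      intro a ha
      exact hl₀ (xlam_scale h1 O b (C.ℓ l₀) a hb (hne l₀) ha)
    have hun : ∀ l, l ≠ l₀ → UnitForm O (C.ℓ l) := fun l hl =>
      (hd (C.ℓ l) (C.indep l₀ l (Ne.symm hl))).1
    refine ⟨ev (C.ℓ l₀) / ev b, fun l => if l = l₀ then 1 else 0,
      fun l => if l = l₀ then 1 else ev (C.ℓ l) / ev b, (hd b hli).2, fun l => ?_, fun l m hlm => ?_,
      fun l hl => ?_, fun l => ?_⟩
    · by_cases h : l = l₀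
      · right; exact if_pos h
      · left; exact if_neg h
    · by_cases h : l = l₀
      · right
        refine if_neg ?_
        rintro rfl
        exact hlm h
      · left
        exact if_neg h
    · refine if_neg ?_
      rintro rfl
      exact hl₀ hl
    · by_cases h : l = l₀
      · simp only [if_pos h]
        subst h
        refine ⟨O.one_mem, ?_, ?_⟩
        · rw [inv_one]
          exact O.one_mem
        · rw [zpow_one, mul_one]
      · simp only [if_neg h]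
        refine ⟨hb.2 _, ?_, ?_⟩
        · rw [inv_div]
          exact (hun l h).2 b
        · rw [zpow_zero, one_mul]

private theorem xlam_alg {L : Type} [Field L] (A B D E : L) (hD : D ≠ 0) :
    A * (B * D) * (E / D) = A * (B * E) := by
  field_simp

/-- The asymmetric form of the statement. -/
theorem xlam_core {k : Type} [Field k] {r n : ℕ} (C : Config k r) (h1 : EvStmt) (h2 : UnifStmt)
    (h3 : CurveStmt) (Z : XData C) (K : Type) [Field K] [Algebra (F k) K] [Algebra k K]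
    [IsScalarTower k (F k) K] (v : Fin r → K) (hn : 4 ≤ n) (hv : XRoots Z n v)
    (O : Subalgebra k (F k)) (b : Fin 3 → k) (i j : Fin r) (f : F k) (hO : IsCurve O)
    (hb : UnitForm O b) (hne : ∀ l, C.ℓ l ≠ 0) (hj : UnitForm O (C.ℓ j))
    (hw : v i / v j * (algebraMap (F k) K f * v Z.e ^ 2) ∈ ic K O) :
    f * (ev b / ev (C.ℓ Z.o)) ∈ O := by
  obtain ⟨π, ε, u, hπ, hε, hε2, hεu, hu⟩ := xlam_ord C h1 h3 O b hO hb hne
  obtain ⟨-, hint, -, hord⟩ := h2 k O π hπ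
  have hev : ∀ c : Fin 3 → k, c ≠ 0 → ev c ≠ 0 := fun c hc h => hc (((h1 k).2.2 c).1 h)
  have hevl : ∀ l, ev (C.ℓ l) ≠ 0 := fun l => hev _ (hne l)
  have hevb : ev b ≠ 0 := hev b hb.1
  have hπ0 : π ≠ 0 := by
    rintro rfl
    apply hπ.2.1
    rw [inv_zero]
    exact O.zero_mem
  have hu0 : ∀ l, u l ≠ 0 := by
    intro l h
    have h5 := (hu l).2.2
    rw [h, mul_zero] at h5
    exact div_ne_zero (hevl l) hevb h5
  -- the power
  have hg : ev (C.ℓ i) / ev (C.ℓ j) * (f ^ n * (ev (C.ℓ Z.e) / ev (C.ℓ Z.o)) ^ 2) ∈ O := by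
    apply hint
    have h4 : (v i / v j * (algebraMap (F k) K f * v Z.e ^ 2)) ^ n ∈ ic K O := (ic K O).pow_mem hw n
    have h5 : (v i / v j * (algebraMap (F k) K f * v Z.e ^ 2)) ^ n =
        algebraMap (F k) K (ev (C.ℓ i) / ev (C.ℓ j) * (f ^ n * (ev (C.ℓ Z.e) / ev (C.ℓ Z.o)) ^ 2)) := by
      have h6 : ev (C.ℓ i) / ev (C.ℓ j) = (ev (C.ℓ i) / ev (C.ℓ Z.o)) / (ev (C.ℓ j) / ev (C.ℓ Z.o)) := by
        rw [div_div_div_cancel_right₀ (hevl Z.o)]
      rw [h6, mul_pow, div_pow, mul_pow, ← pow_mul, mul_comm 2 n, pow_mul, hv.vn, hv.vn, hv.vn,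
        map_mul, map_div₀ _ (ev (C.ℓ i) / ev (C.ℓ Z.o)), map_mul, map_pow, map_pow]
    rw [h5] at h4
    have h7 : IsIntegral O (algebraMap (F k) K
      (ev (C.ℓ i) / ev (C.ℓ j) * (f ^ n * (ev (C.ℓ Z.e) / ev (C.ℓ Z.o)) ^ 2))) := h4
    exact (isIntegral_algebraMap_iff (algebraMap (F k) K).injective).1 h7
  by_contra hy
  have hy0 : f * (ev b / ev (C.ℓ Z.o)) ≠ 0 := by
    intro h
    apply hy
    rw [h]
    exact O.zero_mem
  obtain ⟨q, w, hw1, hw2, hyq⟩ := hπ.2.2 _ hy0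
  have hw0 : w ≠ 0 := by
    rintro rfl
    rw [mul_zero] at hyq
    exact hy0 hyq
  have hq : q ≤ -1 := by
    by_contra hq
    have hq' : 0 ≤ q := by omega
    apply hy
    rw [hyq]
    obtain ⟨m, rfl⟩ := Int.eq_ofNat_of_zero_le hq'
    rw [zpow_natCast]
    exact O.mul_mem (O.pow_mem hπ.1 m) hw1
  have hεj : ε j = 0 := hεu j hj
  -- the product
  have hprod : ev (C.ℓ i) / ev (C.ℓ j) * (f ^ n * (ev (C.ℓ Z.e) / ev (C.ℓ Z.o)) ^ 2) =
      π ^ (ε i + (n : ℤ) * q + ((n - 2 : ℕ) : ℤ) * ε Z.o + 2 * ε Z.e) *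
        (u i * (u j)⁻¹ * w ^ n * u Z.o ^ (n - 2) * u Z.e ^ 2) := by
    have e1 : ev (C.ℓ i) / ev (C.ℓ j) = (ev (C.ℓ i) / ev b) / (ev (C.ℓ j) / ev b) := by
      rw [div_div_div_cancel_right₀ hevb]
    have e2 : f = f * (ev b / ev (C.ℓ Z.o)) * (ev (C.ℓ Z.o) / ev b) := by
      rw [mul_assoc, div_mul_div_comm, mul_comm (ev b), div_self (mul_ne_zero (hevl Z.o) hevb), mul_one]
    have e3 : ev (C.ℓ Z.e) / ev (C.ℓ Z.o) = (ev (C.ℓ Z.e) / ev b) / (ev (C.ℓ Z.o) / ev b) := by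
      rw [div_div_div_cancel_right₀ hevb]
    have e4 : f ^ n * (ev (C.ℓ Z.e) / ev (C.ℓ Z.o)) ^ 2 =
        (f * (ev b / ev (C.ℓ Z.o))) ^ n * ((ev (C.ℓ Z.o) / ev b) ^ (n - 2) * (ev (C.ℓ Z.e) / ev b) ^ 2) := by
      have h8 : (ev (C.ℓ Z.o) / ev b) ^ 2 ≠ 0 := pow_ne_zero 2 (div_ne_zero (hevl Z.o) hevb)
      have h9 : f ^ n = (f * (ev b / ev (C.ℓ Z.o))) ^ n * (ev (C.ℓ Z.o) / ev b) ^ n := by
        rw [← mul_pow, ← e2]
      have h10 : (ev (C.ℓ Z.o) / ev b) ^ n = (ev (C.ℓ Z.o) / ev b) ^ (n - 2) * (ev (C.ℓ Z.o) / ev b) ^ 2 := by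
        rw [← pow_add]
        congr 1
        omega
      have h11 : (ev (C.ℓ Z.e) / ev b / (ev (C.ℓ Z.o) / ev b)) ^ 2 =
          (ev (C.ℓ Z.e) / ev b) ^ 2 / (ev (C.ℓ Z.o) / ev b) ^ 2 := div_pow _ _ 2
      rw [h9, h10, e3, h11]
      exact xlam_alg _ _ _ _ h8
    rw [e1, e4, hyq, (hu i).2.2, (hu j).2.2, (hu Z.o).2.2, (hu Z.e).2.2, hεj]
    rw [zpow_zero, one_mul, mul_pow, mul_pow, mul_pow, ← zpow_natCast (π ^ q), ← zpow_natCast (π ^ ε Z.o),
      ← zpow_natCast (π ^ ε Z.e), ← zpow_mul, ← zpow_mul, ← zpow_mul, zpow_add₀ hπ0, zpow_add₀ hπ0,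
      zpow_add₀ hπ0, mul_comm q (n : ℤ), mul_comm (ε Z.o) _, mul_comm (ε Z.e) _, Nat.cast_ofNat]
    ring
  rw [hprod] at hg
  have hfin := hord _ _ (by
    refine mul_ne_zero (mul_ne_zero (mul_ne_zero (mul_ne_zero (hu0 i) (inv_ne_zero (hu0 j)))
      (pow_ne_zero _ hw0)) (pow_ne_zero _ (hu0 Z.o))) (pow_ne_zero _ (hu0 Z.e))) (by
    exact O.mul_mem (O.mul_mem (O.mul_mem (O.mul_mem (hu i).1 (hu j).2.1) (O.pow_mem hw1 n))
      (O.pow_mem (hu Z.o).1 _)) (O.pow_mem (hu Z.e).1 2)) (by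
    rw [mul_inv, mul_inv, mul_inv, mul_inv, inv_inv, ← inv_pow, ← inv_pow, ← inv_pow]
    exact O.mul_mem (O.mul_mem (O.mul_mem (O.mul_mem (hu i).2.1 (hu j).1) (O.pow_mem hw2 n))
      (O.pow_mem (hu Z.o).2.1 _)) (O.pow_mem (hu Z.e).2.1 2)) hg
  have hoe : Z.o ≠ Z.e := by
    intro h
    have h5 := Z.li.injective.ne (show (0 : Fin 3) ≠ 1 by decide)
    apply h5
    show C.ℓ Z.o = C.ℓ Z.e
    rw [h]
  have hn' : ((n - 2 : ℕ) : ℤ) = (n : ℤ) - 2 := by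
    push_cast [Nat.cast_sub (show 2 ≤ n by omega)]
    ring
  have hnq : (n : ℤ) * q ≤ -(n : ℤ) := by
    have : (n : ℤ) * q ≤ (n : ℤ) * (-1) := mul_le_mul_of_nonneg_left hq (by positivity)
    linarith
  have hn4 : (4 : ℤ) ≤ n := by exact_mod_cast hn
  rw [hn'] at hfin
  have hi1 : ε i ≤ 1 := by
    rcases hε i with h | h <;> rw [h]
    norm_num
  rcases hε2 Z.o Z.e hoe with h | h
  · rw [h, mul_zero] at hfin
    rcases hε Z.e with h' | h' <;> rw [h'] at hfin <;> linarith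
  · rw [h, mul_zero] at hfin
    rcases hε Z.o with h' | h' <;> rw [h'] at hfin <;> linarith

theorem tLam (h1 : EvStmt) (h2 : UnifStmt) (h3 : CurveStmt) : LamStmt := by
  intro k _ r n C Z K _ _ _ _ v hn hv O b i j f hO hb hij hA hB
  have hne : ∀ l, C.ℓ l ≠ 0 := by
    intro l h
    by_cases hl : l = i
    · have h4 := (C.indep l j (by rw [hl]; exact hij)).ne_zero 0
      exact h4 h
    · have h4 := (C.indep l i hl).ne_zero 0
      exact h4 h
  rcases (h3 k O hO).2.2.1 (C.ℓ i) (hne i) with h | h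
  · exact xlam_core C h1 h2 h3 Z K v hn hv O b j i f hO hb hne h (hB h)
  · have h' := (h (C.ℓ j) (C.indep i j hij)).1
    exact xlam_core C h1 h2 h3 Z K v hn hv O b i j f hO hb hne h' (hA h')

end Pool.Agent.Lib.MP_4318ff_ag
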